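import Mathlib

/-!
# Module DIV: divisor bound and number of ideals of given norm, uniformly in the fields of degree `m`

Adapted from `Pool/Agent/Hhelper85/CZ/Divisors.lean` (helper66), which is the case `m = 2`.

Let `T` be the set of primes of `I` and `e P` the multiplicities; the number of divisors is
`∏ (e P + 1)` and `N(I)^ε = ∏ N(P)^(ε e P)`.  With `B = 2^(1/ε)`: if `N(P) ≥ B` then
`e + 1 ≤ 2^e ≤ N(P)^(ε e)`; otherwise `e + 1 ≤ k₀ 2^(ε e) ≤ k₀ N(P)^(ε e)`, and there are at most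
`m ⌈B⌉` primes with `N(P) < B`, uniformly in the fields of degree `m`.
-/

open scoped NumberField nonZeroDivisors

namespace Pool.ZD

section aux

variable {K : Type} [Field K] [NumberField K]

open UniqueFactorizationMonoid Ideal

lemma nf_prod {I : Ideal (𝓞 K)} (hI : I ≠ ⊥) : (normalizedFactors I).prod = I :=
  associated_iff_eq.1 (prod_normalizedFactors hI)

/-- divisors of `I` inject into the sub-multisets of its prime factors -/
lemma divisors_card {I : Ideal (𝓞 K)} (hI : I ≠ ⊥) :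
    {J : Ideal (𝓞 K) | J ∣ I}.Finite ∧
      {J : Ideal (𝓞 K) | J ∣ I}.ncard ≤
        ∏ P ∈ (normalizedFactors I).toFinset, ((normalizedFactors I).count P + 1) := by
  classical
  have hne : ∀ J : Ideal (𝓞 K), J ∣ I → J ≠ ⊥ := by
    rintro J hJ rfl
    exact hI (zero_dvd_iff.1 hJ)
  have hmaps : Set.MapsTo (fun J : Ideal (𝓞 K) => normalizedFactors J) {J | J ∣ I}
      (Finset.Iic (normalizedFactors I) : Set (Multiset (Ideal (𝓞 K)))) := by
    intro J hJ
    simp only [Finset.coe_Iic, Set.mem_Iic]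
    exact (dvd_iff_normalizedFactors_le_normalizedFactors (hne J hJ) hI).1 hJ
  have hinj : Set.InjOn (fun J : Ideal (𝓞 K) => normalizedFactors J) {J | J ∣ I} := by
    intro J hJ J' hJ' h
    have h' : normalizedFactors J = normalizedFactors J' := h
    rw [← nf_prod (hne J hJ), ← nf_prod (hne J' hJ'), h']
  refine ⟨Set.Finite.of_injOn hmaps hinj (Finset.finite_toSet _), ?_⟩
  have := Set.ncard_le_ncard_of_injOn _ hmaps hinj (Finset.finite_toSet _)
  rwa [Set.ncard_coe_finset, Multiset.card_Iic] at this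

lemma absNorm_prod {I : Ideal (𝓞 K)} (hI : I ≠ ⊥) :
    absNorm I = ∏ P ∈ (normalizedFactors I).toFinset,
      absNorm P ^ (normalizedFactors I).count P := by
  classical
  conv_lhs => rw [← nf_prod hI]
  rw [map_multiset_prod, Finset.prod_multiset_map_count]

/-- a prime ideal contains a rational prime `≤ N(P)` -/
lemma exists_rat_prime {P : Ideal (𝓞 K)} (hP : Prime P) :
    ∃ p : ℕ, p.Prime ∧ (p : 𝓞 K) ∈ P ∧ p ≤ absNorm P := by
  have hP' : P.IsPrime := isPrime_of_prime hP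
  have h0 : absNorm P ≠ 0 := by
    rw [Ne, absNorm_eq_zero_iff]
    exact hP.ne_zero
  have hmem : ((absNorm P : ℕ) : 𝓞 K) ∈ P := absNorm_mem P
  have key : ∀ l : List ℕ, ((l.prod : ℕ) : 𝓞 K) ∈ P → ∃ p ∈ l, (p : 𝓞 K) ∈ P := by
    intro l
    induction l with
    | nil =>
      intro h
      rw [List.prod_nil, Nat.cast_one] at h
      exact absurd ((Ideal.eq_top_iff_one P).2 h) hP'.ne_top
    | cons a l ih =>
      intro h
      rw [List.prod_cons, Nat.cast_mul] at h
      rcases hP'.mem_or_mem h with h | h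
      · exact ⟨a, List.mem_cons_self, h⟩
      · obtain ⟨p, hp, hpP⟩ := ih h
        exact ⟨p, List.mem_cons_of_mem _ hp, hpP⟩
  rw [← Nat.prod_primeFactorsList h0] at hmem
  obtain ⟨p, hp, hpP⟩ := key _ hmem
  exact ⟨p, Nat.prime_of_mem_primeFactorsList hp, hpP, Nat.le_of_mem_primeFactorsList hp⟩

lemma finrank_int {m : ℕ} (hK : Module.finrank ℚ K = m) : Module.finrank ℤ (𝓞 K) = m := by
  rw [NumberField.RingOfIntegers.rank, hK]

/-- at most `m` primes over `p` -/
lemma card_over {m : ℕ} (hK : Module.finrank ℚ K = m) {p : ℕ} (hp : p.Prime) (T : Finset (Ideal (𝓞 K)))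
    (hT : ∀ P ∈ T, Prime P ∧ (p : 𝓞 K) ∈ P) : T.card ≤ m := by
  classical
  have hdvd : ∏ P ∈ T, P ∣ span {(p : 𝓞 K)} := by
    refine Finset.prod_primes_dvd _ (fun P hP => (hT P hP).1) (fun P hP => ?_)
    rw [dvd_span_singleton]
    exact (hT P hP).2
  have h1 : absNorm (∏ P ∈ T, P) ∣ p ^ m := by
    have := map_dvd absNorm hdvd
    rwa [absNorm_span_natCast, finrank_int hK] at this
  rw [map_prod] at h1
  have h2 : ∀ P ∈ T, p ∣ absNorm P := by
    intro P hP
    have h3 : absNorm P ∣ p ^ m := by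
      have h4 : P ∣ span {(p : 𝓞 K)} := by
        rw [dvd_span_singleton]
        exact (hT P hP).2
      have := map_dvd absNorm h4
      rwa [absNorm_span_natCast, finrank_int hK] at this
    obtain ⟨k, -, hk⟩ := (Nat.dvd_prime_pow hp).1 h3
    rcases Nat.eq_zero_or_pos k with rfl | hk0
    · exfalso
      rw [pow_zero, absNorm_eq_one_iff] at hk
      exact (hT P hP).1.not_isUnit (Ideal.isUnit_iff.2 hk)
    · rw [hk]
      exact dvd_pow_self p hk0.ne'
  have h3 : p ^ T.card ∣ p ^ m := by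
    refine dvd_trans ?_ h1
    rw [← Finset.prod_const]
    exact Finset.prod_dvd_prod_of_dvd _ _ h2
  exact (Nat.pow_dvd_pow_iff_le_right hp.one_lt).1 h3

/-- at most `m n` primes of norm `< n` -/
lemma card_small {m : ℕ} (hK : Module.finrank ℚ K = m) (n : ℕ) (T : Finset (Ideal (𝓞 K)))
    (hT : ∀ P ∈ T, Prime P ∧ absNorm P < n) : T.card ≤ m * n := by
  classical
  have hsub : T ⊆ (Finset.range n).biUnion (fun p => T.filter (fun P => p.Prime ∧ (p : 𝓞 K) ∈ P)) := by
    intro P hP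
    obtain ⟨p, hp, hpP, hle⟩ := exists_rat_prime (hT P hP).1
    rw [Finset.mem_biUnion]
    exact ⟨p, Finset.mem_range.2 (lt_of_le_of_lt hle (hT P hP).2),
      Finset.mem_filter.2 ⟨hP, hp, hpP⟩⟩
  calc T.card ≤ _ := Finset.card_le_card hsub
    _ ≤ ∑ p ∈ Finset.range n, (T.filter (fun P => p.Prime ∧ (p : 𝓞 K) ∈ P)).card :=
        Finset.card_biUnion_le
    _ ≤ ∑ _p ∈ Finset.range n, m := by
        refine Finset.sum_le_sum (fun p _ => ?_)
        by_cases hp : p.Prime
        · refine card_over hK hp _ (fun P hP => ?_)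
          rw [Finset.mem_filter] at hP
          exact ⟨(hT P hP.1).1, hP.2.2⟩
        · rw [Finset.card_eq_zero.2]
          · omega
          · rw [Finset.filter_eq_empty_iff]
            rintro P - ⟨h, -⟩
            exact hp h
    _ = m * n := by simp [mul_comm]

lemma two_le_norm {P : Ideal (𝓞 K)} (hP : Prime P) : 2 ≤ absNorm P := by
  have h0 : absNorm P ≠ 0 := by
    rw [Ne, absNorm_eq_zero_iff]
    exact hP.ne_zero
  have h1 : absNorm P ≠ 1 := by
    rw [Ne, absNorm_eq_one_iff]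
    intro h
    exact hP.not_isUnit (Ideal.isUnit_iff.2 h)
  omega

end aux

open UniqueFactorizationMonoid Ideal in
theorem divisors_bound (m : ℕ) (ε : ℝ) (hε : 0 < ε) : ∃ C : ℝ, 1 ≤ C ∧
    ∀ (K : Type) [Field K] [NumberField K], Module.finrank ℚ K = m →
    ∀ I : Ideal (𝓞 K), I ≠ ⊥ →
      {J : Ideal (𝓞 K) | J ∣ I}.Finite ∧
      (({J : Ideal (𝓞 K) | J ∣ I}.ncard : ℕ) : ℝ) ≤ C * (Ideal.absNorm I : ℝ) ^ ε := by
  classical
  set B : ℝ := 2 ^ (1 / ε) with hB
  set k0 : ℝ := max 1 (1 / (ε * Real.log 2)) with hk0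
  have hk01 : 1 ≤ k0 := le_max_left _ _
  have hlog : 0 < Real.log 2 := Real.log_pos (by norm_num)
  set n : ℕ := ⌈B⌉₊ with hn
  -- the elementary bound for small primes
  have hsmall : ∀ (e : ℕ) (N : ℕ), 2 ≤ N → ((e : ℝ) + 1) ≤ k0 * ((N : ℝ) ^ e) ^ ε := by
    intro e N hN
    have h1 : (2 : ℝ) ^ (ε * e) ≤ ((N : ℝ) ^ e) ^ ε := by
      rw [← Real.rpow_natCast, ← Real.rpow_mul (by positivity), mul_comm (e : ℝ)]
      exact Real.rpow_le_rpow (by norm_num) (by exact_mod_cast hN) (by positivity)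
    have h2 : 1 + ε * Real.log 2 * e ≤ (2 : ℝ) ^ (ε * e) := by
      rw [Real.rpow_def_of_pos (by norm_num : (0 : ℝ) < 2)]
      have := Real.add_one_le_exp (Real.log 2 * (ε * e))
      linarith
    have h3 : (e : ℝ) ≤ k0 * (ε * Real.log 2 * e) := by
      have h4 : 1 ≤ k0 * (ε * Real.log 2) := by
        have h5 : 1 / (ε * Real.log 2) ≤ k0 := le_max_right _ _
        rwa [div_le_iff₀ (by positivity)] at h5
      calc (e : ℝ) = 1 * e := by ring
        _ ≤ (k0 * (ε * Real.log 2)) * e := mul_le_mul_of_nonneg_right h4 (by positivity)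
        _ = _ := by ring
    calc (e : ℝ) + 1 ≤ k0 * (ε * Real.log 2 * e) + k0 * 1 := by linarith
      _ = k0 * (1 + ε * Real.log 2 * e) := by ring
      _ ≤ k0 * ((N : ℝ) ^ e) ^ ε :=
        mul_le_mul_of_nonneg_left (h2.trans h1) (by linarith)
  have hbig : ∀ (e : ℕ) (N : ℕ), B ≤ N → ((e : ℝ) + 1) ≤ ((N : ℝ) ^ e) ^ ε := by
    intro e N hN
    have h1 : ((2 : ℝ) ^ e) ≤ ((N : ℝ) ^ e) ^ ε := by
      have h2 : (B ^ e) ^ ε ≤ ((N : ℝ) ^ e) ^ ε := by
        have hB0 : 0 ≤ B := by positivity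
        exact Real.rpow_le_rpow (by positivity) (pow_le_pow_left₀ hB0 hN e) hε.le
      have h3 : (B ^ e) ^ ε = 2 ^ e := by
        rw [hB, ← Real.rpow_natCast, ← Real.rpow_mul (by positivity), ← Real.rpow_mul (by positivity)]
        rw [← Real.rpow_natCast]
        congr 1
        field_simp
      rwa [h3] at h2
    have h2 : ((e : ℝ) + 1) ≤ 2 ^ e := by
      have : e + 1 ≤ 2 ^ e := Nat.lt_two_pow_self
      exact_mod_cast this
    exact h2.trans h1
  refine ⟨k0 ^ (m * n), one_le_pow₀ hk01, ?_⟩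
  intro K _ _ hK I hI
  obtain ⟨hfin, hcard⟩ := divisors_card hI
  refine ⟨hfin, ?_⟩
  set F := normalizedFactors I with hF
  have hprime : ∀ P ∈ F.toFinset, Prime P := by
    intro P hP
    rw [Multiset.mem_toFinset] at hP
    exact prime_of_normalized_factor P hP
  have h1 : (({J : Ideal (𝓞 K) | J ∣ I}.ncard : ℕ) : ℝ) ≤
      ∏ P ∈ F.toFinset, ((F.count P : ℝ) + 1) := by
    have : (({J : Ideal (𝓞 K) | J ∣ I}.ncard : ℕ) : ℝ) ≤
      ((∏ P ∈ F.toFinset, (F.count P + 1) : ℕ) : ℝ) := by exact_mod_cast hcard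
    refine this.trans (le_of_eq ?_)
    push_cast
    rfl
  have h2 : ∏ P ∈ F.toFinset, ((F.count P : ℝ) + 1) ≤
      ∏ P ∈ F.toFinset, ((if absNorm P < n then k0 else 1) *
        (((absNorm P : ℕ) : ℝ) ^ (F.count P)) ^ ε) := by
    refine Finset.prod_le_prod (fun _ _ => by positivity) (fun P hP => ?_)
    split_ifs with h
    · exact hsmall _ _ (two_le_norm (hprime P hP))
    · rw [one_mul]
      refine hbig _ _ ?_
      have : n ≤ absNorm P := not_lt.1 h
      exact (Nat.le_ceil B).trans (by exact_mod_cast this)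
  have h3 : ∏ P ∈ F.toFinset, ((((absNorm P : ℕ) : ℝ) ^ (F.count P)) ^ ε) =
      (absNorm I : ℝ) ^ ε := by
    rw [Real.finsetProd_rpow _ _ (fun _ _ => by positivity), absNorm_prod hI]
    push_cast
    rfl
  have h4 : ∏ P ∈ F.toFinset, (if absNorm P < n then k0 else 1) ≤ k0 ^ (m * n) := by
    rw [Finset.prod_ite, Finset.prod_const_one, mul_one, Finset.prod_const]
    refine pow_le_pow_right₀ hk01 (card_small hK n _ (fun P hP => ?_))
    rw [Finset.mem_filter] at hP
    exact ⟨hprime P hP.1, hP.2⟩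
  calc (({J : Ideal (𝓞 K) | J ∣ I}.ncard : ℕ) : ℝ) ≤ _ := h1.trans h2
    _ = (∏ P ∈ F.toFinset, (if absNorm P < n then k0 else 1)) * (absNorm I : ℝ) ^ ε := by
        rw [Finset.prod_mul_distrib, h3]
    _ ≤ k0 ^ (m * n) * (absNorm I : ℝ) ^ ε := mul_le_mul_of_nonneg_right h4 (by positivity)

open UniqueFactorizationMonoid Ideal in
theorem norm_count_bound (m : ℕ) (ε : ℝ) (hε : 0 < ε) : ∃ C : ℝ, 1 ≤ C ∧
    ∀ (K : Type) [Field K] [NumberField K], Module.finrank ℚ K = m →
    ∀ n : ℕ, 1 ≤ n →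
      {J : Ideal (𝓞 K) | Ideal.absNorm J = n}.Finite ∧
      (({J : Ideal (𝓞 K) | Ideal.absNorm J = n}.ncard : ℕ) : ℝ) ≤ C * (n : ℝ) ^ ε := by
  obtain ⟨C, hC, h⟩ := divisors_bound m (ε / (m + 1)) (by positivity)
  refine ⟨C, hC, ?_⟩
  intro K _ _ hK n hn
  have hne : span {(n : 𝓞 K)} ≠ ⊥ := by
    rw [Ne, span_singleton_eq_bot]
    exact_mod_cast (by omega : n ≠ 0)
  obtain ⟨hfin, hcard⟩ := h K hK _ hne
  have hsub : {J : Ideal (𝓞 K) | Ideal.absNorm J = n} ⊆ {J | J ∣ span {(n : 𝓞 K)}} := by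
    intro J hJ
    have hJ : absNorm J = n := hJ
    show J ∣ _
    rw [dvd_span_singleton, ← hJ]
    exact absNorm_mem J
  refine ⟨hfin.subset hsub, ?_⟩
  have h1 : (({J : Ideal (𝓞 K) | Ideal.absNorm J = n}.ncard : ℕ) : ℝ) ≤
      (({J : Ideal (𝓞 K) | J ∣ span {(n : 𝓞 K)}}.ncard : ℕ) : ℝ) := by
    exact_mod_cast Set.ncard_le_ncard hsub hfin
  refine h1.trans (hcard.trans ?_)
  rw [absNorm_span_natCast, finrank_int hK]
  refine mul_le_mul_of_nonneg_left ?_ (by linarith)
  push_cast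
  rw [← Real.rpow_natCast, ← Real.rpow_mul (by positivity)]
  refine Real.rpow_le_rpow_of_exponent_le (by exact_mod_cast hn) ?_
  have hm : (0 : ℝ) < (m : ℝ) + 1 := by positivity
  rw [mul_div_assoc', div_le_iff₀ hm]
  nlinarith

end Pool.ZD
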