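import Pool.Agent.ZD.Defs

/-!
# Module SCALE: elementary facts on `sc`, `sg`, `en`

PAPER PROOF. Everything is a direct computation. `normAtPlace_mixedSpaceOfRealSpace` gives
`normAtPlace w (sg t) = sc t w`. For the norm: `mixedEmbedding.norm_apply` is
`∏ w, normAtPlace w x ^ mult w`; split off `w₀`; for `w ≠ w₀` the factor is `exp (t w)`, for `w₀` it is
`exp (- ∑ v, t v)`. `sg (s+t) = sg s * sg t` componentwise. For a unit `u` and `w ≠ w₀`,
`logEmbedding K u w = mult w * log (w u)`, hence `sc = w u`; for `w₀` use that both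
`sg (logEmbedding u)` and `mixedEmbedding u` have norm one and agree at all the other places (or
`sum_logEmbedding_component`: `∑_{w ≠ w₀} logEmbedding u w = - mult w₀ * log (w₀ u)`).
`en`: `euclidean.mixedSpace K = WithLp 2 (EuclideanSpace ℝ _ × EuclideanSpace ℂ _)`,
`WithLp.prod_norm_sq_eq_of_L2`, `EuclideanSpace.norm_sq_eq`, and split the sum over the places into
real and complex ones.
-/

open scoped NumberField nonZeroDivisors
open NumberField NumberField.InfinitePlace NumberField.mixedEmbedding NumberField.Units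
  NumberField.Units.dirichletUnitTheorem

namespace Pool.ZD

variable (K : Type) [Field K] [NumberField K]

theorem sc_pos (t : logSpace K) (w : InfinitePlace K) : 0 < sc K t w := by
  unfold sc
  split_ifs <;> exact Real.exp_pos _

theorem continuous_sc (w : InfinitePlace K) : Continuous (fun t : logSpace K => sc K t w) := by
  unfold sc
  split_ifs with h
  · exact Real.continuous_exp.comp ((continuous_finsetSum _ fun v _ => continuous_apply v).neg.div_const _)
  · exact Real.continuous_exp.comp ((continuous_apply _).div_const _)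

theorem normAtPlace_sg (t : logSpace K) (w : InfinitePlace K) :
    normAtPlace w (sg K t) = sc K t w := by
  unfold sg
  exact normAtPlace_mixedSpaceOfRealSpace (sc_pos K t w).le

theorem sc_pow_of_ne (t : logSpace K) (v : {w : InfinitePlace K // w ≠ w₀}) :
    sc K t v.1 ^ mult v.1 = Real.exp (t v) := by
  unfold sc
  rw [dif_neg v.2, ← Real.exp_nat_mul]
  congr 1
  have : (mult v.1 : ℝ) ≠ 0 := mult_coe_ne_zero
  field_simp

open scoped Classical in
theorem sc_pow_w₀ (t : logSpace K) :
    sc K t (w₀ : InfinitePlace K) ^ mult (w₀ : InfinitePlace K) = Real.exp (-(∑ v, t v)) := by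
  unfold sc
  rw [dif_pos rfl, ← Real.exp_nat_mul]
  congr 1
  have : (mult (w₀ : InfinitePlace K) : ℝ) ≠ 0 := mult_coe_ne_zero
  field_simp

theorem norm_sg (t : logSpace K) : mixedEmbedding.norm (sg K t) = 1 := by
  classical
  rw [mixedEmbedding.norm_apply]
  simp only [normAtPlace_sg]
  rw [Fintype.prod_eq_mul_prod_subtype_ne (fun w => sc K t w ^ mult w) w₀]
  rw [sc_pow_w₀]
  have h1 : ∏ v : {w : InfinitePlace K // w ≠ w₀}, sc K t v.1 ^ mult v.1 =
      Real.exp (∑ v, t v) := by
    rw [Real.exp_sum]
    exact Finset.prod_congr rfl fun v _ => sc_pow_of_ne K t v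
  rw [h1, ← Real.exp_add, neg_add_cancel, Real.exp_zero]

theorem norm_sg_mul (t : logSpace K) (x : mixedSpace K) :
    mixedEmbedding.norm (sg K t * x) = mixedEmbedding.norm x := by
  rw [map_mul, norm_sg, one_mul]

theorem normAtPlace_sg_mul (t : logSpace K) (x : mixedSpace K) (w : InfinitePlace K) :
    normAtPlace w (sg K t * x) = sc K t w * normAtPlace w x := by
  rw [map_mul, normAtPlace_sg]

theorem sc_add (s t : logSpace K) (w : InfinitePlace K) :
    sc K (s + t) w = sc K s w * sc K t w := by
  unfold sc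
  split_ifs with h
  · rw [← Real.exp_add]
    congr 1
    simp only [Pi.add_apply, Finset.sum_add_distrib]
    ring
  · rw [← Real.exp_add]
    congr 1
    simp only [Pi.add_apply]
    ring

theorem sg_add (s t : logSpace K) : sg K (s + t) = sg K s * sg K t := by
  unfold sg
  rw [mixedSpaceOfRealSpace_apply, mixedSpaceOfRealSpace_apply, mixedSpaceOfRealSpace_apply]
  refine Prod.ext ?_ ?_
  · funext w
    simp only [Prod.fst_mul, Pi.mul_apply]
    exact sc_add K s t w.1
  · funext w
    simp only [Prod.snd_mul, Pi.mul_apply]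
    rw [sc_add K s t w.1, Complex.ofReal_mul]

theorem sc_logEmbedding (u : (𝓞 K)ˣ) (w : InfinitePlace K) :
    sc K (logEmbedding K (Additive.ofMul u)) w = w ((u : 𝓞 K) : K) := by
  have hpos : ∀ v : InfinitePlace K, 0 < v ((u : 𝓞 K) : K) := fun v => Units.pos_at_place u v
  unfold sc
  split_ifs with h
  · subst h
    rw [sum_logEmbedding_component]
    have h0 : (mult (w₀ : InfinitePlace K) : ℝ) ≠ 0 := mult_coe_ne_zero
    rw [neg_mul, neg_neg, mul_comm, mul_div_assoc, div_self h0, mul_one, Real.exp_log (hpos _)]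
  · rw [logEmbedding_component]
    have h0 : (mult w : ℝ) ≠ 0 := mult_coe_ne_zero
    simp only
    rw [mul_comm, mul_div_assoc, div_self h0, mul_one, Real.exp_log (hpos _)]

theorem logMap_sg (t : logSpace K) : logMap (sg K t) = t := by
  funext v
  rw [logMap_apply_of_norm_eq_one (norm_sg K t), normAtPlace_sg]
  unfold sc
  rw [dif_neg v.2, Real.log_exp]
  have h0 : (mult v.1 : ℝ) ≠ 0 := mult_coe_ne_zero
  field_simp

theorem continuous_sg : Continuous (sg K) := by
  unfold sg
  exact mixedSpaceOfRealSpace.continuous.comp (continuous_pi fun w => continuous_sc K w)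

open scoped Classical in
theorem en_eq (x : mixedSpace K) : en K x = ‖(euclidean.toMixed K).symm x‖ := by
  rw [WithLp.prod_norm_eq_of_L2, EuclideanSpace.norm_sq_eq, EuclideanSpace.norm_sq_eq]
  unfold en
  congr 1
  rw [← Fintype.sum_subtype_add_sum_subtype (fun w : InfinitePlace K => IsReal w)
    (fun w => normAtPlace w x ^ 2)]
  congr 1
  · refine Finset.sum_congr rfl fun w _ => ?_
    rw [normAtPlace_apply_of_isReal w.2]
    rfl
  · rw [← (Equiv.subtypeEquivRight (fun _ => not_isReal_iff_isComplex)).sum_comp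
      (fun w : {w : InfinitePlace K // IsComplex w} =>
        ‖((euclidean.toMixed K).symm x).snd w‖ ^ 2)]
    refine Finset.sum_congr rfl fun w _ => ?_
    rw [normAtPlace_apply_of_isComplex (not_isReal_iff_isComplex.1 w.2)]
    rfl

theorem normAtPlace_le_en (x : mixedSpace K) (w : InfinitePlace K) :
    normAtPlace w x ≤ en K x := by
  unfold en
  refine Real.le_sqrt_of_sq_le ?_
  exact Finset.single_le_sum (f := fun w => normAtPlace w x ^ 2) (fun v _ => sq_nonneg _)
    (Finset.mem_univ w)

theorem en_le (x : mixedSpace K) (r : ℝ) (hr : 0 ≤ r) (h : ∀ w, normAtPlace w x ≤ r) :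
    en K x ≤ Module.finrank ℚ K * r := by
  classical
  unfold en
  have hcard : Fintype.card (InfinitePlace K) ≤ Module.finrank ℚ K := by
    rw [← sum_mult_eq, ← Finset.card_univ, Finset.card_eq_sum_ones]
    refine Finset.sum_le_sum fun w _ => ?_
    rw [mult]
    split_ifs <;> norm_num
  have hm : 1 ≤ Module.finrank ℚ K := Module.finrank_pos
  have hmR : (1 : ℝ) ≤ Module.finrank ℚ K := by exact_mod_cast hm
  refine Real.sqrt_le_iff.2 ⟨by positivity, ?_⟩
  calc ∑ w, normAtPlace w x ^ 2 ≤ ∑ _w : InfinitePlace K, r ^ 2 :=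
        Finset.sum_le_sum fun w _ => pow_le_pow_left₀ (normAtPlace_nonneg w x) (h w) 2
    _ = (Fintype.card (InfinitePlace K) : ℝ) * r ^ 2 := by
        rw [Finset.sum_const, Finset.card_univ, nsmul_eq_mul]
    _ ≤ (Module.finrank ℚ K : ℝ) * r ^ 2 := by
        refine mul_le_mul_of_nonneg_right ?_ (sq_nonneg r)
        exact_mod_cast hcard
    _ ≤ (Module.finrank ℚ K * r) ^ 2 := by
        rw [mul_pow]
        refine mul_le_mul_of_nonneg_right ?_ (sq_nonneg r)
        nlinarith

theorem continuous_en : Continuous (en K) := by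
  unfold en
  exact Real.continuous_sqrt.comp (continuous_finsetSum _ fun w _ =>
    (continuous_normAtPlace w).pow 2)

theorem en_pos (x : mixedSpace K) (hx : x ≠ 0) : 0 < en K x := by
  obtain ⟨w, hw⟩ := exists_normAtPlace_ne_zero_iff.2 hx
  exact lt_of_lt_of_le (lt_of_le_of_ne (normAtPlace_nonneg w x) (Ne.symm hw))
    (normAtPlace_le_en K x w)

end Pool.ZD
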