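import Pool.Agent.ZD.Mean

/-!
# Module HR: class number times regulator, counting ideals in classes

PAPER PROOF. `h = classNumber K`, `R' = regulator K / torsionOrder K`, `D = |discr K| ≥ 1`.
`rho_bounds`: `rho K = 2^r₁ (2π)^r₂ R'/√D`, `r₁ + 2 r₂ = m`, so `R'/√D ≤ rho K ≤ (2π)^m R'/√D`.
`hR_le`: take the trapezoid `g₀ u = max 0 (min 1 (min (2(u-1)) (4-u)))`: `Nice 2`, values in `[0,1]`,
`g₀ = 1` on `[3/2,3]`. By `class_mean` (with `ε`) and Cauchy-Schwarz, for `Z ≥ 1`
`h * rho * (∫ g₀) * Z ≤ ∑_A ∑_{I ∈ A} g₀ (N I/Z) + √h √(C R' Z^(2-2/m) D^ε)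
≤ #{N I ≤ 4Z} + √(C h R') Z^(1-1/m) D^(ε/2)`, so by `count_le`, with `Z = D^m`:
`h R' ≤ C √D (D^(mε) + √(h R') D^(-1+ε/2))`; and `x ≤ a + b √x` implies `x ≤ 2a + b^2`.
`class_count`: with `X' = 2X/3`, `X < N I ≤ 2X` implies `3/2 < N I/X' ≤ 3`; so the number of such ideals in
`A` is `≤ rho (∫ g₀) X' + |error_A|`; square, sum over `A`, use `class_mean`,
`h rho^2 X^2 ≤ C R' (h R'/D) X^2` and `hR_le`.
-/

open scoped NumberField nonZeroDivisors ENNReal
open NumberField NumberField.InfinitePlace NumberField.mixedEmbedding NumberField.Units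

namespace Pool.ZD

theorem rho_bounds (m : ℕ) (K : Type) [Field K] [NumberField K] (hK : Module.finrank ℚ K = m) :
    (regulator K / torsionOrder K) / Real.sqrt |(discr K : ℝ)| ≤ rho K ∧
    rho K ≤ (2 * Real.pi) ^ m * (regulator K / torsionOrder K) / Real.sqrt |(discr K : ℝ)| := by
  have hD : 0 < |(discr K : ℝ)| := abs_pos.2 (by exact_mod_cast discr_ne_zero K)
  have hs : 0 < Real.sqrt |(discr K : ℝ)| := Real.sqrt_pos.2 hD
  have hR : 0 ≤ regulator K / torsionOrder K :=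
    div_nonneg (regulator_pos K).le (Nat.cast_nonneg _)
  have hpi : 1 ≤ 2 * Real.pi := by have := Real.pi_gt_three; linarith
  have hpi2 : (2 : ℝ) ≤ 2 * Real.pi := by have := Real.pi_gt_three; linarith
  have hr := card_add_two_mul_card_eq_rank K
  rw [hK] at hr
  have e : rho K = (2 ^ nrRealPlaces K * (2 * Real.pi) ^ nrComplexPlaces K) *
      (regulator K / torsionOrder K) / Real.sqrt |(discr K : ℝ)| := by
    unfold rho
    rw [div_mul_eq_div_div, mul_div_assoc, mul_div_assoc]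
  have h1 : (1 : ℝ) ≤ 2 ^ nrRealPlaces K * (2 * Real.pi) ^ nrComplexPlaces K := by
    have a1 : (1 : ℝ) ≤ 2 ^ nrRealPlaces K := one_le_pow₀ (by norm_num)
    have a2 : (1 : ℝ) ≤ (2 * Real.pi) ^ nrComplexPlaces K := one_le_pow₀ hpi
    nlinarith
  have h2 : (2 : ℝ) ^ nrRealPlaces K * (2 * Real.pi) ^ nrComplexPlaces K ≤
      (2 * Real.pi) ^ m := by
    calc (2 : ℝ) ^ nrRealPlaces K * (2 * Real.pi) ^ nrComplexPlaces K
        ≤ (2 * Real.pi) ^ nrRealPlaces K * (2 * Real.pi) ^ nrComplexPlaces K := by gcongr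
      _ = (2 * Real.pi) ^ (nrRealPlaces K + nrComplexPlaces K) := by rw [pow_add]
      _ ≤ (2 * Real.pi) ^ m := pow_le_pow_right₀ hpi (by omega)
  constructor
  · rw [e]
    gcongr
    nlinarith
  · rw [e]
    gcongr

namespace HR

/-- The trapezoid. -/
noncomputable def g0 (u : ℝ) : ℝ := max 0 (min 1 (min (2 * (u - 1)) (4 - u)))

theorem g0_nonneg (u : ℝ) : 0 ≤ g0 u := le_max_left _ _

theorem g0_le_one (u : ℝ) : g0 u ≤ 1 := max_le zero_le_one (min_le_left _ _)

theorem g0_eq_zero {u : ℝ} (h : u ≤ 1 ∨ 4 ≤ u) : g0 u = 0 := by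
  unfold g0
  apply max_eq_left
  rcases h with h | h
  · exact (min_le_right _ _).trans ((min_le_left _ _).trans (by linarith))
  · exact (min_le_right _ _).trans ((min_le_right _ _).trans (by linarith))

theorem g0_eq_one {u : ℝ} (h1 : 3 / 2 ≤ u) (h2 : u ≤ 3) : g0 u = 1 := by
  unfold g0
  have : min 1 (min (2 * (u - 1)) (4 - u)) = 1 :=
    min_eq_left (le_min (by linarith) (by linarith))
  rw [this]
  exact max_eq_right zero_le_one

theorem g0_lip (u v : ℝ) : |g0 u - g0 v| ≤ 2 * |u - v| := by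
  unfold g0
  refine (abs_max_sub_max_le_max _ _ _ _).trans (max_le (by simp) ?_)
  refine (abs_min_sub_min_le_max _ _ _ _).trans (max_le (by simp) ?_)
  refine (abs_min_sub_min_le_max _ _ _ _).trans (max_le ?_ ?_)
  · rw [← mul_sub, abs_mul]
    norm_num
  · rw [show (4 - u - (4 - v)) = -(u - v) by ring, abs_neg]
    nlinarith [abs_nonneg (u - v)]

theorem nice_g0 : Nice 2 (fun u : ℝ => (g0 u : ℂ)) := by
  refine ⟨by norm_num, fun u v => ?_, fun u hu => ?_⟩
  · rw [← Complex.ofReal_sub, Complex.norm_real, Real.norm_eq_abs]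
    exact g0_lip u v
  · simp [g0_eq_zero hu]

theorem g0_cont : Continuous g0 := by
  unfold g0
  fun_prop

theorem int_g0 : 1 ≤ ∫ u, g0 u ∧ ∫ u, g0 u ≤ 3 := by
  have hcs : HasCompactSupport g0 := by
    apply HasCompactSupport.intro (isCompact_Icc (a := (1 : ℝ)) (b := 4))
    intro x hx
    apply g0_eq_zero
    rw [Set.mem_Icc, not_and_or] at hx
    rcases hx with hx | hx
    · left; linarith
    · right; linarith
  have hint : MeasureTheory.Integrable g0 := g0_cont.integrable_of_hasCompactSupport hcs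
  constructor
  · have h1 : ∫ u, (Set.Icc (3 / 2 : ℝ) 3).indicator (fun _ => (1 : ℝ)) u ≤ ∫ u, g0 u := by
      apply MeasureTheory.integral_mono _ hint
      · intro u
        by_cases hu : u ∈ Set.Icc (3 / 2 : ℝ) 3
        · rw [Set.indicator_of_mem hu, g0_eq_one hu.1 hu.2]
        · rw [Set.indicator_of_notMem hu]; exact g0_nonneg u
      · exact (MeasureTheory.integrable_indicator_iff measurableSet_Icc).2
          (MeasureTheory.integrableOn_const (by simp))
    rw [MeasureTheory.integral_indicator measurableSet_Icc, MeasureTheory.setIntegral_const] at h1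
    simp at h1
    norm_num at h1
    linarith
  · have h1 : ∫ u, g0 u ≤ ∫ u, (Set.Icc (1 : ℝ) 4).indicator (fun _ => (1 : ℝ)) u := by
      apply MeasureTheory.integral_mono hint
      · exact (MeasureTheory.integrable_indicator_iff measurableSet_Icc).2
          (MeasureTheory.integrableOn_const (by simp))
      · intro u
        by_cases hu : u ∈ Set.Icc (1 : ℝ) 4
        · rw [Set.indicator_of_mem hu]; exact g0_le_one u
        · rw [Set.indicator_of_notMem hu, g0_eq_zero]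
          rw [Set.mem_Icc, not_and_or] at hu
          rcases hu with hx | hx
          · left; linarith
          · right; linarith
    rw [MeasureTheory.integral_indicator measurableSet_Icc, MeasureTheory.setIntegral_const] at h1
    simp at h1
    norm_num at h1
    linarith

section Sums

variable (K : Type) [Field K] [NumberField K]

/-- The ideals of norm at most `Y`, as a finset. -/
noncomputable def FF (Y : ℝ) : Finset (Ideal (𝓞 K))⁰ := (finite_le K Y).toFinset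

theorem mem_FF {Y : ℝ} {I : (Ideal (𝓞 K))⁰} : I ∈ FF K Y ↔ nm K I ≤ Y := by
  simp [FF]

open Classical in
/-- The smooth count in a class. -/
noncomputable def SA (Z : ℝ) (A : ClassGroup (𝓞 K)) : ℝ :=
  ∑ I ∈ FF K (4 * Z), if ClassGroup.mk0 I = A then g0 (nm K I / Z) else 0

theorem SA_nonneg (Z : ℝ) (A : ClassGroup (𝓞 K)) : 0 ≤ SA K Z A := by
  classical
  apply Finset.sum_nonneg
  intro I _
  split_ifs
  · exact g0_nonneg _
  · exact le_rfl

theorem tsum_eq {Z : ℝ} (hZ : 0 < Z) (A : ClassGroup (𝓞 K)) :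
    ∑' I : Cls K A, (g0 (nm K I / Z) : ℂ) = (SA K Z A : ℂ) := by
  classical
  have h1 : ∑' I : Cls K A, (g0 (nm K I / Z) : ℂ) =
      ∑' I : (Ideal (𝓞 K))⁰, ({I : (Ideal (𝓞 K))⁰ | ClassGroup.mk0 I = A}.indicator
        (fun I => (g0 (nm K I / Z) : ℂ))) I :=
    tsum_subtype {I : (Ideal (𝓞 K))⁰ | ClassGroup.mk0 I = A}
      (fun I => (g0 (nm K I / Z) : ℂ))
  rw [h1, tsum_eq_sum (s := FF K (4 * Z))]
  · unfold SA
    push_cast
    apply Finset.sum_congr rfl
    intro I _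
    by_cases h : ClassGroup.mk0 I = A
    · rw [Set.indicator_of_mem (by exact h), if_pos h]
    · rw [Set.indicator_of_notMem (by exact h), if_neg h, Complex.ofReal_zero]
  · intro I hI
    rw [mem_FF] at hI
    push Not at hI
    have : g0 (nm K I / Z) = 0 := by
      apply g0_eq_zero
      right
      rw [le_div_iff₀ hZ]
      exact hI.le
    by_cases h : I ∈ {I : (Ideal (𝓞 K))⁰ | ClassGroup.mk0 I = A}
    · rw [Set.indicator_of_mem h, this, Complex.ofReal_zero]
    · rw [Set.indicator_of_notMem h]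

theorem sum_SA_le (Z : ℝ) :
    ∑ A : ClassGroup (𝓞 K), SA K Z A ≤ (FF K (4 * Z)).card := by
  classical
  unfold SA
  rw [Finset.sum_comm]
  have : ∀ I ∈ FF K (4 * Z), (∑ A : ClassGroup (𝓞 K),
      if ClassGroup.mk0 I = A then g0 (nm K I / Z) else 0) ≤ 1 := by
    intro I _
    rw [Finset.sum_ite_eq]
    simp only [Finset.mem_univ, if_true]
    exact g0_le_one _
  refine (Finset.sum_le_sum this).trans ?_
  simp

theorem card_le_SA {X : ℝ} (hX : 0 < X) (A : ClassGroup (𝓞 K)) :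
    (Nat.card {I : Cls K A // X < nm K I ∧ nm K I ≤ 2 * X} : ℝ) ≤ SA K (2 * X / 3) A := by
  classical
  set T := (FF K (4 * (2 * X / 3))).filter
    (fun I => ClassGroup.mk0 I = A ∧ X < nm K I ∧ nm K I ≤ 2 * X) with hT
  have h1 : Nat.card {I : Cls K A // X < nm K I ∧ nm K I ≤ 2 * X} ≤ T.card := by
    rw [← Nat.card_eq_finsetCard T]
    apply Nat.card_le_card_of_injective
      (fun I : {I : Cls K A // X < nm K I ∧ nm K I ≤ 2 * X} => (⟨I.1.1, by
        rw [hT, Finset.mem_filter, mem_FF]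
        exact ⟨by have := I.2.2; linarith, I.1.2, I.2.1, I.2.2⟩⟩ : T))
    intro I J h
    apply Subtype.ext
    apply Subtype.ext
    exact congrArg (fun x : T => (x : (Ideal (𝓞 K))⁰)) h
  have h2 : (T.card : ℝ) ≤ SA K (2 * X / 3) A := by
    unfold SA
    rw [← nsmul_one, ← Finset.sum_const]
    calc ∑ I ∈ T, (1 : ℝ) = ∑ I ∈ T, (if ClassGroup.mk0 I = A then g0 (nm K I / (2 * X / 3)) else 0) := by
          apply Finset.sum_congr rfl
          intro I hI
          rw [hT, Finset.mem_filter] at hI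
          rw [if_pos hI.2.1, g0_eq_one]
          · rw [div_div_eq_mul_div, div_le_div_iff₀ (by norm_num) (by linarith)]
            have := hI.2.2.1
            nlinarith
          · rw [div_div_eq_mul_div, div_le_iff₀ (by linarith)]
            have := hI.2.2.2
            nlinarith
      _ ≤ _ := by
          apply Finset.sum_le_sum_of_subset_of_nonneg (Finset.filter_subset _ _)
          intro I _ _
          split_ifs
          · exact g0_nonneg _
          · exact le_rfl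
  exact (by exact_mod_cast h1 : (Nat.card _ : ℝ) ≤ (T.card : ℝ)).trans h2

theorem int_ofReal : (∫ u, (g0 u : ℂ)) = ((∫ u, g0 u : ℝ) : ℂ) := integral_ofReal

/-- The real form of `class_mean`. -/
theorem mean (m : ℕ) (hm : 2 ≤ m) (ε : ℝ) (hε : 0 < ε) : ∃ C : ℝ, 0 < C ∧
    ∀ (K : Type) [Field K] [NumberField K], Module.finrank ℚ K = m →
    ∀ Z : ℝ, 0 < Z →
      ∑ A : ClassGroup (𝓞 K), |SA K Z A - rho K * (∫ u, g0 u) * Z| ^ 2 ≤
        C * (regulator K / torsionOrder K) * Z ^ (2 - 2 / (m : ℝ)) *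
          |(discr K : ℝ)| ^ ε := by
  obtain ⟨C, hC, h⟩ := class_mean m hm ε hε
  refine ⟨C * 2 ^ 2, by positivity, ?_⟩
  intro K _ _ hK Z hZ
  have h1 := h K hK 2 _ nice_g0 Z hZ
  refine le_trans (le_of_eq ?_) h1
  apply Finset.sum_congr rfl
  intro A _
  rw [tsum_eq K hZ, int_ofReal, ← Complex.ofReal_mul, ← Complex.ofReal_mul, ← Complex.ofReal_sub,
    Complex.norm_real, Real.norm_eq_abs]

theorem one_le_D : 1 ≤ |(discr K : ℝ)| := by
  have h := Int.one_le_abs (discr_ne_zero K)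
  exact_mod_cast h

theorem R_nonneg : 0 ≤ regulator K / torsionOrder K :=
  div_nonneg (regulator_pos K).le (Nat.cast_nonneg _)

theorem card_class : ((Finset.univ : Finset (ClassGroup (𝓞 K))).card : ℝ) = classNumber K := by
  rw [Finset.card_univ]
  rfl

end Sums

end HR

open HR

theorem hR_le (m : ℕ) (hm : 2 ≤ m) (ε : ℝ) (hε : 0 < ε) : ∃ C : ℝ, 0 < C ∧
    ∀ (K : Type) [Field K] [NumberField K], Module.finrank ℚ K = m →
      classNumber K * (regulator K / torsionOrder K) ≤ C * |(discr K : ℝ)| ^ (1 / 2 + ε) := by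
  obtain ⟨C1, hC1, h1⟩ := HR.mean m hm 1 one_pos
  have hm0 : (0 : ℝ) < m := by positivity
  obtain ⟨C2, hC2, h2⟩ := count_le m (ε / m) (by positivity)
  refine ⟨2 * (C2 * 4 ^ (1 + ε / m)) + C1, by positivity, ?_⟩
  intro K _ _ hK
  have hD := one_le_D K
  set D := |(discr K : ℝ)| with hDdef
  set R' := regulator K / torsionOrder K with hR'
  have hR0 : 0 ≤ R' := R_nonneg K
  set x := (classNumber K : ℝ) * R' with hx
  have hx0 : 0 ≤ x := mul_nonneg (Nat.cast_nonneg _) hR0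
  have hDpos : 0 < D := by linarith
  set s := Real.sqrt D with hs
  have hs1 : 1 ≤ s := by rw [hs]; exact Real.one_le_sqrt.2 hD
  have hs2 : s ^ 2 = D := Real.sq_sqrt hDpos.le
  set Z : ℝ := D ^ m with hZ
  have hZ1 : 1 ≤ Z := one_le_pow₀ hD
  have hZ0 : 0 < Z := by linarith
  have hmean := h1 K hK Z hZ0
  rw [← hR', ← hDdef] at hmean
  obtain ⟨hrho, -⟩ := rho_bounds m K hK
  rw [← hDdef, ← hs, ← hR'] at hrho
  obtain ⟨hI1, -⟩ := int_g0
  set I0 := ∫ u, g0 u with hI0
  set E := ∑ A : ClassGroup (𝓞 K), |SA K Z A - rho K * I0 * Z| with hE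
  have hE0 : 0 ≤ E := Finset.sum_nonneg fun A _ => abs_nonneg _
  have hEsq : E ^ 2 ≤ C1 * x * (Z ^ 2 / D) := by
    have a1 := sq_sum_le_card_mul_sum_sq (s := (Finset.univ : Finset (ClassGroup (𝓞 K))))
      (f := fun A => |SA K Z A - rho K * I0 * Z|)
    rw [card_class] at a1
    have a2 : Z ^ (2 - 2 / (m : ℝ)) * D ^ (1 : ℝ) = Z ^ 2 / D := by
      rw [Real.rpow_sub hZ0, Real.rpow_one]
      have : Z ^ (2 / (m : ℝ)) = D ^ 2 := by
        rw [hZ, ← Real.rpow_natCast D m, ← Real.rpow_mul hDpos.le, mul_div_cancel₀ _ hm0.ne']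
        norm_cast
      rw [this]
      norm_cast
      field_simp
    calc E ^ 2 ≤ classNumber K * ∑ A : ClassGroup (𝓞 K), |SA K Z A - rho K * I0 * Z| ^ 2 := a1
      _ ≤ classNumber K * (C1 * R' * Z ^ (2 - 2 / (m : ℝ)) * D ^ (1 : ℝ)) := by gcongr
      _ = C1 * x * (Z ^ (2 - 2 / (m : ℝ)) * D ^ (1 : ℝ)) := by rw [hx]; ring
      _ = _ := by rw [a2]
  have hmain : x / s * Z ≤ C2 * (4 * Z) ^ (1 + ε / m) + E := by
    have b1 : ∑ A : ClassGroup (𝓞 K), SA K Z A ≤ C2 * (4 * Z) ^ (1 + ε / m) := by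
      refine (sum_SA_le K Z).trans ?_
      have := h2 K hK (4 * Z) (by linarith)
      rwa [Set.ncard_eq_toFinset_card _ (finite_le K (4 * Z))] at this
    have b2 : ∑ A : ClassGroup (𝓞 K), rho K * I0 * Z ≤
        ∑ A : ClassGroup (𝓞 K), (SA K Z A + |SA K Z A - rho K * I0 * Z|) := by
      apply Finset.sum_le_sum
      intro A _
      have := neg_abs_le (SA K Z A - rho K * I0 * Z)
      linarith
    rw [Finset.sum_add_distrib, ← hE, Finset.sum_const, nsmul_eq_mul, card_class] at b2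
    have b3 : x / s * Z ≤ classNumber K * (rho K * I0 * Z) := by
      have c1 : R' / s ≤ rho K * I0 := by
        have : 0 ≤ rho K := le_trans (by positivity) hrho
        nlinarith
      calc x / s * Z = classNumber K * (R' / s * Z) := by rw [hx]; ring
        _ ≤ _ := by gcongr
    linarith
  have hfin : x ≤ C2 * 4 ^ (1 + ε / m) * (D ^ ε * s) + E * s / Z := by
    have c1 : (4 * Z) ^ (1 + ε / m) = 4 ^ (1 + ε / m) * (Z * D ^ ε) := by
      rw [Real.mul_rpow (by norm_num) hZ0.le]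
      congr 1
      rw [Real.rpow_add hZ0, Real.rpow_one]
      congr 1
      rw [hZ, ← Real.rpow_natCast D m, ← Real.rpow_mul hDpos.le]
      congr 1
      field_simp
    rw [c1] at hmain
    have c2 : x = x / s * Z * (s / Z) := by field_simp
    rw [c2]
    calc x / s * Z * (s / Z) ≤ (C2 * (4 ^ (1 + ε / m) * (Z * D ^ ε)) + E) * (s / Z) := by gcongr
      _ = _ := by field_simp
  have hamgm : 2 * (E * s / Z) ≤ x + C1 := by
    set e := E * s / Z with he
    have d1 : e ^ 2 ≤ C1 * x := by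
      rw [he, div_pow, mul_pow, hs2, div_le_iff₀ (by positivity)]
      calc E ^ 2 * D ≤ C1 * x * (Z ^ 2 / D) * D := by gcongr
        _ = C1 * x * Z ^ 2 := by field_simp
    have d2 : C1 * (2 * e) ≤ C1 * (x + C1) := by nlinarith [sq_nonneg (e - C1)]
    exact le_of_mul_le_mul_left d2 hC1
  have hDe : D ^ ε * s = D ^ (1 / 2 + ε) := by
    rw [hs, Real.sqrt_eq_rpow, ← Real.rpow_add hDpos]
    congr 1
    ring
  rw [hDe] at hfin
  have hD1 : 1 ≤ D ^ (1 / 2 + ε) := Real.one_le_rpow hD (by positivity)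
  nlinarith

theorem class_count (m : ℕ) (hm : 2 ≤ m) (ε : ℝ) (hε : 0 < ε) : ∃ C : ℝ, 0 < C ∧
    ∀ (K : Type) [Field K] [NumberField K], Module.finrank ℚ K = m →
    ∀ X : ℝ, 1 ≤ X →
      ∑ A : ClassGroup (𝓞 K),
        (Nat.card {I : Cls K A // X < nm K I ∧ nm K I ≤ 2 * X} : ℝ) ^ 2 ≤
        C * (regulator K / torsionOrder K) * |(discr K : ℝ)| ^ ε *
          (X ^ (2 - 2 / (m : ℝ)) + X ^ 2 * |(discr K : ℝ)| ^ (-(1 / 2) : ℝ)) := by
  obtain ⟨C1, hC1, h1⟩ := HR.mean m hm ε hε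
  obtain ⟨C3, hC3, h3⟩ := hR_le m hm ε hε
  set P : ℝ := (2 * Real.pi) ^ m with hP
  have hP0 : 0 < P := by positivity
  refine ⟨18 * P ^ 2 * C3 + 2 * C1, by positivity, ?_⟩
  intro K _ _ hK X hX
  have hD := one_le_D K
  have hc := h3 K hK
  set D := |(discr K : ℝ)| with hDdef
  set R' := regulator K / torsionOrder K with hR'
  have hR0 : 0 ≤ R' := R_nonneg K
  have hDpos : 0 < D := by linarith
  have hX0 : 0 < X := by linarith
  set Z : ℝ := 2 * X / 3 with hZ
  have hZ0 : 0 < Z := by positivity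
  have hZX : Z ≤ X := by rw [hZ]; linarith
  have hmean := h1 K hK Z hZ0
  rw [← hR', ← hDdef] at hmean
  obtain ⟨hrho0, hrho⟩ := rho_bounds m K hK
  rw [← hDdef, ← hR', ← hP] at hrho
  rw [← hDdef, ← hR'] at hrho0
  have hrhon : 0 ≤ rho K := le_trans (by positivity) hrho0
  obtain ⟨hI1, hI3⟩ := int_g0
  set I0 := ∫ u, g0 u with hI0
  have hm2 : (2 : ℝ) / m ≤ 1 := by
    rw [div_le_one (by positivity)]
    exact_mod_cast hm
  have step : ∀ A : ClassGroup (𝓞 K),
      (Nat.card {I : Cls K A // X < nm K I ∧ nm K I ≤ 2 * X} : ℝ) ^ 2 ≤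
        2 * (rho K * I0 * Z) ^ 2 + 2 * |SA K Z A - rho K * I0 * Z| ^ 2 := by
    intro A
    have a1 := card_le_SA K hX0 A
    rw [← hZ] at a1
    have a2 : (Nat.card {I : Cls K A // X < nm K I ∧ nm K I ≤ 2 * X} : ℝ) ^ 2 ≤ SA K Z A ^ 2 :=
      pow_le_pow_left₀ (Nat.cast_nonneg _) a1 2
    refine a2.trans ?_
    rw [sq_abs]
    nlinarith [sq_nonneg (SA K Z A - 2 * (rho K * I0 * Z))]
  have hsum := Finset.sum_le_sum (s := (Finset.univ : Finset (ClassGroup (𝓞 K))))
    fun A _ => step A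
  rw [Finset.sum_add_distrib, Finset.sum_const, nsmul_eq_mul, card_class, ← Finset.mul_sum] at hsum
  refine hsum.trans ?_
  have hrho2 : classNumber K * rho K ^ 2 ≤ P ^ 2 * C3 * R' * D ^ ε * D ^ (-(1 / 2) : ℝ) := by
    have b1 : rho K ^ 2 ≤ P ^ 2 * R' ^ 2 / D := by
      calc rho K ^ 2 ≤ (P * R' / Real.sqrt D) ^ 2 := pow_le_pow_left₀ hrhon hrho 2
        _ = P ^ 2 * R' ^ 2 / D := by rw [div_pow, mul_pow, Real.sq_sqrt hDpos.le]
    calc classNumber K * rho K ^ 2 ≤ classNumber K * (P ^ 2 * R' ^ 2 / D) := by gcongr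
      _ = P ^ 2 * R' * (classNumber K * R') / D := by ring
      _ ≤ P ^ 2 * R' * (C3 * D ^ (1 / 2 + ε)) / D := by gcongr
      _ = P ^ 2 * C3 * R' * (D ^ (1 / 2 + ε) / D) := by ring
      _ = P ^ 2 * C3 * R' * (D ^ ε * D ^ (-(1 / 2) : ℝ)) := by
        congr 1
        rw [← Real.rpow_add hDpos, div_eq_mul_inv, ← Real.rpow_neg_one D, ← Real.rpow_add hDpos]
        congr 1
        ring
      _ = _ := by ring
  have t1 : classNumber K * (2 * (rho K * I0 * Z) ^ 2) ≤
      18 * P ^ 2 * C3 * R' * D ^ ε * (X ^ 2 * D ^ (-(1 / 2) : ℝ)) := by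
    have hI9 : I0 ^ 2 ≤ 9 := by nlinarith
    have hZ2 : Z ^ 2 ≤ X ^ 2 := pow_le_pow_left₀ hZ0.le hZX 2
    calc classNumber K * (2 * (rho K * I0 * Z) ^ 2)
        = 2 * (classNumber K * rho K ^ 2) * I0 ^ 2 * Z ^ 2 := by ring
      _ ≤ 2 * (P ^ 2 * C3 * R' * D ^ ε * D ^ (-(1 / 2) : ℝ)) * 9 * X ^ 2 := by gcongr
      _ = _ := by ring
  have t2 : 2 * ∑ A : ClassGroup (𝓞 K), |SA K Z A - rho K * I0 * Z| ^ 2 ≤
      2 * C1 * R' * D ^ ε * X ^ (2 - 2 / (m : ℝ)) := by
    have hZ2 : Z ^ (2 - 2 / (m : ℝ)) ≤ X ^ (2 - 2 / (m : ℝ)) :=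
      Real.rpow_le_rpow hZ0.le hZX (by linarith)
    calc 2 * ∑ A : ClassGroup (𝓞 K), |SA K Z A - rho K * I0 * Z| ^ 2
        ≤ 2 * (C1 * R' * Z ^ (2 - 2 / (m : ℝ)) * D ^ ε) := by gcongr
      _ ≤ 2 * (C1 * R' * X ^ (2 - 2 / (m : ℝ)) * D ^ ε) := by gcongr
      _ = _ := by ring
  have q1 : 0 ≤ 2 * C1 * R' * D ^ ε * (X ^ 2 * D ^ (-(1 / 2) : ℝ)) := by positivity
  have q2 : 0 ≤ 18 * P ^ 2 * C3 * R' * D ^ ε * X ^ (2 - 2 / (m : ℝ)) := by positivity
  nlinarith

end Pool.ZD
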