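import Pool.Agent.ZD.Defs
import Pool.Agent.ZD.Div

/-!
# Module COUNTS: sums over ideals, uniformly in the fields of degree `m`

PAPER PROOF. All are consequences of `norm_count_bound` (the number of ideals of norm `n` is at most
`C n^ε`), grouping the nonzero ideals by their norm `n ≥ 1`.
`finite_le`: finitely many norms, finitely many ideals of each norm.
`count_le`: `∑_{1 ≤ n ≤ X} C n^ε ≤ C X^(1+ε)`.
`sum_inv_le`: `2 - 2/m ≥ 1`, so the sum is `≤ ∑_{n ≤ X} C n^(ε/2) / n ≤ C X^ε ∑ n^(-1-ε/2)`.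
`summable_nm`: `∑ n^(ε - σ) < ∞` for `ε < σ - 1`.
`tail_small`: `∑_{n ≥ 2} C n^(1 - σ₀) ≤ C 2^(4-σ₀) ∑ n^(-3) ≤ 1/5` for `σ₀ = σ₀(m)` large, and the ideal
of norm one is `1`.
-/

open scoped NumberField nonZeroDivisors

namespace Pool.ZD

namespace Counts

/-- the norm of a nonzero ideal as a natural number -/
noncomputable def nn (K : Type) [Field K] [NumberField K] (I : (Ideal (𝓞 K))⁰) : ℕ :=
  Ideal.absNorm (I : Ideal (𝓞 K))

theorem nm_eq (K : Type) [Field K] [NumberField K] (I : (Ideal (𝓞 K))⁰) :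
    nm K I = (nn K I : ℝ) := rfl

theorem one_le_nn (K : Type) [Field K] [NumberField K] (I : (Ideal (𝓞 K))⁰) : 1 ≤ nn K I := by
  have h : (I : Ideal (𝓞 K)) ≠ 0 := nonZeroDivisors.ne_zero I.2
  have h2 : Ideal.absNorm (I : Ideal (𝓞 K)) ≠ 0 := by
    rw [Ne, Ideal.absNorm_eq_zero_iff]
    exact h
  exact Nat.one_le_iff_ne_zero.mpr h2

theorem sum_le {K : Type} [Field K] [NumberField K] {ε C : ℝ}
    (hC : ∀ n : ℕ, 1 ≤ n →
      {J : Ideal (𝓞 K) | Ideal.absNorm J = n}.Finite ∧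
      (({J : Ideal (𝓞 K) | Ideal.absNorm J = n}.ncard : ℕ) : ℝ) ≤ C * (n : ℝ) ^ ε)
    (s : Finset ((Ideal (𝓞 K))⁰)) (f : ℕ → ℝ) (hf : ∀ n, 1 ≤ n → 0 ≤ f n) :
    ∑ I ∈ s, f (nn K I) ≤ ∑ n ∈ s.image (nn K), C * (n : ℝ) ^ ε * f n := by
  classical
  rw [Finset.sum_comp f (nn K)]
  refine Finset.sum_le_sum fun n hn => ?_
  obtain ⟨I, hI, rfl⟩ := Finset.mem_image.mp hn
  have h1 := one_le_nn K I
  rw [nsmul_eq_mul]
  refine mul_le_mul_of_nonneg_right ?_ (hf _ h1)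
  obtain ⟨hfin, hle⟩ := hC _ h1
  refine le_trans ?_ hle
  rw [Nat.cast_le, Set.ncard_eq_toFinset_card _ hfin]
  refine Finset.card_le_card_of_injOn (fun J => (J : Ideal (𝓞 K))) ?_ ?_
  · intro J hJ
    have hJ2 : J ∈ s ∧ nn K J = nn K I := by simpa using hJ
    simp only [Set.Finite.coe_toFinset]
    exact hJ2.2
  · intro J _ J' _ h
    exact Subtype.ext h

end Counts

open Counts

theorem finite_le (K : Type) [Field K] [NumberField K] (X : ℝ) :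
    {I : (Ideal (𝓞 K))⁰ | nm K I ≤ X}.Finite := by
  obtain ⟨C, hC, h⟩ := norm_count_bound (Module.finrank ℚ K) 1 one_pos
  have hK := h K rfl
  have h1 : {I : (Ideal (𝓞 K))⁰ | nm K I ≤ X} ⊆
      ⋃ n ∈ Finset.Icc 1 ⌊X⌋₊, (fun J : (Ideal (𝓞 K))⁰ => (J : Ideal (𝓞 K))) ⁻¹'
        {J : Ideal (𝓞 K) | Ideal.absNorm J = n} := by
    intro I hI
    simp only [Set.mem_iUnion]
    refine ⟨nn K I, ?_, rfl⟩
    rw [Finset.mem_Icc]
    refine ⟨one_le_nn K I, Nat.le_floor ?_⟩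
    exact hI
  refine Set.Finite.subset ?_ h1
  refine Set.Finite.biUnion (Finset.finite_toSet _) fun n hn => ?_
  refine Set.Finite.preimage ?_ (hK n (Finset.mem_Icc.mp hn).1).1
  intro J _ J' _ h
  exact Subtype.ext h

theorem one_le_nm (K : Type) [Field K] [NumberField K] (I : (Ideal (𝓞 K))⁰) : 1 ≤ nm K I := by
  rw [nm_eq]
  exact_mod_cast one_le_nn K I

theorem nm_mul (K : Type) [Field K] [NumberField K] (I J : (Ideal (𝓞 K))⁰) :
    nm K (I * J) = nm K I * nm K J := by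
  unfold nm
  rw [Submonoid.coe_mul, map_mul, Nat.cast_mul]

theorem count_le (m : ℕ) (ε : ℝ) (hε : 0 < ε) : ∃ C : ℝ, 0 < C ∧
    ∀ (K : Type) [Field K] [NumberField K], Module.finrank ℚ K = m →
    ∀ X : ℝ, 1 ≤ X → (({I : (Ideal (𝓞 K))⁰ | nm K I ≤ X}.ncard : ℕ) : ℝ) ≤ C * X ^ (1 + ε) := by
  classical
  obtain ⟨C, hC, h⟩ := norm_count_bound m ε hε
  refine ⟨C, by linarith, fun K _ _ hK X hX => ?_⟩
  have hfin := finite_le K X
  rw [Set.ncard_eq_toFinset_card _ hfin]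
  have h1 := sum_le (h K hK) hfin.toFinset (fun _ => 1) (fun _ _ => zero_le_one)
  rw [Finset.sum_const, nsmul_eq_mul, mul_one] at h1
  refine le_trans h1 ?_
  have h2 : hfin.toFinset.image (nn K) ⊆ Finset.Icc 1 ⌊X⌋₊ := by
    intro n hn
    obtain ⟨I, hI, rfl⟩ := Finset.mem_image.mp hn
    rw [Set.Finite.mem_toFinset] at hI
    rw [Finset.mem_Icc]
    exact ⟨one_le_nn K I, Nat.le_floor hI⟩
  calc ∑ n ∈ hfin.toFinset.image (nn K), C * (n : ℝ) ^ ε * 1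
      ≤ ∑ n ∈ Finset.Icc 1 ⌊X⌋₊, C * (n : ℝ) ^ ε * 1 :=
        Finset.sum_le_sum_of_subset_of_nonneg h2 fun n _ _ => by positivity
    _ ≤ ∑ n ∈ Finset.Icc 1 ⌊X⌋₊, C * X ^ ε := by
        refine Finset.sum_le_sum fun n hn => ?_
        rw [mul_one]
        have h3 : (n : ℝ) ≤ X :=
          (Nat.le_floor_iff (by linarith)).mp (Finset.mem_Icc.mp hn).2
        gcongr
    _ = (⌊X⌋₊ : ℝ) * (C * X ^ ε) := by
        rw [Finset.sum_const, Nat.card_Icc, nsmul_eq_mul, Nat.add_sub_cancel]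
    _ ≤ X * (C * X ^ ε) := by
        have := Nat.floor_le (by linarith : (0 : ℝ) ≤ X)
        gcongr
    _ = C * X ^ (1 + ε) := by
        rw [Real.rpow_add (by linarith), Real.rpow_one]
        ring

theorem sum_inv_le (m : ℕ) (hm : 2 ≤ m) (ε : ℝ) (hε : 0 < ε) : ∃ C : ℝ, 0 < C ∧
    ∀ (K : Type) [Field K] [NumberField K], Module.finrank ℚ K = m →
    ∀ X : ℝ, 1 ≤ X →
      ∑' I : {I : (Ideal (𝓞 K))⁰ // nm K I ≤ X}, nm K I ^ (-(2 - 2 / (m : ℝ))) ≤ C * X ^ ε := by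
  classical
  obtain ⟨C, hC, h⟩ := norm_count_bound m (ε / 2) (by linarith)
  have hsum : Summable (fun n : ℕ => (n : ℝ) ^ (-(1 + ε / 2))) :=
    Real.summable_nat_rpow.mpr (by linarith)
  have hZ : 0 ≤ ∑' n : ℕ, (n : ℝ) ^ (-(1 + ε / 2)) := tsum_nonneg fun n => by positivity
  refine ⟨C * (∑' n : ℕ, (n : ℝ) ^ (-(1 + ε / 2))) + 1, by positivity, fun K _ _ hK X hX => ?_⟩
  have hfin := finite_le K X
  have hfinite : Finite {I : (Ideal (𝓞 K))⁰ // nm K I ≤ X} := hfin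
  have hexp : (-(2 - 2 / (m : ℝ))) ≤ -1 := by
    have hm' : (2 : ℝ) ≤ m := by exact_mod_cast hm
    have : 2 / (m : ℝ) ≤ 1 := by
      rw [div_le_one (by linarith)]
      exact hm'
    linarith
  have hXe : 0 ≤ X ^ ε := by positivity
  refine Summable.tsum_le_of_sum_le (Summable.of_finite) fun s => ?_
  have h1 := sum_le (h K hK) (s.map (Function.Embedding.subtype _)) (fun n => (n : ℝ) ^ (-1 : ℝ))
    (fun n _ => by positivity)
  rw [Finset.sum_map] at h1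
  have h2 : ∑ I ∈ s, nm K I.1 ^ (-(2 - 2 / (m : ℝ))) ≤ ∑ I ∈ s, (nn K I.1 : ℝ) ^ (-1 : ℝ) := by
    refine Finset.sum_le_sum fun I _ => ?_
    rw [nm_eq]
    exact Real.rpow_le_rpow_of_exponent_le (by exact_mod_cast one_le_nn K I.1) hexp
  refine le_trans h2 (le_trans h1 ?_)
  have h3 : ∀ n ∈ (s.map (Function.Embedding.subtype _)).image (nn K),
      C * (n : ℝ) ^ (ε / 2) * (n : ℝ) ^ (-1 : ℝ) ≤ C * X ^ ε * (n : ℝ) ^ (-(1 + ε / 2)) := by
    intro n hn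
    obtain ⟨I, hI, rfl⟩ := Finset.mem_image.mp hn
    obtain ⟨I', _, rfl⟩ := Finset.mem_map.mp hI
    have hpos : (0 : ℝ) < (nn K I'.1 : ℝ) := by exact_mod_cast one_le_nn K I'.1
    have hle : (nn K I'.1 : ℝ) ≤ X := I'.2
    change C * (nn K I'.1 : ℝ) ^ (ε / 2) * (nn K I'.1 : ℝ) ^ (-1 : ℝ) ≤
      C * X ^ ε * (nn K I'.1 : ℝ) ^ (-(1 + ε / 2))
    rw [mul_assoc, ← Real.rpow_add hpos,
      show ε / 2 + -1 = ε + -(1 + ε / 2) by ring, Real.rpow_add hpos, mul_assoc]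
    gcongr
  calc ∑ n ∈ (s.map (Function.Embedding.subtype _)).image (nn K),
        C * (n : ℝ) ^ (ε / 2) * (n : ℝ) ^ (-1 : ℝ)
      ≤ ∑ n ∈ (s.map (Function.Embedding.subtype _)).image (nn K),
        C * X ^ ε * (n : ℝ) ^ (-(1 + ε / 2)) := Finset.sum_le_sum h3
    _ = C * X ^ ε * ∑ n ∈ (s.map (Function.Embedding.subtype _)).image (nn K),
        (n : ℝ) ^ (-(1 + ε / 2)) := by rw [Finset.mul_sum]
    _ ≤ C * X ^ ε * ∑' n : ℕ, (n : ℝ) ^ (-(1 + ε / 2)) := by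
        gcongr
        exact hsum.sum_le_tsum _ fun n _ => by positivity
    _ ≤ (C * (∑' n : ℕ, (n : ℝ) ^ (-(1 + ε / 2))) + 1) * X ^ ε := by
        nlinarith

theorem summable_nm (K : Type) [Field K] [NumberField K] (σ : ℝ) (hσ : 1 < σ) :
    Summable (fun I : (Ideal (𝓞 K))⁰ => nm K I ^ (-σ)) := by
  classical
  obtain ⟨C, hC, h⟩ := norm_count_bound (Module.finrank ℚ K) ((σ - 1) / 2) (by linarith)
  have hsum : Summable (fun n : ℕ => (n : ℝ) ^ (-((1 + σ) / 2))) :=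
    Real.summable_nat_rpow.mpr (by linarith)
  refine summable_of_sum_le (c := C * ∑' n : ℕ, (n : ℝ) ^ (-((1 + σ) / 2)))
    (fun I => by unfold nm; positivity) fun s => ?_
  have h1 := sum_le (h K rfl) s (fun n => (n : ℝ) ^ (-σ)) (fun n _ => by positivity)
  refine le_trans h1 ?_
  have h3 : ∀ n ∈ s.image (nn K),
      C * (n : ℝ) ^ ((σ - 1) / 2) * (n : ℝ) ^ (-σ) = C * (n : ℝ) ^ (-((1 + σ) / 2)) := by
    intro n hn
    obtain ⟨I, hI, rfl⟩ := Finset.mem_image.mp hn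
    have hpos : (0 : ℝ) < (nn K I : ℝ) := by exact_mod_cast one_le_nn K I
    rw [mul_assoc, ← Real.rpow_add hpos]
    congr 2
    ring
  rw [Finset.sum_congr rfl h3, ← Finset.mul_sum]
  gcongr
  exact hsum.sum_le_tsum _ fun n _ => by positivity

theorem tail_small (m : ℕ) : ∃ σ₀ : ℝ, 2 ≤ σ₀ ∧
    ∀ (K : Type) [Field K] [NumberField K], Module.finrank ℚ K = m →
      ∑' I : {I : (Ideal (𝓞 K))⁰ // I ≠ 1}, nm K I ^ (-σ₀) ≤ 1 / 5 := by
  classical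
  obtain ⟨C, hC, h⟩ := norm_count_bound m 1 one_pos
  have hsum : Summable (fun n : ℕ => (n : ℝ) ^ (-(3 : ℝ))) :=
    Real.summable_nat_rpow.mpr (by norm_num)
  have hZ : 0 ≤ ∑' n : ℕ, (n : ℝ) ^ (-(3 : ℝ)) := tsum_nonneg fun n => by positivity
  obtain ⟨k, hk⟩ := pow_unbounded_of_one_lt (5 * (C * ∑' n : ℕ, (n : ℝ) ^ (-(3 : ℝ))))
    (one_lt_two : (1 : ℝ) < 2)
  refine ⟨4 + k, by linarith [(Nat.cast_nonneg k : (0 : ℝ) ≤ k)], fun K _ _ hK => ?_⟩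
  have hsmm : Summable (fun I : {I : (Ideal (𝓞 K))⁰ // I ≠ 1} => nm K I.1 ^ (-(4 + (k : ℝ)))) :=
    (summable_nm K (4 + k) (by linarith [(Nat.cast_nonneg k : (0 : ℝ) ≤ k)])).comp_injective
      Subtype.val_injective
  refine hsmm.tsum_le_of_sum_le fun s => ?_
  have h1 := sum_le (h K hK) (s.map (Function.Embedding.subtype _))
    (fun n => (n : ℝ) ^ (-(4 + (k : ℝ)))) (fun n _ => by positivity)
  rw [Finset.sum_map] at h1
  refine le_trans h1 ?_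
  have hnn : ∀ I : (Ideal (𝓞 K))⁰, I ≠ 1 → 2 ≤ nn K I := by
    intro I hI
    have h4 := one_le_nn K I
    have h5 : nn K I ≠ 1 := by
      intro h6
      apply hI
      apply Subtype.ext
      have : (I : Ideal (𝓞 K)) = ⊤ := Ideal.absNorm_eq_one_iff.mp h6
      rw [this, Submonoid.coe_one, Ideal.one_eq_top]
    omega
  have h3 : ∀ n ∈ (s.map (Function.Embedding.subtype _)).image (nn K),
      C * (n : ℝ) ^ (1 : ℝ) * (n : ℝ) ^ (-(4 + (k : ℝ))) ≤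
        C * ((2 : ℝ) ^ k)⁻¹ * (n : ℝ) ^ (-(3 : ℝ)) := by
    intro n hn
    obtain ⟨I, hI, rfl⟩ := Finset.mem_image.mp hn
    obtain ⟨I', _, rfl⟩ := Finset.mem_map.mp hI
    have h2 : (2 : ℝ) ≤ (nn K I'.1 : ℝ) := by exact_mod_cast hnn I'.1 I'.2
    have hpos : (0 : ℝ) < (nn K I'.1 : ℝ) := by linarith
    change C * (nn K I'.1 : ℝ) ^ (1 : ℝ) * (nn K I'.1 : ℝ) ^ (-(4 + (k : ℝ))) ≤
      C * ((2 : ℝ) ^ k)⁻¹ * (nn K I'.1 : ℝ) ^ (-(3 : ℝ))
    rw [mul_assoc, ← Real.rpow_add hpos,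
      show (1 : ℝ) + -(4 + (k : ℝ)) = -(k : ℝ) + -3 by ring, Real.rpow_add hpos, mul_assoc,
      Real.rpow_neg hpos.le, Real.rpow_natCast]
    gcongr
  calc ∑ n ∈ (s.map (Function.Embedding.subtype _)).image (nn K),
        C * (n : ℝ) ^ (1 : ℝ) * (n : ℝ) ^ (-(4 + (k : ℝ)))
      ≤ ∑ n ∈ (s.map (Function.Embedding.subtype _)).image (nn K),
        C * ((2 : ℝ) ^ k)⁻¹ * (n : ℝ) ^ (-(3 : ℝ)) := Finset.sum_le_sum h3
    _ = C * ((2 : ℝ) ^ k)⁻¹ * ∑ n ∈ (s.map (Function.Embedding.subtype _)).image (nn K),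
        (n : ℝ) ^ (-(3 : ℝ)) := by rw [Finset.mul_sum]
    _ ≤ C * ((2 : ℝ) ^ k)⁻¹ * ∑' n : ℕ, (n : ℝ) ^ (-(3 : ℝ)) := by
        gcongr
        exact hsum.sum_le_tsum _ fun n _ => by positivity
    _ = (C * ∑' n : ℕ, (n : ℝ) ^ (-(3 : ℝ))) / 2 ^ k := by ring
    _ ≤ 1 / 5 := by
        rw [div_le_div_iff₀ (by positivity) (by norm_num)]
        linarith

end Pool.ZD
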