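import Pool.Agent.ZD.Scale

/-!
# Module UNFOLD: unfolding over the unit lattice

PAPER PROOF. Let `Λ = unitLattice K`, `F = FD K` (fundamental domain of `Λ`). For `ℓ ∈ Λ` choose a
unit `u ℓ` with `logEmbedding K (u ℓ) = ℓ`. The map
`(idealSet K J) × Λ → NZ K J`, `(x, ℓ) ↦` the element `a` of `J` with
`mixedEmbedding K a = u ℓ • x`, is a bijection: for `a ∈ J`, `a ≠ 0` there is exactly one `ℓ ∈ Λ`
with `logMap (a) - ℓ ∈ F` (`ZSpan.exist_unique_vadd_mem_fundamentalDomain`, see
`fundamentalCone.exists_unit_smul_mem`), and `logMap (u ℓ • x) = ℓ + logMap x`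
(`logMap_unit_smul`), so `x = (u ℓ)⁻¹ • a` lies in the fundamental cone and in the ideal lattice.
By `sc_logEmbedding`, `normAtPlace w (sg t * (u ℓ • x)) = normAtPlace w (sg (t + ℓ) * x)` for every
place, hence `Gf (sg t * (u ℓ • x)) = Gf (sg (t + ℓ) * x)`. So the left hand side is
`∑ x, ∑ ℓ, ∫⁻ t in F, Gf (sg (t + ℓ) * x) = ∑ x, ∫⁻ t, Gf (sg t * x)`
(`ENNReal.tsum_prod`, `Equiv.tsum_eq`; `ZSpan.isAddFundamentalDomain` and
`IsAddFundamentalDomain.lintegral_eq_tsum''` or similar).
-/

open scoped NumberField nonZeroDivisors ENNReal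
open NumberField NumberField.InfinitePlace NumberField.mixedEmbedding NumberField.Units
  NumberField.Units.dirichletUnitTheorem MeasureTheory

namespace Pool.ZD

variable (K : Type) [Field K] [NumberField K]

namespace UnfoldAux

/-- A unit with given logarithmic embedding. -/
theorem exists_unit (ℓ : unitLattice K) :
    ∃ u : (𝓞 K)ˣ, logEmbedding K (Additive.ofMul u) = (ℓ : logSpace K) := by
  obtain ⟨u, _, hu⟩ := ℓ.2
  exact ⟨u.toMul, hu⟩

noncomputable def uu (ℓ : unitLattice K) : (𝓞 K)ˣ := (exists_unit K ℓ).choose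

theorem log_uu (ℓ : unitLattice K) :
    logEmbedding K (Additive.ofMul (uu K ℓ)) = (ℓ : logSpace K) := (exists_unit K ℓ).choose_spec

variable (J : (Ideal (𝓞 K))⁰)

theorem exists_pre (x : fundamentalCone.idealSet K J) :
    ∃ a : 𝓞 K, a ∈ (J : Ideal (𝓞 K)) ∧ mixedEmbedding K (a : K) = (x : mixedSpace K) := by
  obtain ⟨_, a, ha, hax⟩ := fundamentalCone.mem_idealSet.mp x.2
  exact ⟨a, ha, hax⟩

noncomputable def pre (x : fundamentalCone.idealSet K J) : 𝓞 K := (exists_pre K J x).choose

theorem pre_mem (x : fundamentalCone.idealSet K J) : pre K J x ∈ (J : Ideal (𝓞 K)) :=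
  (exists_pre K J x).choose_spec.1

theorem emb_pre (x : fundamentalCone.idealSet K J) :
    mixedEmbedding K ((pre K J x : 𝓞 K) : K) = (x : mixedSpace K) :=
  (exists_pre K J x).choose_spec.2

theorem norm_ne (x : fundamentalCone.idealSet K J) :
    mixedEmbedding.norm (x : mixedSpace K) ≠ 0 :=
  (fundamentalCone.norm_pos_of_mem (fundamentalCone.mem_idealSet.mp x.2).1).ne'

theorem pre_ne (x : fundamentalCone.idealSet K J) : pre K J x ≠ 0 := by
  intro h
  have h1 := emb_pre K J x
  rw [h] at h1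
  apply norm_ne K J x
  rw [← h1]
  simp

/-- The unfolding map. -/
noncomputable def um (q : fundamentalCone.idealSet K J × unitLattice K) : NZ K J :=
  ⟨(uu K q.2 : 𝓞 K) * pre K J q.1, (J : Ideal (𝓞 K)).mul_mem_left _ (pre_mem K J q.1),
    mul_ne_zero (Units.ne_zero _) (pre_ne K J q.1)⟩

theorem emb_um (q : fundamentalCone.idealSet K J × unitLattice K) :
    mixedEmbedding K (((um K J q : 𝓞 K)) : K) = uu K q.2 • (q.1 : mixedSpace K) := by
  rw [unitSMul_smul, ← emb_pre K J q.1, ← map_mul]
  rfl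

open scoped Classical in
theorem logMap_mem (x : fundamentalCone.idealSet K J) :
    logMap (x : mixedSpace K) ∈ FD K := (fundamentalCone.mem_idealSet.mp x.2).1.1

open scoped Classical in
theorem uniq {a b : logSpace K} (ha : a ∈ FD K) (hb : b ∈ FD K) {ℓ ℓ' : unitLattice K}
    (h : (ℓ : logSpace K) + a = ℓ' + b) : ℓ = ℓ' := by
  let B := (basisUnitLattice K).ofZLatticeBasis ℝ
  have hspan : Submodule.span ℤ (Set.range B) = unitLattice K :=
    Module.Basis.ofZLatticeBasis_span ℝ (unitLattice K) (basisUnitLattice K)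
  have hmem : ∀ v : unitLattice K, -(v : logSpace K) ∈ Submodule.span ℤ (Set.range B) := by
    intro v
    rw [hspan]
    exact (unitLattice K).neg_mem v.2
  have h1 := (ZSpan.exist_unique_vadd_mem_fundamentalDomain B ((ℓ : logSpace K) + a)).unique
    (y₁ := ⟨-(ℓ : logSpace K), hmem ℓ⟩) (y₂ := ⟨-(ℓ' : logSpace K), hmem ℓ'⟩)
    (by
      change -(ℓ : logSpace K) + ((ℓ : logSpace K) + a) ∈ _
      rw [neg_add_cancel_left]; exact ha)
    (by
      change -(ℓ' : logSpace K) + ((ℓ : logSpace K) + a) ∈ _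
      rw [h, neg_add_cancel_left]; exact hb)
  have h2 := congrArg Subtype.val h1
  simp only [neg_inj] at h2
  exact Subtype.ext h2

theorem um_bij : Function.Bijective (um K J) := by
  classical
  constructor
  · rintro ⟨x, ℓ⟩ ⟨x', ℓ'⟩ h
    have h1 : uu K ℓ • (x : mixedSpace K) = uu K ℓ' • (x' : mixedSpace K) := by
      have e1 := emb_um K J (x, ℓ)
      have e2 := emb_um K J (x', ℓ')
      rw [h] at e1
      exact e1.symm.trans e2
    have h2 := congrArg logMap h1
    rw [logMap_unit_smul _ (norm_ne K J x), logMap_unit_smul _ (norm_ne K J x'), log_uu,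
      log_uu] at h2
    have h3 := uniq K (logMap_mem K J x) (logMap_mem K J x') h2
    subst h3
    have h4 : (x : mixedSpace K) = x' := by
      have := congrArg (fun y => (uu K ℓ)⁻¹ • y) h1
      simp only [inv_smul_smul] at this
      exact this
    rw [Subtype.ext h4]
  · rintro ⟨a, haJ, ha0⟩
    set y : mixedSpace K := mixedEmbedding K (a : K) with hy
    have hyn : mixedEmbedding.norm y ≠ 0 := by
      have h0 : (a : K) ≠ 0 := by
        intro h
        exact ha0 (RingOfIntegers.coe_eq_zero_iff.mp h)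
      rw [hy, norm_eq_norm]
      simp [h0]
    obtain ⟨u, hu⟩ := fundamentalCone.exists_unit_smul_mem hyn
    have hℓmem : -(logEmbedding K (Additive.ofMul u)) ∈ unitLattice K := by
      apply (unitLattice K).neg_mem
      exact ⟨Additive.ofMul u, trivial, rfl⟩
    let ℓ : unitLattice K := ⟨-(logEmbedding K (Additive.ofMul u)), hℓmem⟩
    have hlogx : logMap ((uu K ℓ)⁻¹ • y) = logMap (u • y) := by
      rw [logMap_unit_smul _ hyn, logMap_unit_smul _ hyn]
      congr 1
      rw [ofMul_inv, map_neg, log_uu]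
      simp [ℓ]
    have hnx : mixedEmbedding.norm ((uu K ℓ)⁻¹ • y) ≠ 0 := by
      rw [norm_unit_smul]; exact hyn
    have hxc : (uu K ℓ)⁻¹ • y ∈ fundamentalCone K := by
      refine ⟨?_, hnx⟩
      rw [Set.mem_preimage, hlogx]
      exact hu.1
    have hxi : (uu K ℓ)⁻¹ • y ∈ fundamentalCone.idealSet K J := by
      rw [fundamentalCone.mem_idealSet]
      refine ⟨hxc, ((uu K ℓ)⁻¹ : (𝓞 K)ˣ) * a, (J : Ideal (𝓞 K)).mul_mem_left _ haJ, ?_⟩
      rw [unitSMul_smul, hy, ← map_mul]
      rfl
    refine ⟨(⟨_, hxi⟩, ℓ), ?_⟩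
    apply Subtype.ext
    apply RingOfIntegers.coe_injective
    apply mixedEmbedding_injective K
    have h1 := emb_um K J (⟨_, hxi⟩, ℓ)
    refine h1.trans ?_
    change uu K ℓ • ((uu K ℓ)⁻¹ • y) = y
    rw [smul_inv_smul]

end UnfoldAux

open UnfoldAux

open scoped Classical in
/-- Unfolding: sums over the nonzero elements of an ideal of integrals over the fundamental domain of
the unit lattice become sums over `idealSet` of integrals over the whole logarithmic space. -/
theorem unfold (J : (Ideal (𝓞 K))⁰) (Gf : mixedSpace K → ℝ≥0∞) (hG : Measurable Gf)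
    (hGn : ∀ x y : mixedSpace K, (∀ w, normAtPlace w x = normAtPlace w y) → Gf x = Gf y) :
    ∑' x : NZ K J, ∫⁻ t in FD K, Gf (sg K t * mixedEmbedding K ((x : 𝓞 K) : K)) =
      ∑' x : fundamentalCone.idealSet K J, ∫⁻ t : logSpace K, Gf (sg K t * (x : mixedSpace K)) := by
  have hfd : IsAddFundamentalDomain (unitLattice K) (FD K) (volume : Measure (logSpace K)) :=
    ZLattice.isAddFundamentalDomain (basisUnitLattice K) volume
  have hinv : VAddInvariantMeasure (unitLattice K) (logSpace K) volume :=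
    ⟨fun c s _ => measure_preimage_add volume (c : logSpace K) s⟩
  have h1 : ∀ x : fundamentalCone.idealSet K J,
      ∫⁻ t : logSpace K, Gf (sg K t * (x : mixedSpace K)) =
        ∑' ℓ : unitLattice K, ∫⁻ t in FD K,
          Gf (sg K t * mixedEmbedding K ((um K J (x, ℓ) : 𝓞 K) : K)) := by
    intro x
    rw [hfd.lintegral_eq_tsum'' (fun t => Gf (sg K t * (x : mixedSpace K)))]
    apply tsum_congr
    intro ℓ
    apply lintegral_congr
    intro t
    apply hGn
    intro w
    have h2 : ℓ +ᵥ t = (ℓ : logSpace K) + t := rfl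
    rw [h2, emb_um, normAtPlace_sg_mul, normAtPlace_sg_mul, sc_add, unitSMul_smul, map_mul,
      normAtPlace_apply, ← log_uu K ℓ, sc_logEmbedding]
    ring
  rw [tsum_congr h1, ← (Equiv.ofBijective (um K J) (um_bij K J)).tsum_eq, ENNReal.tsum_prod']
  rfl

end Pool.ZD
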