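import Pool.Agent.ZD.Defs

/-!
# Module CLASSSUM: from the ideal set to the ideals of a class

PAPER PROOF. `fundamentalCone.integerSetEquiv K` is an equivalence between `integerSet K` and
(nonzero principal ideals) × `torsion K`, `idealSetEquiv K J` identifies `idealSet K J` with the
elements of `integerSet K` whose preimage lies in `J`. So the left hand side is
`torsionOrder K * ∑_{I' principal, J ∣ I'} H (N I')`. Finally `I ↦ I * J` is a
bijection from the nonzero ideals of class `A = (class of J)⁻¹` to the nonzero principal ideals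
divisible by `J` (`Equiv.dvd J`, `ClassGroup.mk0_eq_one_iff`), and `N (I * J) = N I * N J`.
-/

open scoped NumberField nonZeroDivisors ENNReal
open NumberField NumberField.InfinitePlace NumberField.mixedEmbedding NumberField.Units
  NumberField.Units.dirichletUnitTheorem

namespace Pool.ZD

variable (K : Type) [Field K] [NumberField K]

namespace ClassSum

open NumberField.mixedEmbedding.fundamentalCone

/-- principal ideals divisible by `J` -/
abbrev PD (J : (Ideal (𝓞 K))⁰) : Type :=
  {I : {I : (Ideal (𝓞 K))⁰ // Submodule.IsPrincipal I.val} //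
    (J : Ideal (𝓞 K)) ∣ (I.1 : Ideal (𝓞 K))}

/-- the equivalence between the ideal set and principal ideals times torsion -/
noncomputable def eq1 (J : (Ideal (𝓞 K))⁰) : idealSet K J ≃ PD K J × torsion K :=
  ((idealSetEquiv K J).trans
    ((integerSetEquiv K).subtypeEquiv (q := fun p => (J : Ideal (𝓞 K)) ∣ (p.1.1 : Ideal (𝓞 K)))
      (fun a => by
        rw [integerSetEquiv_apply_fst, Ideal.dvd_span_singleton]
        rfl))).trans
    (Equiv.prodSubtypeFstEquivSubtypeProd
      (p := fun I : {I : (Ideal (𝓞 K))⁰ // Submodule.IsPrincipal I.val} =>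
        (J : Ideal (𝓞 K)) ∣ (I.1 : Ideal (𝓞 K))))

theorem eq1_norm (J : (Ideal (𝓞 K))⁰) (x : idealSet K J) :
    nm K (eq1 K J x).1.1.1 = mixedEmbedding.norm (x : mixedSpace K) := by
  have h1 : ((eq1 K J x).1.1.1 : Ideal (𝓞 K)) =
      Ideal.span {(preimageOfMemIntegerSet (idealSetEquiv K J x).1 : 𝓞 K)} := rfl
  rw [← intNorm_idealSetEquiv_apply]
  unfold nm
  rw [h1, Ideal.absNorm_span_singleton]
  rfl

/-- multiplication by `J` -/
noncomputable def eq2 (J : (Ideal (𝓞 K))⁰) (A : ClassGroup (𝓞 K))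
    (hJ : ClassGroup.mk0 J = A⁻¹) : Cls K A ≃ PD K J :=
  ((Equiv.dvd J).subtypeEquiv (q := fun I => Submodule.IsPrincipal (I.1 : Ideal (𝓞 K)))
    (fun I => by
      rw [← ClassGroup.mk0_eq_one_iff (SetLike.coe_mem _)]
      simp only [Equiv.dvd_apply, Subtype.coe_eta, map_mul, hJ]
      rw [inv_mul_eq_one, eq_comm])).trans
  { toFun := fun I => ⟨⟨I.1.1, I.2⟩, nonZeroDivisors_dvd_iff_dvd_coe.mp I.1.2⟩
    invFun := fun I => ⟨⟨I.1.1, nonZeroDivisors_dvd_iff_dvd_coe.mpr I.2⟩, I.1.2⟩
    left_inv := fun I => rfl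
    right_inv := fun I => rfl }

theorem eq2_norm (J : (Ideal (𝓞 K))⁰) (A : ClassGroup (𝓞 K))
    (hJ : ClassGroup.mk0 J = A⁻¹) (I : Cls K A) :
    nm K (eq2 K J A hJ I).1.1 = nm K I * nm K J := by
  have h1 : ((eq2 K J A hJ I).1.1 : (Ideal (𝓞 K))⁰) = J * I.1 := rfl
  rw [h1]
  unfold nm
  rw [Submonoid.coe_mul, map_mul, Nat.cast_mul, mul_comm]

end ClassSum

open ClassSum

theorem class_sum (J : (Ideal (𝓞 K))⁰) (A : ClassGroup (𝓞 K))
    (hJ : ClassGroup.mk0 J = A⁻¹) (H : ℝ → ℝ≥0∞) :
    ∑' x : fundamentalCone.idealSet K J, H (mixedEmbedding.norm (x : mixedSpace K)) =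
      torsionOrder K * ∑' I : Cls K A, H (nm K I * nm K J) := by
  have h1 : ∑' x : fundamentalCone.idealSet K J, H (mixedEmbedding.norm (x : mixedSpace K)) =
      ∑' p : PD K J × torsion K, H (nm K p.1.1.1) := by
    rw [← (eq1 K J).tsum_eq (fun p => H (nm K p.1.1.1))]
    refine tsum_congr fun x => ?_
    rw [eq1_norm]
  have h2 : ∑' I : Cls K A, H (nm K I * nm K J) = ∑' I : PD K J, H (nm K I.1.1) := by
    rw [← (eq2 K J A hJ).tsum_eq (fun I => H (nm K I.1.1))]
    refine tsum_congr fun I => ?_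
    rw [eq2_norm]
  rw [h1, h2, ENNReal.tsum_prod', ← ENNReal.tsum_mul_left]
  refine tsum_congr fun I => ?_
  have : Fintype (torsion K) := Fintype.ofFinite _
  change ∑' _ : torsion K, H (nm K I.1.1) = _
  rw [tsum_fintype, Finset.sum_const, Finset.card_univ, nsmul_eq_mul, torsionOrder,
    Nat.card_eq_fintype_card]

end Pool.ZD
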