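import Mathlib

/-!
# Module LC: sums of a Lipschitz function over the points of a lattice

STATEMENT. `E` a real inner product space of dimension `d ≥ 1`, `φ : M → E` additive with
`lam ≤ ‖φ x‖` for `x ≠ 0`, `Φ : E → ℝ` `L`-Lipschitz, `Φ u = 0` for `‖u‖ ≥ B`, `Φ 0 = 0`. There is `c`
such that for all `y > 0`: `|∑_{x ∈ M} Φ (φ x / y) - c y^d| ≤ C(d,B) L (y/lam)^(d-1)`.

PAPER PROOF. STEP 0 (packing). For additive `φ : M → E` with minimal norm `≥ lam > 0`, the set
`{x : ‖φ x‖ ≤ r}` is finite with at most `(1 + 2 r/lam)^d` elements: the balls of radius `lam/2` around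
the `φ x` are disjoint and lie in the ball of radius `r + lam/2` (compare volumes, `addHaar_ball`; `E`
with `borel E` and `Measure.addHaar`, or `MeasureTheory.Measure`-free by induction if you prefer).

STEP 1 (one dimension). If `f : ℝ → ℝ` is `L`-Lipschitz and vanishes outside `[-B,B]` then for
`h > 0`, `a : ℝ`: `|∑_{k : ℤ} f ((a+k) h) - h⁻¹ ∫ f| ≤ L (2B + 2h)` (compare `f ((a+k)h)` with
`h⁻¹ ∫` over the cell `[(a+k)h, (a+k+1)h]`: the difference is at most `L h`, and the number of cells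
meeting the support is at most `2B/h + 2`).

STEP 2 (weak form, by induction on `d`). Let `E_0(u) = 0`, `E_(n+1)(u) = (1+u)^n`. CLAIM(d): for all `B`
there is `C` such that for all `E` of dimension `d`, `φ`, `lam`, `Φ`, `L` (without `Φ 0 = 0`) there is
`c` with `|∑ Φ (φ x / y) - c y^d| ≤ C L E_d(y/lam)` for all `y > 0`. `d = 0`: `M` is trivial, `c = Φ 0`.
`d → d+1`: if `M` is trivial: `c = 0`, `|Φ 0| ≤ L B` (there is a vector of norm `B`). Otherwise let
`v : M` be nonzero with `‖φ v‖ = ℓ` minimal (`≥ lam`; exists by packing), `e = φ v / ℓ`,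
`F = (ℝ e)ᗮ` (dimension `d`), `π : E → F` the orthogonal projection, `M' = M ⧸ ℤ v` (or the range of
`π ∘ φ`). If `π (φ x) = 0` then `φ x = τ φ v`, and `x - round(τ) v` has norm `≤ ℓ/2 < ℓ`, so
`x = round(τ) v`: hence `φ' : M' → F` induced by `π ∘ φ` is injective, and its nonzero values have norm
`≥ (√3/2) ℓ` (subtract a multiple of `v` to make the component along `e` at most `ℓ/2` in absolute value;
the norm is still `≥ ℓ`). Choosing lifts, `M ≃ M' × ℤ`, `x = lift x' + k v`, and
`φ x / y = φ' x' / y + ((a(x') + k) ℓ / y) e`. With `Φ₁ w = ∫ Φ (w + τ e) dτ` (on `F`; `2 B L`-Lipschitz,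
vanishing for `‖w‖ ≥ B`), Step 1 with `h = ℓ/y` and packing in `F` give
`|∑_M Φ (φ x/y) - (y/ℓ) ∑_{M'} Φ₁ (φ' x'/y)| ≤ L (2B + 2ℓ/y) (1 + 2B y/((√3/2) ℓ))^d`,
and the induction hypothesis for `Φ₁` gives `c'`; put `c = c'/ℓ`. For `y ≥ ℓ` this is
`≤ C L (1 + y/ℓ)^d ≤ C L (1 + y/lam)^d`. For `y < ℓ`: `|∑ Φ (φ x/y)| ≤ (1+2B)^(d+1) L B`, and
`|c| y^(d+1) ≤ |c| ℓ^(d+1) ≤` (case `y = ℓ`) `C L`.

STEP 3 (strong form). Now `Φ 0 = 0`. If `y ≥ lam/B`: `1 + y/lam ≤ (1+B) y/lam`, done. If `y < lam/B`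
then `∑ Φ (φ x/y) = 0` (only `x = 0` could contribute); also at `y₁ = lam/B` the sum is `0`, so
Step 2 gives `|c| (lam/B)^d ≤ C L (1+1/B)^(d-1)` and `|c| y^d ≤ C' L (y B/lam)^d ≤ C'' L (y/lam)^(d-1)`.
-/

namespace Pool.ZD
namespace LCaux

open MeasureTheory Metric Module Set

theorem card_sep {E : Type} [NormedAddCommGroup E] [InnerProductSpace ℝ E] [FiniteDimensional ℝ E]
    (s : Finset E) (r δ : ℝ) (hr : 0 ≤ r) (hδ : 0 < δ) (hs : ∀ c ∈ s, ‖c‖ ≤ r)
    (h : ∀ c ∈ s, ∀ d ∈ s, c ≠ d → δ ≤ ‖c - d‖) :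
    (s.card : ℝ) ≤ (1 + 2 * r / δ) ^ finrank ℝ E := by
  borelize E
  let μ : Measure E := Measure.addHaar
  have hδ2 : 0 < δ / 2 := by positivity
  have ρpos : 0 < r + δ / 2 := by positivity
  set A := ⋃ c ∈ s, ball (c : E) (δ / 2) with hA
  have D : Set.Pairwise (s : Set E) (Function.onFun Disjoint fun c => ball (c : E) (δ / 2)) := by
    rintro c hc d hd hcd
    apply ball_disjoint_ball
    rw [dist_eq_norm]
    have := h c hc d hd hcd
    linarith
  have A_subset : A ⊆ ball (0 : E) (r + δ / 2) := by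
    refine iUnion₂_subset fun x hx => ?_
    apply ball_subset_ball'
    rw [dist_zero_right]
    have := hs x hx
    linarith
  have I :
    (s.card : ENNReal) * ENNReal.ofReal ((δ / 2) ^ finrank ℝ E) * μ (ball 0 1) ≤
      ENNReal.ofReal ((r + δ / 2) ^ finrank ℝ E) * μ (ball 0 1) :=
    calc
      (s.card : ENNReal) * ENNReal.ofReal ((δ / 2) ^ finrank ℝ E) * μ (ball 0 1) = μ A := by
        rw [hA, measure_biUnion_finset D fun c _ => measurableSet_ball]
        simp only [μ.addHaar_ball_of_pos _ hδ2]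
        simp only [Finset.sum_const, nsmul_eq_mul, mul_assoc]
      _ ≤ μ (ball (0 : E) (r + δ / 2)) := measure_mono A_subset
      _ = ENNReal.ofReal ((r + δ / 2) ^ finrank ℝ E) * μ (ball 0 1) := by
        simp only [μ.addHaar_ball_of_pos _ ρpos]
  have J : (s.card : ENNReal) * ENNReal.ofReal ((δ / 2) ^ finrank ℝ E) ≤
      ENNReal.ofReal ((r + δ / 2) ^ finrank ℝ E) :=
    (ENNReal.mul_le_mul_iff_left (measure_ball_pos _ _ zero_lt_one).ne' measure_ball_lt_top.ne).1 I
  have K : (s.card : ℝ) * (δ / 2) ^ finrank ℝ E ≤ (r + δ / 2) ^ finrank ℝ E := by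
    have := ENNReal.toReal_le_of_le_ofReal (pow_nonneg ρpos.le _) J
    rw [ENNReal.toReal_mul, ENNReal.toReal_natCast, ENNReal.toReal_ofReal (by positivity)] at this
    exact this
  have e1 : (1 + 2 * r / δ) ^ finrank ℝ E = (r + δ / 2) ^ finrank ℝ E / (δ / 2) ^ finrank ℝ E := by
    rw [← div_pow]
    congr 1
    field_simp
    ring
  rw [e1, le_div_iff₀ (by positivity)]
  exact K

variable {E : Type} [NormedAddCommGroup E] [InnerProductSpace ℝ E] [FiniteDimensional ℝ E]
  {M : Type} [AddCommGroup M]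

omit [InnerProductSpace ℝ E] [FiniteDimensional ℝ E] in
theorem inj_of_low (φ : M →+ E) (lam : ℝ) (hlam : 0 < lam)
    (hφ : ∀ x : M, x ≠ 0 → lam ≤ ‖φ x‖) : Function.Injective φ := by
  intro x y hxy
  by_contra hne
  have h1 := hφ (x - y) (sub_ne_zero.mpr hne)
  rw [map_sub, hxy, sub_self, norm_zero] at h1
  linarith

theorem pack (φ : M →+ E) (lam : ℝ) (hlam : 0 < lam)
    (hφ : ∀ x : M, x ≠ 0 → lam ≤ ‖φ x‖) (r : ℝ) (hr : 0 ≤ r) :
    ∃ s : Finset M, (∀ x, x ∈ s ↔ ‖φ x‖ ≤ r) ∧ (s.card : ℝ) ≤ (1 + 2 * r / lam) ^ finrank ℝ E := by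
  classical
  have hinj := inj_of_low φ lam hlam hφ
  have key : ∀ t : Finset M, (∀ x ∈ t, ‖φ x‖ ≤ r) →
      (t.card : ℝ) ≤ (1 + 2 * r / lam) ^ finrank ℝ E := by
    intro t ht
    rw [← Finset.card_image_of_injective t hinj]
    apply card_sep _ r lam hr hlam
    · intro c hc
      obtain ⟨x, hx, rfl⟩ := Finset.mem_image.mp hc
      exact ht x hx
    · intro c hc d hd hcd
      obtain ⟨x, hx, rfl⟩ := Finset.mem_image.mp hc
      obtain ⟨y, hy, rfl⟩ := Finset.mem_image.mp hd
      rw [← map_sub]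
      apply hφ
      intro h0
      apply hcd
      rw [sub_eq_zero.mp h0]
  have hfin : {x : M | ‖φ x‖ ≤ r}.Finite := by
    by_contra hinf
    obtain ⟨N, hN⟩ := exists_nat_gt ((1 + 2 * r / lam) ^ finrank ℝ E)
    obtain ⟨t, ht, htc⟩ := Set.Infinite.exists_subset_card_eq hinf N
    have := key t (fun x hx => ht hx)
    rw [htc] at this
    linarith
  refine ⟨hfin.toFinset, fun x => by simp, key _ (fun x hx => by simpa using hx)⟩

theorem tsum_bound (φ : M →+ E) (lam : ℝ) (hlam : 0 < lam)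
    (hφ : ∀ x : M, x ≠ 0 → lam ≤ ‖φ x‖) (G : M → ℝ) (r K : ℝ) (hr : 0 ≤ r) (hK : 0 ≤ K)
    (hG : ∀ x, r < ‖φ x‖ → G x = 0) (hGK : ∀ x, |G x| ≤ K) :
    Summable G ∧ |∑' x, G x| ≤ (1 + 2 * r / lam) ^ finrank ℝ E * K := by
  obtain ⟨s, hs, hc⟩ := pack φ lam hlam hφ r hr
  have h0 : ∀ x ∉ s, G x = 0 := by
    intro x hx
    apply hG
    rw [hs] at hx
    exact not_le.mp hx
  have h1 : HasSum G (∑ x ∈ s, G x) := hasSum_sum_of_ne_finset_zero h0
  refine ⟨h1.summable, ?_⟩
  rw [h1.tsum_eq]
  calc |∑ x ∈ s, G x| ≤ ∑ x ∈ s, |G x| := Finset.abs_sum_le_sum_abs _ _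
    _ ≤ ∑ x ∈ s, K := Finset.sum_le_sum fun x _ => hGK x
    _ = s.card * K := by rw [Finset.sum_const, nsmul_eq_mul]
    _ ≤ _ := by gcongr

theorem riemann (f : ℝ → ℝ) (L B h a : ℝ) (hL : 0 ≤ L) (hh : 0 < h)
    (hf : ∀ s t, |f s - f t| ≤ L * |s - t|) (hs : ∀ t, B ≤ |t| → f t = 0) (hB : 0 < B) :
    |∑' k : ℤ, f ((a + k) * h) - h⁻¹ * ∫ t, f t| ≤ L * (2 * B + 2 * h) := by
  have hfc : Continuous f := by
    have : LipschitzWith L.toNNReal f := by
      apply LipschitzWith.of_dist_le_mul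
      intro s t
      rw [Real.dist_eq, Real.dist_eq, Real.coe_toNNReal L hL]
      exact hf s t
    exact this.continuous
  set g : ℝ → ℝ := fun t => f (t * h) with hg
  have hgc : Continuous g := hfc.comp (continuous_id.mul continuous_const)
  have hg0 : ∀ t, B / h ≤ |t| → g t = 0 := by
    intro t ht
    apply hs
    rw [abs_mul, abs_of_pos hh]
    rwa [div_le_iff₀ hh] at ht
  have hcs : HasCompactSupport g := by
    apply HasCompactSupport.intro (isCompact_Icc (a := -(B / h)) (b := B / h))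
    intro t ht
    apply hg0
    by_contra hlt
    push Not at hlt
    rw [abs_lt] at hlt
    exact ht ⟨hlt.1.le, hlt.2.le⟩
  have hgi : Integrable g := hgc.integrable_of_hasCompactSupport hcs
  have hint : ∫ t, g t = h⁻¹ * ∫ t, f t := by
    have := MeasureTheory.Measure.integral_comp_mul_right f h
    rw [abs_of_pos (inv_pos.mpr hh), smul_eq_mul] at this
    exact this
  have hsum := hgi.hasSum_intervalIntegral a
  set T : Finset ℤ := Finset.Ioc ⌊-(B / h) - 1 - a⌋ ⌊B / h - a⌋ with hT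
  have hTnot : ∀ k : ℤ, k ∉ T → (∀ s, a + k ≤ s → s ≤ a + k + 1 → g s = 0) := by
    intro k hk s hs1 hs2
    apply hg0
    rw [hT, Finset.mem_Ioc, not_and_or, not_lt, not_le] at hk
    rcases hk with hk | hk
    · have : (k : ℝ) ≤ -(B / h) - 1 - a := Int.le_floor.mp hk
      rw [le_abs]
      right
      linarith
    · have : B / h - a < k := Int.floor_lt.mp hk
      rw [le_abs]
      left
      linarith
  have h1 : HasSum (fun k : ℤ => g (a + k)) (∑ k ∈ T, g (a + k)) := by
    apply hasSum_sum_of_ne_finset_zero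
    intro k hk
    exact hTnot k hk _ le_rfl (by linarith)
  have h2 : HasSum (fun k : ℤ => ∫ x in (a + k)..(a + k + 1), g x)
      (∑ k ∈ T, ∫ x in (a + k)..(a + k + 1), g x) := by
    apply hasSum_sum_of_ne_finset_zero
    intro k hk
    rw [intervalIntegral.integral_congr (g := fun _ => (0:ℝ))]
    · simp
    · intro s hs
      rw [uIcc_of_le (by linarith)] at hs
      exact hTnot k hk s hs.1 hs.2
  have h3 : ∫ t, g t = ∑ k ∈ T, ∫ x in (a + k)..(a + k + 1), g x := hsum.unique h2
  have h4 : (∑' k : ℤ, f ((a + k) * h)) = ∑ k ∈ T, g (a + k) := h1.tsum_eq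
  rw [h4, ← hint, h3, ← Finset.sum_sub_distrib]
  have h5 : ∀ k : ℤ, |g (a + k) - ∫ x in (a + k)..(a + k + 1), g x| ≤ L * h := by
    intro k
    have e1 : g (a + k) - ∫ x in (a + k)..(a + k + 1), g x
        = ∫ x in (a + k)..(a + k + 1), (g (a + k) - g x) := by
      rw [intervalIntegral.integral_sub (by simp) (hgc.intervalIntegrable _ _)]
      simp
    rw [e1]
    have := intervalIntegral.norm_integral_le_of_norm_le_const (a := a + k) (b := a + k + 1)
      (f := fun x => g (a + k) - g x) (C := L * h) ?_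
    · simpa using this
    · intro x hx
      rw [uIoc_of_le (by linarith)] at hx
      rw [Real.norm_eq_abs]
      refine (hf _ _).trans ?_
      rw [← sub_mul, abs_mul, abs_of_pos hh]
      have : |a + k - x| ≤ 1 := by
        rw [abs_le]
        constructor <;> linarith [hx.1, hx.2]
      nlinarith [mul_nonneg hL hh.le]
  calc |∑ k ∈ T, (g (a + k) - ∫ x in (a + k)..(a + k + 1), g x)|
      ≤ ∑ k ∈ T, |g (a + k) - ∫ x in (a + k)..(a + k + 1), g x| := Finset.abs_sum_le_sum_abs _ _
    _ ≤ ∑ k ∈ T, L * h := Finset.sum_le_sum fun k _ => h5 k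
    _ = (T.card : ℝ) * (L * h) := by rw [Finset.sum_const, nsmul_eq_mul]
    _ ≤ (2 * (B / h) + 2) * (L * h) := by
        gcongr
        rw [hT, Int.card_Ioc]
        have e1 : (⌊B / h - a⌋ : ℝ) ≤ B / h - a := Int.floor_le _
        have e2 : -(B / h) - 1 - a < ⌊-(B / h) - 1 - a⌋ + 1 := Int.lt_floor_add_one _
        have hBh : 0 < B / h := by positivity
        have e3 : (0:ℤ) ≤ ⌊B / h - a⌋ - ⌊-(B / h) - 1 - a⌋ := by
          have : ⌊-(B / h) - 1 - a⌋ ≤ ⌊B / h - a⌋ := Int.floor_le_floor (by linarith)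
          linarith
        have e4 : (((⌊B / h - a⌋ - ⌊-(B / h) - 1 - a⌋).toNat : ℕ) : ℝ)
            = (⌊B / h - a⌋ : ℝ) - ⌊-(B / h) - 1 - a⌋ := by
          have : (((⌊B / h - a⌋ - ⌊-(B / h) - 1 - a⌋).toNat : ℕ) : ℤ)
            = ⌊B / h - a⌋ - ⌊-(B / h) - 1 - a⌋ := Int.toNat_of_nonneg e3
          exact_mod_cast this
        rw [e4]
        linarith
    _ = L * (2 * B + 2 * h) := by
        field_simp


/-- projection onto the orthogonal complement of a unit vector -/
noncomputable def proj (e : E) (he : ‖e‖ = 1) : E →+ ↥(ℝ ∙ e)ᗮ where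
  toFun u := ⟨u - inner ℝ e u • e, by
    rw [Submodule.mem_orthogonal_singleton_iff_inner_right, inner_sub_right, inner_smul_right,
      real_inner_self_eq_norm_sq, he]
    ring⟩
  map_zero' := by
    ext
    simp
  map_add' u w := by
    ext
    simp only [Submodule.coe_add, inner_add_right, add_smul]
    abel

omit [FiniteDimensional ℝ E] in
theorem proj_coe (e : E) (he : ‖e‖ = 1) (u : E) :
    ((proj e he u : ↥(ℝ ∙ e)ᗮ) : E) = u - inner ℝ e u • e := rfl

omit [FiniteDimensional ℝ E] in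
theorem norm_sq_dec (e : E) (he : ‖e‖ = 1) (w : ↥(ℝ ∙ e)ᗮ) (t : ℝ) :
    ‖(w : E) + t • e‖ ^ 2 = ‖w‖ ^ 2 + t ^ 2 := by
  have h1 : inner ℝ (w : E) e = 0 := by
    have := (Submodule.mem_orthogonal_singleton_iff_inner_left (𝕜 := ℝ) (u := e) (v := (w : E))).mp w.2
    exact this
  rw [norm_add_sq_real, inner_smul_right, h1, norm_smul, he, Submodule.coe_norm]
  simp

omit [FiniteDimensional ℝ E] in
theorem slice (φ : M →+ E) (l : ℝ) (hl : 0 < l) (v : M) (e : E) (he1 : ‖e‖ = 1)
    (he : φ v = l • e) (hφ : ∀ x : M, x ≠ 0 → l ≤ ‖φ x‖) :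
    ∃ (φ' : (M ⧸ AddSubgroup.zmultiples v) →+ ↥(ℝ ∙ e)ᗮ)
      (a : (M ⧸ AddSubgroup.zmultiples v) → ℝ) (T : (M ⧸ AddSubgroup.zmultiples v) × ℤ ≃ M),
      (∀ q k, φ (T (q, k)) = (φ' q : E) + ((a q + k) * l) • e) ∧
      (∀ q, q ≠ 0 → l / 2 ≤ ‖φ' q‖) := by
  have hdec : ∀ u : E, u = (proj e he1 u : E) + (inner ℝ e u) • e := by
    intro u
    rw [proj_coe]
    abel
  have hpe : ∀ t : ℝ, proj e he1 (t • e) = 0 := by
    intro t
    ext
    rw [proj_coe, inner_smul_right, real_inner_self_eq_norm_sq, he1]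
    simp
  set φ' : (M ⧸ AddSubgroup.zmultiples v) →+ ↥(ℝ ∙ e)ᗮ :=
    QuotientAddGroup.lift (AddSubgroup.zmultiples v) ((proj e he1).comp φ) (by
      intro x hx
      obtain ⟨k, rfl⟩ := AddSubgroup.mem_zmultiples_iff.mp hx
      rw [AddMonoidHom.mem_ker]
      simp only [AddMonoidHom.coe_comp, Function.comp_apply, map_zsmul, he, hpe, smul_zero]) with hφ'
  have hφ'mk : ∀ x : M, φ' (QuotientAddGroup.mk x) = proj e he1 (φ x) := fun x => rfl
  have hout : ∀ q : M ⧸ AddSubgroup.zmultiples v, (QuotientAddGroup.mk q.out : M ⧸ AddSubgroup.zmultiples v) = q :=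
    fun q => Quotient.out_eq' q
  have hφ'out : ∀ q, φ' q = proj e he1 (φ q.out) := by
    intro q
    conv_lhs => rw [← hout q]
    rw [hφ'mk]
  have hφk : ∀ (x : M) (k : ℤ), φ (x + k • v) = (proj e he1 (φ x) : E)
      + ((inner ℝ e (φ x) / l + k) * l) • e := by
    intro x k
    rw [map_add, map_zsmul, he]
    conv_lhs => rw [hdec (φ x)]
    have : (inner ℝ e (φ x) / l + k) * l = inner ℝ e (φ x) + k * l := by
      field_simp
    rw [this, add_smul, mul_smul, add_assoc, Int.cast_smul_eq_zsmul]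
  have hbij : Function.Bijective (fun p : (M ⧸ AddSubgroup.zmultiples v) × ℤ => p.1.out + p.2 • v) := by
    constructor
    · rintro ⟨q, k⟩ ⟨q', k'⟩ h
      simp only at h
      have hq : q = q' := by
        rw [← hout q, ← hout q']
        rw [QuotientAddGroup.eq]
        rw [AddSubgroup.mem_zmultiples_iff]
        refine ⟨k - k', ?_⟩
        rw [sub_smul]
        have : q.out = q'.out + k' • v - k • v := by rw [← h]; abel
        rw [this]
        abel
      subst hq
      have h2 : k • v = k' • v := add_left_cancel h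
      have h3 : φ (k • v) = φ (k' • v) := by rw [h2]
      rw [map_zsmul, map_zsmul, he] at h3
      have h4 : ((k : ℝ) * l) • e = ((k' : ℝ) * l) • e := by
        rw [mul_smul, mul_smul]
        exact_mod_cast h3
      have hene : e ≠ 0 := by
        intro h0
        rw [h0, norm_zero] at he1
        exact zero_ne_one he1
      have h5 := smul_left_injective ℝ hene h4
      have h6 : (k : ℝ) = k' := mul_right_cancel₀ hl.ne' h5
      have h7 : k = k' := by exact_mod_cast h6
      rw [h7]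
    · intro x
      have h1 : (QuotientAddGroup.mk (QuotientAddGroup.mk x : M ⧸ AddSubgroup.zmultiples v).out :
        M ⧸ AddSubgroup.zmultiples v) = QuotientAddGroup.mk x := hout _
      rw [QuotientAddGroup.eq, AddSubgroup.mem_zmultiples_iff] at h1
      obtain ⟨k, hk⟩ := h1
      refine ⟨(QuotientAddGroup.mk x, k), ?_⟩
      simp only [hk]
      abel
  refine ⟨φ', fun q => inner ℝ e (φ q.out) / l, Equiv.ofBijective _ hbij, ?_, ?_⟩
  · intro q k
    rw [hφ'out]
    exact hφk q.out k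
  · intro q hq
    set r : ℤ := round (inner ℝ e (φ q.out) / l) with hr
    set x : M := q.out + (-r) • v with hx
    have hx0 : x ≠ 0 := by
      intro h0
      apply hq
      rw [← hout q]
      rw [QuotientAddGroup.eq_zero_iff, AddSubgroup.mem_zmultiples_iff]
      refine ⟨r, ?_⟩
      have : q.out = x + r • v := by rw [hx, neg_smul]; abel
      rw [this, h0, zero_add]
    have h1 := hφ x hx0
    rw [hx, hφk, ← hφ'out] at h1
    have h2 : |(inner ℝ e (φ q.out) / l + ((-r : ℤ) : ℝ)) * l| ≤ l / 2 := by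
      rw [abs_mul, abs_of_pos hl]
      have h3 : |inner ℝ e (φ q.out) / l + ((-r : ℤ) : ℝ)| ≤ 1 / 2 := by
        have := abs_sub_round (inner ℝ e (φ q.out) / l)
        rw [← hr] at this
        push_cast
        rw [← sub_eq_add_neg]
        exact this
      nlinarith
    have h4 : ‖(φ' q : E) + ((inner ℝ e (φ q.out) / l + ((-r : ℤ) : ℝ)) * l) • e‖
        ≤ ‖φ' q‖ + l / 2 := by
      refine (norm_add_le _ _).trans ?_
      rw [norm_smul, he1, mul_one, Real.norm_eq_abs, Submodule.coe_norm]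
      linarith
    linarith


theorem lip_cont (f : ℝ → ℝ) (L : ℝ) (hL : 0 ≤ L) (hf : ∀ s t, |f s - f t| ≤ L * |s - t|) :
    Continuous f := by
  have : LipschitzWith L.toNNReal f := by
    apply LipschitzWith.of_dist_le_mul
    intro s t
    rw [Real.dist_eq, Real.dist_eq, Real.coe_toNNReal L hL]
    exact hf s t
  exact this.continuous

theorem summable_aux (φ : M →+ E) (lam : ℝ) (hlam : 0 < lam)
    (hφ : ∀ x : M, x ≠ 0 → lam ≤ ‖φ x‖) (G : M → ℝ) (r : ℝ) (hr : 0 ≤ r)
    (hG : ∀ x, r < ‖φ x‖ → G x = 0) : Summable G := by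
  obtain ⟨s, hs, hc⟩ := pack φ lam hlam hφ r hr
  have h0 : ∀ x ∉ s, G x = 0 := by
    intro x hx
    apply hG
    rw [hs] at hx
    exact not_le.mp hx
  exact (hasSum_sum_of_ne_finset_zero h0).summable

/-- the error function of the weak form -/
noncomputable def Err : ℕ → ℝ → ℝ
  | 0, _ => 0
  | (n + 1), u => (1 + u) ^ n

theorem Err_le (d : ℕ) (u : ℝ) (hu : 0 ≤ u) : u * Err d (2 * u) ≤ 2 ^ d * (1 + u) ^ d := by
  cases d with
  | zero => simp [Err]
  | succ n =>
    have h1 : Err (n + 1) (2 * u) = (1 + 2 * u) ^ n := rfl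
    rw [h1]
    calc u * (1 + 2 * u) ^ n ≤ (2 * (1 + u)) * (2 * (1 + u)) ^ n := by
          gcongr <;> linarith
      _ = 2 ^ (n + 1) * (1 + u) ^ (n + 1) := by
          rw [← pow_succ', mul_pow]

theorem weak (B : ℝ) (hB : 0 < B) (d : ℕ) : ∃ C : ℝ, 0 < C ∧
    ∀ (E : Type) [NormedAddCommGroup E] [InnerProductSpace ℝ E] [FiniteDimensional ℝ E],
    finrank ℝ E = d →
    ∀ (M : Type) [AddCommGroup M] (φ : M →+ E) (lam : ℝ), 0 < lam →
      (∀ x : M, x ≠ 0 → lam ≤ ‖φ x‖) →
    ∀ (Φ : E → ℝ) (L : ℝ), 0 ≤ L → (∀ u v, |Φ u - Φ v| ≤ L * ‖u - v‖) →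
      (∀ u, B ≤ ‖u‖ → Φ u = 0) →
    ∃ c : ℝ, ∀ y : ℝ, 0 < y →
      |∑' x : M, Φ (y⁻¹ • φ x) - c * y ^ d| ≤ C * L * Err d (y / lam) := by
  induction d with
  | zero =>
    refine ⟨1, one_pos, ?_⟩
    intro E _ _ _ hdim M _ φ lam hlam hφ Φ L hL hΦ hΦB
    have hsub : Subsingleton E := finrank_zero_iff.mp hdim
    have hM : ∀ x : M, x = 0 := by
      intro x
      by_contra hx
      have := hφ x hx
      rw [Subsingleton.elim (φ x) 0, norm_zero] at this
      linarith
    refine ⟨Φ 0, fun y hy => ?_⟩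
    have h1 : ∑' x : M, Φ (y⁻¹ • φ x) = Φ 0 := by
      rw [tsum_eq_single (0 : M)]
      · simp
      · intro x hx
        exact absurd (hM x) hx
    rw [h1]
    simp [Err]
  | succ d ih =>
    obtain ⟨Cd, hCd, ih⟩ := ih
    set K : ℝ := (2 * B + 2) * (1 + 4 * B) ^ d + 2 * B * Cd * 2 ^ d with hK
    have hK0 : 0 < K := by positivity
    set K2 : ℝ := (1 + 2 * B) ^ (d + 1) * (2 * B) with hK2
    have hK20 : 0 < K2 := by positivity
    refine ⟨K + (K2 + (K2 + K * 2 ^ d)) + 2 * B, by positivity, ?_⟩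
    intro E _ _ _ hdim M _ φ lam hlam hφ Φ L hL hΦ hΦB
    -- sup bound
    have hΦsup : ∀ u, |Φ u| ≤ 2 * B * L := by
      intro u
      by_cases hu : B ≤ ‖u‖
      · rw [hΦB u hu, abs_zero]
        positivity
      · push Not at hu
        have : Nontrivial E := by
          apply Module.nontrivial_of_finrank_pos (R := ℝ)
          rw [hdim]
          positivity
        obtain ⟨e, he⟩ := exists_norm_eq E (zero_le_one)
        have h1 : B ≤ ‖u + (2 * B) • e‖ := by
          have h2 : ‖(2 * B) • e‖ ≤ ‖u + (2 * B) • e‖ + ‖u‖ := by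
            have := norm_sub_le (u + (2 * B) • e) u
            rwa [add_sub_cancel_left] at this
          rw [norm_smul, he, mul_one, Real.norm_eq_abs, abs_of_pos (by positivity)] at h2
          linarith
        have h3 := hΦ u (u + (2 * B) • e)
        rw [hΦB _ h1, sub_zero, sub_add_cancel_left, norm_neg, norm_smul, he, mul_one,
          Real.norm_eq_abs, abs_of_pos (show (0 : ℝ) < 2 * B by positivity)] at h3
        linarith
    by_cases hM : ∀ x : M, x = 0
    · refine ⟨0, fun y hy => ?_⟩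
      have h1 : ∑' x : M, Φ (y⁻¹ • φ x) = Φ 0 := by
        rw [tsum_eq_single (0 : M)]
        · simp
        · intro x hx
          exact absurd (hM x) hx
      rw [h1, zero_mul, sub_zero]
      have h2 : (1 : ℝ) ≤ Err (d + 1) (y / lam) := by
        have : (1 : ℝ) ≤ 1 + y / lam := by
          have : 0 < y / lam := by positivity
          linarith
        exact one_le_pow₀ this
      calc |Φ 0| ≤ 2 * B * L := hΦsup 0
        _ ≤ (K + (K2 + (K2 + K * 2 ^ d)) + 2 * B) * L * 1 := by
            rw [mul_one]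
            gcongr
            have : 0 ≤ K + (K2 + (K2 + K * 2 ^ d)) := by positivity
            linarith
        _ ≤ _ := by gcongr
    · push Not at hM
      obtain ⟨x0, hx0⟩ := hM
      -- a shortest vector
      obtain ⟨s, hs, -⟩ := pack φ lam hlam hφ ‖φ x0‖ (norm_nonneg _)
      classical
      have hne : (s.erase 0).Nonempty := ⟨x0, by simp [hx0, hs]⟩
      obtain ⟨v, hv, hvmin⟩ := Finset.exists_min_image (s.erase 0) (fun x => ‖φ x‖) hne
      rw [Finset.mem_erase] at hv
      set l : ℝ := ‖φ v‖ with hldef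
      have hlaml : lam ≤ l := hφ v hv.1
      have hl : 0 < l := lt_of_lt_of_le hlam hlaml
      have hφl : ∀ x : M, x ≠ 0 → l ≤ ‖φ x‖ := by
        intro x hx
        by_cases hxs : x ∈ s
        · exact hvmin x (Finset.mem_erase.mpr ⟨hx, hxs⟩)
        · rw [hs, not_le] at hxs
          have h1 : l ≤ ‖φ x0‖ := hvmin x0 (by simp [hx0, hs])
          linarith
      set e : E := l⁻¹ • φ v with he
      have he1 : ‖e‖ = 1 := by
        rw [he, norm_smul, norm_inv, Real.norm_eq_abs, abs_of_pos hl, ← hldef]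
        field_simp
      have hee : φ v = l • e := by
        rw [he, smul_smul, mul_inv_cancel₀ hl.ne', one_smul]
      have hene : e ≠ 0 := by
        intro h0
        rw [h0, norm_zero] at he1
        exact zero_ne_one he1
      obtain ⟨φ', a, T, hT, hφ'⟩ := slice φ l hl v e he1 hee hφl
      have hdimF : finrank ℝ ↥(ℝ ∙ e)ᗮ = d := by
        have : Fact (finrank ℝ E = d + 1) := ⟨hdim⟩
        exact Submodule.finrank_orthogonal_span_singleton hene
      -- fibre functions
      have hfib : ∀ w : ↥(ℝ ∙ e)ᗮ, ∀ s t : ℝ,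
          |Φ ((w : E) + s • e) - Φ ((w : E) + t • e)| ≤ L * |s - t| := by
        intro w s t
        refine (hΦ _ _).trans ?_
        rw [add_sub_add_left_eq_sub, ← sub_smul, norm_smul, he1, mul_one, Real.norm_eq_abs]
      have hfibB : ∀ w : ↥(ℝ ∙ e)ᗮ, ∀ t : ℝ, B ≤ |t| → Φ ((w : E) + t • e) = 0 := by
        intro w t ht
        apply hΦB
        have h1 := norm_sq_dec e he1 w t
        apply le_of_sq_le_sq _ (norm_nonneg _)
        rw [h1]
        have h2 : B ^ 2 ≤ t ^ 2 := by
          rw [← sq_abs t]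
          gcongr
        nlinarith [sq_nonneg ‖w‖]
      have hfibw : ∀ w : ↥(ℝ ∙ e)ᗮ, B ≤ ‖w‖ → ∀ t : ℝ, Φ ((w : E) + t • e) = 0 := by
        intro w hw t
        apply hΦB
        have h1 := norm_sq_dec e he1 w t
        apply le_of_sq_le_sq _ (norm_nonneg _)
        rw [h1]
        have h2 : B ^ 2 ≤ ‖w‖ ^ 2 := by gcongr
        nlinarith [sq_nonneg t]
      set Φ₁ : ↥(ℝ ∙ e)ᗮ → ℝ := fun w => ∫ t : ℝ, Φ ((w : E) + t • e) with hΦ₁
      have hint : ∀ w : ↥(ℝ ∙ e)ᗮ, Φ₁ w = ∫ t in (-B)..B, Φ ((w : E) + t • e) := by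
        intro w
        rw [hΦ₁]
        symm
        apply intervalIntegral.integral_eq_integral_of_support_subset
        intro t ht
        rw [Function.mem_support] at ht
        by_contra hnot
        apply ht
        apply hfibB
        rw [le_abs]
        by_contra hc
        push Not at hc
        exact hnot ⟨by linarith, hc.1.le⟩
      have hΦ₁L : ∀ w w' : ↥(ℝ ∙ e)ᗮ, |Φ₁ w - Φ₁ w'| ≤ (2 * B * L) * ‖w - w'‖ := by
        intro w w'
        rw [hint, hint, ← intervalIntegral.integral_sub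
          ((lip_cont _ L hL (hfib w)).intervalIntegrable _ _)
          ((lip_cont _ L hL (hfib w')).intervalIntegrable _ _)]
        have := intervalIntegral.norm_integral_le_of_norm_le_const (a := -B) (b := B)
          (f := fun t => Φ ((w : E) + t • e) - Φ ((w' : E) + t • e)) (C := L * ‖w - w'‖) ?_
        · rw [Real.norm_eq_abs] at this
          refine this.trans (le_of_eq ?_)
          rw [sub_neg_eq_add, abs_of_pos (by positivity)]
          ring
        · intro t _
          rw [Real.norm_eq_abs]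
          refine (hΦ _ _).trans (le_of_eq ?_)
          rw [add_sub_add_right_eq_sub]
          rfl
      have hΦ₁B : ∀ w : ↥(ℝ ∙ e)ᗮ, B ≤ ‖w‖ → Φ₁ w = 0 := by
        intro w hw
        rw [hΦ₁]
        simp only [hfibw w hw, integral_zero]
      obtain ⟨c', hc'⟩ := ih ↥(ℝ ∙ e)ᗮ hdimF (M ⧸ AddSubgroup.zmultiples v) φ' (l / 2)
        (half_pos hl) hφ' Φ₁ (2 * B * L) (by positivity) hΦ₁L hΦ₁B
      -- main estimate
      have hmain : ∀ y : ℝ, 0 < y →
          |∑' x : M, Φ (y⁻¹ • φ x) - (y / l) * ∑' q, Φ₁ (y⁻¹ • φ' q)|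
            ≤ (1 + 2 * (B * y) / (l / 2)) ^ d * (L * (2 * B + 2 * (l / y))) := by
        intro y hy
        have hF : Summable (fun x : M => Φ (y⁻¹ • φ x)) := by
          apply summable_aux φ lam hlam hφ _ (B * y) (by positivity)
          intro x hx
          apply hΦB
          rw [norm_smul, norm_inv, Real.norm_eq_abs, abs_of_pos hy, inv_mul_eq_div,
            le_div_iff₀ hy]
          exact hx.le
        have hFT : Summable (fun p : (M ⧸ AddSubgroup.zmultiples v) × ℤ => Φ (y⁻¹ • φ (T p))) :=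
          (T.summable_iff (f := fun x : M => Φ (y⁻¹ • φ x))).mpr hF
        have h1 : ∑' x : M, Φ (y⁻¹ • φ x) = ∑' q, ∑' k : ℤ, Φ (y⁻¹ • φ (T (q, k))) := by
          rw [← T.tsum_eq (fun x : M => Φ (y⁻¹ • φ x))]
          exact hFT.tsum_prod
        have hker : ∀ (q : M ⧸ AddSubgroup.zmultiples v) (k : ℤ), y⁻¹ • φ (T (q, k))
            = ((y⁻¹ • φ' q : ↥(ℝ ∙ e)ᗮ) : E) + ((a q + k) * (l / y)) • e := by
          intro q k
          rw [hT, smul_add, smul_smul]
          congr 2
          field_simp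
        set G : (M ⧸ AddSubgroup.zmultiples v) → ℝ := fun q =>
          (∑' k : ℤ, Φ (y⁻¹ • φ (T (q, k)))) - (y / l) * Φ₁ (y⁻¹ • φ' q) with hG
        have hGb : ∀ q, |G q| ≤ L * (2 * B + 2 * (l / y)) := by
          intro q
          have := riemann (fun t => Φ (((y⁻¹ • φ' q : ↥(ℝ ∙ e)ᗮ) : E) + t • e)) L B (l / y) (a q)
            hL (by positivity) (hfib _) (hfibB _) hB
          rw [hG]
          simp only [hker]
          rw [inv_div] at this
          exact this
        have hwn : ∀ q, B * y < ‖φ' q‖ → B ≤ ‖(y⁻¹ • φ' q : ↥(ℝ ∙ e)ᗮ)‖ := by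
          intro q hq
          rw [norm_smul, norm_inv, Real.norm_eq_abs, abs_of_pos hy, inv_mul_eq_div,
            le_div_iff₀ hy]
          exact hq.le
        have hG0 : ∀ q, B * y < ‖φ' q‖ → G q = 0 := by
          intro q hq
          rw [hG]
          simp only [hker]
          rw [hΦ₁B _ (hwn q hq)]
          simp only [hfibw _ (hwn q hq), tsum_zero, mul_zero, sub_zero]
        have hK' : 0 ≤ L * (2 * B + 2 * (l / y)) := by positivity
        obtain ⟨hGs, hGt⟩ := tsum_bound φ' (l / 2) (half_pos hl) hφ' G (B * y) _ (by positivity)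
          hK' hG0 hGb
        have hΦ₁s : Summable (fun q => Φ₁ (y⁻¹ • φ' q)) := by
          apply summable_aux φ' (l / 2) (half_pos hl) hφ' _ (B * y) (by positivity)
          intro q hq
          exact hΦ₁B _ (hwn q hq)
        have h2 : ∑' q, ∑' k : ℤ, Φ (y⁻¹ • φ (T (q, k)))
            = ∑' q, G q + (y / l) * ∑' q, Φ₁ (y⁻¹ • φ' q) := by
          rw [← tsum_mul_left, ← hGs.tsum_add (hΦ₁s.mul_left _)]
          congr 1
          ext q
          rw [hG]
          ring
        rw [h1, h2, add_sub_cancel_right, ← hdimF]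
        exact hGt
      have hlarge : ∀ y : ℝ, l ≤ y →
          |∑' x : M, Φ (y⁻¹ • φ x) - c' / l * y ^ (d + 1)| ≤ K * L * (1 + y / l) ^ d := by
        intro y hly
        have hy : 0 < y := lt_of_lt_of_le hl hly
        have h1 := hmain y hy
        have h2 := hc' y hy
        set S := ∑' x : M, Φ (y⁻¹ • φ x)
        set S1 := ∑' q, Φ₁ (y⁻¹ • φ' q)
        have h3 : S - c' / l * y ^ (d + 1) = (S - y / l * S1) + (y / l) * (S1 - c' * y ^ d) := by
          field_simp
          ring
        rw [h3]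
        refine (abs_add_le _ _).trans ?_
        rw [abs_mul, abs_of_pos (show 0 < y / l by positivity)]
        have h4 : (1 + 2 * (B * y) / (l / 2)) ^ d * (L * (2 * B + 2 * (l / y)))
            ≤ ((1 + 4 * B) * (1 + y / l)) ^ d * (L * (2 * B + 2 * 1)) := by
          have e1 : 1 + 2 * (B * y) / (l / 2) ≤ (1 + 4 * B) * (1 + y / l) := by
            have : 2 * (B * y) / (l / 2) = 4 * B * (y / l) := by
              field_simp
              ring
            rw [this]
            have : 0 < y / l := by positivity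
            nlinarith
          have e2 : l / y ≤ 1 := by
            rw [div_le_one hy]
            exact hly
          gcongr
        have h5 : (y / l) * |S1 - c' * y ^ d| ≤ 2 * B * Cd * L * (2 ^ d * (1 + y / l) ^ d) := by
          calc (y / l) * |S1 - c' * y ^ d|
              ≤ (y / l) * (Cd * (2 * B * L) * Err d (y / (l / 2))) := by gcongr
            _ = 2 * B * Cd * L * ((y / l) * Err d (2 * (y / l))) := by
                rw [show y / (l / 2) = 2 * (y / l) by field_simp]
                ring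
            _ ≤ _ := mul_le_mul_of_nonneg_left (Err_le d (y / l) (by positivity)) (by positivity)
        calc |S - y / l * S1| + (y / l) * |S1 - c' * y ^ d|
            ≤ ((1 + 4 * B) * (1 + y / l)) ^ d * (L * (2 * B + 2 * 1))
              + 2 * B * Cd * L * (2 ^ d * (1 + y / l) ^ d) :=
              add_le_add (h1.trans h4) h5
          _ = K * L * (1 + y / l) ^ d := by
              rw [hK, mul_pow]
              ring
      refine ⟨c' / l, fun y hy => ?_⟩
      have hErr : Err (d + 1) (y / lam) = (1 + y / lam) ^ d := rfl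
      rw [hErr]
      by_cases hyl : l ≤ y
      · refine (hlarge y hyl).trans ?_
        have e1 : (1 + y / l) ^ d ≤ (1 + y / lam) ^ d := by gcongr
        have e2 : K ≤ K + (K2 + (K2 + K * 2 ^ d)) + 2 * B := by
          have : 0 < (K2 + (K2 + K * 2 ^ d)) + 2 * B := by positivity
          linarith
        gcongr
      · push Not at hyl
        have hbd : ∀ z : ℝ, 0 < z → z ≤ l → |∑' x : M, Φ (z⁻¹ • φ x)| ≤ K2 * L := by
          intro z hz hzl
          have := (tsum_bound φ l hl hφl (fun x : M => Φ (z⁻¹ • φ x)) (B * z) (2 * B * L)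
            (by positivity) (by positivity) (by
              intro x hx
              apply hΦB
              rw [norm_smul, norm_inv, Real.norm_eq_abs, abs_of_pos hz, inv_mul_eq_div,
                le_div_iff₀ hz]
              exact hx.le) (fun x => hΦsup _)).2
          refine this.trans ?_
          rw [hdim, hK2, mul_assoc ((1 + 2 * B) ^ (d + 1))]
          have e1 : 1 + 2 * (B * z) / l ≤ 1 + 2 * B := by
            have : 2 * (B * z) / l ≤ 2 * B := by
              rw [div_le_iff₀ hl]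
              nlinarith
            linarith
          gcongr
        have h1 := hbd y hy hyl.le
        have h2 := hbd l hl le_rfl
        have h3 := hlarge l le_rfl
        have h4 : |c' / l * l ^ (d + 1)| ≤ K2 * L + K * L * 2 ^ d := by
          rw [div_self hl.ne', show (1 : ℝ) + 1 = 2 by norm_num] at h3
          have := abs_sub_abs_le_abs_sub (c' / l * l ^ (d + 1)) (∑' x : M, Φ (l⁻¹ • φ x))
          rw [abs_sub_comm] at this
          linarith
        have h5 : |c' / l * y ^ (d + 1)| ≤ |c' / l * l ^ (d + 1)| := by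
          rw [abs_mul, abs_mul, abs_of_pos (show 0 < y ^ (d + 1) by positivity),
            abs_of_pos (show 0 < l ^ (d + 1) by positivity)]
          gcongr
        have h6 : (1 : ℝ) ≤ (1 + y / lam) ^ d := by
          apply one_le_pow₀
          have : 0 < y / lam := by positivity
          linarith
        calc |∑' x : M, Φ (y⁻¹ • φ x) - c' / l * y ^ (d + 1)|
            ≤ |∑' x : M, Φ (y⁻¹ • φ x)| + |c' / l * y ^ (d + 1)| := abs_sub _ _
          _ ≤ K2 * L + (K2 * L + K * L * 2 ^ d) := by linarith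
          _ = (K2 + (K2 + K * 2 ^ d)) * L * 1 := by ring
          _ ≤ (K + (K2 + (K2 + K * 2 ^ d)) + 2 * B) * L * (1 + y / lam) ^ d := by
              have e3 : K2 + (K2 + K * 2 ^ d) ≤ K + (K2 + (K2 + K * 2 ^ d)) + 2 * B := by
                linarith
              exact mul_le_mul (mul_le_mul_of_nonneg_right e3 hL) h6 zero_le_one (by positivity)

end LCaux

open LCaux in
theorem lattice_count (d : ℕ) (hd : 1 ≤ d) (B : ℝ) (hB : 0 < B) : ∃ C : ℝ, 0 < C ∧
    ∀ (E : Type) [NormedAddCommGroup E] [InnerProductSpace ℝ E] [FiniteDimensional ℝ E],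
    Module.finrank ℝ E = d →
    ∀ (M : Type) [AddCommGroup M] (φ : M →+ E) (lam : ℝ), 0 < lam →
      (∀ x : M, x ≠ 0 → lam ≤ ‖φ x‖) →
    ∀ (Φ : E → ℝ) (L : ℝ), 0 ≤ L → (∀ u v, |Φ u - Φ v| ≤ L * ‖u - v‖) →
      (∀ u, B ≤ ‖u‖ → Φ u = 0) → Φ 0 = 0 →
    ∃ c : ℝ, ∀ y : ℝ, 0 < y →
      |∑' x : M, Φ (y⁻¹ • φ x) - c * y ^ d| ≤ C * L * (y / lam) ^ (d - 1) := by
  obtain ⟨C, hC, hw⟩ := weak B hB d
  obtain ⟨n, rfl⟩ : ∃ n, d = n + 1 := ⟨d - 1, by omega⟩
  have hn : n + 1 - 1 = n := by omega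
  rw [hn]
  refine ⟨C * (1 + B) ^ n, by positivity, ?_⟩
  intro E _ _ _ hdim M _ φ lam hlam hφ Φ L hL hΦ hΦB hΦ0
  obtain ⟨c, hc⟩ := hw E hdim M φ lam hlam hφ Φ L hL hΦ hΦB
  refine ⟨c, fun y hy => ?_⟩
  have hE : ∀ u : ℝ, Err (n + 1) u = (1 + u) ^ n := fun u => rfl
  by_cases hyl : lam / B ≤ y
  · refine (hc y hy).trans ?_
    rw [hE]
    have h1 : 1 ≤ B * (y / lam) := by
      rw [div_le_iff₀ hB] at hyl
      rw [mul_div_assoc', le_div_iff₀ hlam]
      linarith
    have h2 : 1 + y / lam ≤ (1 + B) * (y / lam) := by linarith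
    calc C * L * (1 + y / lam) ^ n ≤ C * L * ((1 + B) * (y / lam)) ^ n := by gcongr
      _ = _ := by rw [mul_pow]; ring
  · push Not at hyl
    have hz : ∀ z : ℝ, 0 < z → z ≤ lam / B → ∑' x : M, Φ (z⁻¹ • φ x) = 0 := by
      intro z hz hzl
      have : ∀ x : M, Φ (z⁻¹ • φ x) = 0 := by
        intro x
        by_cases hx : x = 0
        · rw [hx, map_zero, smul_zero, hΦ0]
        · apply hΦB
          rw [norm_smul, norm_inv, Real.norm_eq_abs, abs_of_pos hz, inv_mul_eq_div,
            le_div_iff₀ hz]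
          rw [le_div_iff₀ hB] at hzl
          have := hφ x hx
          linarith
      simp only [this, tsum_zero]
    rw [hz y hy hyl.le, zero_sub, abs_neg]
    have hy1 : 0 < lam / B := by positivity
    have h1 := hc (lam / B) hy1
    rw [hz _ hy1 le_rfl, zero_sub, abs_neg, hE] at h1
    have hyB : y * B / lam ≤ 1 := by
      rw [div_le_one hlam]
      rw [lt_div_iff₀ hB] at hyl
      exact hyl.le
    have e1 : c * y ^ (n + 1) = (c * (lam / B) ^ (n + 1)) * (y * B / lam) ^ (n + 1) := by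
      rw [mul_assoc, ← mul_pow]
      congr 2
      field_simp
    rw [e1, abs_mul, abs_of_nonneg (show 0 ≤ (y * B / lam) ^ (n + 1) by positivity)]
    calc |c * (lam / B) ^ (n + 1)| * (y * B / lam) ^ (n + 1)
        ≤ (C * L * (1 + lam / B / lam) ^ n) * (y * B / lam) ^ n := by
          apply mul_le_mul h1 _ (by positivity) (by positivity)
          exact pow_le_pow_of_le_one (by positivity) hyB (Nat.le_succ n)
      _ = C * (1 + B) ^ n * L * (y / lam) ^ n := by
          have e2 : (1 + lam / B / lam) * (y * B / lam) = (1 + B) * (y / lam) := by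
            field_simp
            ring
          calc (C * L * (1 + lam / B / lam) ^ n) * (y * B / lam) ^ n
              = C * L * ((1 + lam / B / lam) * (y * B / lam)) ^ n := by rw [mul_pow]; ring
            _ = _ := by rw [e2, mul_pow]; ring

end Pool.ZD
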