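import Pool.Agent.ZD.Scale

/-!
# Module EXPINT: the integral of the truncated inverse power of the Euclidean norm

PAPER PROOF. Put `N = mixedEmbedding.norm x > 0`, `m = finrank ℚ K`, `b_w = |sg t * x|_w > 0`, so
`∏ b_w ^ mult w = N` and `∑ mult w = m` (`sum_mult_eq`). Let `θ_w = log b_w - (log N)/m`, so
`∑ mult w * θ_w = 0`. If `θ = max θ_w` then `m θ ≥ ∑ mult w * θ_w⁺ = (1/2) ∑ mult w * |θ_w|
≥ (1/2) ∑_{w ≠ w₀} mult w * |θ_w|`. For `w ≠ w₀`, `mult w * θ_w = t w + a w` where
`a w = mult w * log |x|_w - mult w * (log N) / m` does not depend on `t` (it is `logMap x w`). As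
`b_w ≤ en (sg t * x)` (`normAtPlace_le_en`):
`en (sg t * x) ≥ N^(1/m) * exp ((1/(2m)) ∑_{w ≠ w₀} |t w + a w|)` (*).
In particular `en (sg t * x) ≤ r` implies `N ≤ r^m`; if `N > r^m` the integrand vanishes. Otherwise
the integrand is `≤ N^(-(2m-2)/m) ∏_{w ≠ w₀} exp (-((m-1)/m) |t w + a w|)` and by translation
invariance and `lintegral_fintype_prod_eq_prod` its integral is
`≤ N^(-(2-2/m)) * (2m/(m-1))^(number of places - 1) ≤ N^(-(2-2/m)) * 4^m`
(`∫ exp (-c|τ|) dτ = 2/c`, `c = (m-1)/m ≥ 1/2`; at most `m` places).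
-/

set_option linter.all false

open scoped NumberField nonZeroDivisors ENNReal
open NumberField NumberField.InfinitePlace NumberField.mixedEmbedding NumberField.Units
  NumberField.Units.dirichletUnitTheorem MeasureTheory

namespace Pool.ZD

namespace ExpInt

theorem int_exp_abs (c : ℝ) (hc : 0 < c) : ∫ x : ℝ, Real.exp (-c * |x|) = 2 / c := by
  rw [integral_comp_abs (f := fun x => Real.exp (-c * x)), integral_exp_mul_Ioi (by linarith) 0]
  simp
  field_simp

theorem integrable_exp_abs (c : ℝ) (hc : 0 < c) :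
    Integrable (fun x : ℝ => Real.exp (-c * |x|)) := by
  by_contra h
  have h1 := integral_undef h
  rw [int_exp_abs c hc] at h1
  have : 0 < 2 / c := by positivity
  linarith

variable (K : Type) [Field K] [NumberField K]

open scoped Classical in
theorem star (t : logSpace K) (x : mixedSpace K) (hx : mixedEmbedding.norm x ≠ 0) :
    Real.log (mixedEmbedding.norm x) / (Module.finrank ℚ K : ℝ) +
      (1 / (2 * (Module.finrank ℚ K : ℝ))) *
        ∑ w : {w : InfinitePlace K // w ≠ w₀}, |t w + logMap x w| ≤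
      Real.log (en K (sg K t * x)) := by
  classical
  set m : ℝ := (Module.finrank ℚ K : ℝ) with hm
  have hmpos : 0 < m := by
    rw [hm]
    exact_mod_cast Module.finrank_pos
  set y : mixedSpace K := sg K t * x with hy
  have hny : mixedEmbedding.norm y = mixedEmbedding.norm x := norm_sg_mul K t x
  have hy0 : mixedEmbedding.norm y ≠ 0 := by rw [hny]; exact hx
  have hNpos : 0 < mixedEmbedding.norm x := lt_of_le_of_ne (mixedEmbedding.norm_nonneg x) (Ne.symm hx)
  have hb0 : ∀ w, normAtPlace w y ≠ 0 := mixedEmbedding.norm_ne_zero_iff.1 hy0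
  have hbpos : ∀ w, 0 < normAtPlace w y := fun w =>
    lt_of_le_of_ne (normAtPlace_nonneg w y) (Ne.symm (hb0 w))
  have hmsum : ∑ w : InfinitePlace K, (mult w : ℝ) = m := by
    rw [hm, ← sum_mult_eq]
    push_cast
    rfl
  set L : ℝ := Real.log (mixedEmbedding.norm x) with hL
  set θ : InfinitePlace K → ℝ := fun w => Real.log (normAtPlace w y) - L / m with hθ
  set E : ℝ := Real.log (en K y) - L / m with hE
  have hsum : ∑ w : InfinitePlace K, (mult w : ℝ) * θ w = 0 := by
    have h1 : ∑ w : InfinitePlace K, (mult w : ℝ) * Real.log (normAtPlace w y) = L := by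
      rw [hL, ← hny, mixedEmbedding.norm_apply, Real.log_prod (fun w _ => pow_ne_zero _ (hb0 w))]
      refine Finset.sum_congr rfl fun w _ => ?_
      rw [Real.log_pow]
    simp only [hθ, mul_sub]
    rw [Finset.sum_sub_distrib, h1, ← Finset.sum_mul, hmsum]
    field_simp
    ring
  have hle : ∀ w, θ w ≤ E := by
    intro w
    have := Real.log_le_log (hbpos w) (normAtPlace_le_en K y w)
    simp only [hθ, hE]
    linarith
  have hE0 : 0 ≤ E := by
    have h1 : ∑ w : InfinitePlace K, (mult w : ℝ) * θ w ≤ ∑ w : InfinitePlace K, (mult w : ℝ) * E :=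
      Finset.sum_le_sum fun w _ => mul_le_mul_of_nonneg_left (hle w) (Nat.cast_nonneg _)
    rw [hsum, ← Finset.sum_mul, hmsum] at h1
    exact nonneg_of_mul_nonneg_right h1 hmpos
  have h2 : ∑ w : InfinitePlace K, (mult w : ℝ) * ((|θ w| + θ w) / 2) ≤ m * E := by
    calc ∑ w : InfinitePlace K, (mult w : ℝ) * ((|θ w| + θ w) / 2)
        ≤ ∑ w : InfinitePlace K, (mult w : ℝ) * E := by
          refine Finset.sum_le_sum fun w _ => mul_le_mul_of_nonneg_left ?_ (Nat.cast_nonneg _)
          rcases abs_cases (θ w) with ⟨h, _⟩ | ⟨h, _⟩ <;> rw [h] <;> linarith [hle w]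
      _ = m * E := by rw [← Finset.sum_mul, hmsum]
  have h3 : ∑ w : InfinitePlace K, (mult w : ℝ) * ((|θ w| + θ w) / 2) =
      (1 / 2) * ∑ w : InfinitePlace K, (mult w : ℝ) * |θ w| := by
    have : ∀ w : InfinitePlace K, (mult w : ℝ) * ((|θ w| + θ w) / 2) =
        (1 / 2) * ((mult w : ℝ) * |θ w|) + (1 / 2) * ((mult w : ℝ) * θ w) := fun w => by ring
    simp only [this]
    rw [Finset.sum_add_distrib, ← Finset.mul_sum, ← Finset.mul_sum, hsum]
    ring
  have h4 : ∑ w : {w : InfinitePlace K // w ≠ w₀}, |t w + logMap x w| ≤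
      ∑ w : InfinitePlace K, (mult w : ℝ) * |θ w| := by
    have h5 : ∀ w : {w : InfinitePlace K // w ≠ w₀}, |t w + logMap x w| =
        (mult w.1 : ℝ) * |θ w.1| := by
      intro w
      have h6 : t w + logMap x w = logMap y w := by
        have h7 : mixedEmbedding.norm (sg K t) ≠ 0 := by rw [norm_sg]; exact one_ne_zero
        rw [hy, logMap_mul h7 hx, logMap_sg]
        rfl
      rw [h6, logMap_apply, hny, ← abs_of_nonneg (Nat.cast_nonneg (mult w.1) : (0:ℝ) ≤ _),
        ← abs_mul]
      simp only [hθ, abs_abs]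
      rw [abs_of_nonneg (Nat.cast_nonneg (mult w.1) : (0:ℝ) ≤ _), div_eq_mul_inv]
    simp only [h5]
    rw [← Fintype.sum_subtype_add_sum_subtype (fun w : InfinitePlace K => w ≠ w₀)
      (fun w : InfinitePlace K => (mult w : ℝ) * |θ w|)]
    have h11 : 0 ≤ ∑ i : {w : InfinitePlace K // ¬ w ≠ w₀}, (mult i.1 : ℝ) * |θ i.1| :=
      Finset.sum_nonneg fun i _ => mul_nonneg (Nat.cast_nonneg _) (abs_nonneg _)
    linarith
  have h8 : (1 / 2) * ∑ w : {w : InfinitePlace K // w ≠ w₀}, |t w + logMap x w| ≤ m * E := by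
    linarith
  have h9 : (1 / (2 * m)) * ∑ w : {w : InfinitePlace K // w ≠ w₀}, |t w + logMap x w| ≤ E := by
    have h10 : (1 / (2 * m)) * ∑ w : {w : InfinitePlace K // w ≠ w₀}, |t w + logMap x w| =
        ((1 / 2) * ∑ w : {w : InfinitePlace K // w ≠ w₀}, |t w + logMap x w|) / m := by
      field_simp
    rw [h10, div_le_iff₀ hmpos]
    linarith
  simp only [hE] at h9
  linarith

open scoped Classical in
theorem card_le : Fintype.card {w : InfinitePlace K // w ≠ w₀} ≤ Module.finrank ℚ K := by
  calc Fintype.card {w : InfinitePlace K // w ≠ w₀} ≤ Fintype.card (InfinitePlace K) :=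
        Fintype.card_subtype_le _
    _ = ∑ w : InfinitePlace K, 1 := by simp
    _ ≤ ∑ w : InfinitePlace K, mult w := Finset.sum_le_sum fun w _ => mult_pos
    _ = _ := sum_mult_eq

/-- the product of exponentials -/
theorem prod_int {ι : Type*} [Fintype ι] (c : ℝ) (hc : 0 < c) (a : ι → ℝ) :
    ∫⁻ t : ι → ℝ, ENNReal.ofReal (∏ w, Real.exp (-c * |t w + a w|)) =
      ENNReal.ofReal ((2 / c) ^ Fintype.card ι) := by
  have hint : ∀ w, Integrable (fun τ : ℝ => Real.exp (-c * |τ + a w|)) := fun w =>
    (integrable_exp_abs c hc).comp_add_right (a w)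
  rw [← ofReal_integral_eq_lintegral_ofReal]
  · congr 1
    rw [integral_fintype_prod_volume_eq_prod (f := fun w (τ : ℝ) => Real.exp (-c * |τ + a w|))]
    have h1 : ∀ w, ∫ τ : ℝ, Real.exp (-c * |τ + a w|) = 2 / c := by
      intro w
      rw [integral_add_right_eq_self (fun τ : ℝ => Real.exp (-c * |τ|)) (a w)]
      exact int_exp_abs c hc
    simp only [h1, Finset.prod_const, Finset.card_univ]
  · exact Integrable.fintype_prod hint
  · exact Filter.Eventually.of_forall fun t => Finset.prod_nonneg fun w _ => (Real.exp_pos _).le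

end ExpInt

open scoped Classical in
theorem exp_integral (m : ℕ) (hm : 2 ≤ m) : ∃ C : ℝ, 0 < C ∧
    ∀ (K : Type) [Field K] [NumberField K], Module.finrank ℚ K = m →
    ∀ r : ℝ, 0 < r → ∀ x : mixedSpace K, mixedEmbedding.norm x ≠ 0 →
      ∫⁻ t : logSpace K, (if en K (sg K t * x) ≤ r then
        ENNReal.ofReal ((en K (sg K t * x))⁻¹ ^ (2 * m - 2)) else 0) ≤
      if mixedEmbedding.norm x ≤ r ^ m then
        ENNReal.ofReal (C * (mixedEmbedding.norm x) ^ (-(2 - 2 / (m : ℝ)))) else 0 := by
  refine ⟨4 ^ m, by positivity, ?_⟩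
  intro K _ _ hK r hr x hx
  have hm2 : (2 : ℝ) ≤ m := by exact_mod_cast hm
  have hmpos : (0 : ℝ) < m := by linarith
  have hNpos : 0 < mixedEmbedding.norm x :=
    lt_of_le_of_ne (mixedEmbedding.norm_nonneg x) (Ne.symm hx)
  set L : ℝ := Real.log (mixedEmbedding.norm x) with hL
  have hstar : ∀ t : logSpace K, L / m + (1 / (2 * m)) *
      ∑ w : {w : InfinitePlace K // w ≠ w₀}, |t w + logMap x w| ≤
      Real.log (en K (sg K t * x)) := by
    intro t
    have := ExpInt.star K t x hx
    rwa [hK] at this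
  have henpos : ∀ t : logSpace K, 0 < en K (sg K t * x) := by
    intro t
    apply en_pos
    intro h
    have h1 := norm_sg_mul K t x
    rw [h, map_zero] at h1
    exact hx h1.symm
  have hsumnn : ∀ t : logSpace K, 0 ≤ ∑ w : {w : InfinitePlace K // w ≠ w₀}, |t w + logMap x w| :=
    fun t => Finset.sum_nonneg fun w _ => abs_nonneg _
  by_cases hN : mixedEmbedding.norm x ≤ r ^ m
  · rw [if_pos hN]
    set c : ℝ := (m - 1) / m with hc
    have hcpos : 0 < c := by
      rw [hc]; apply div_pos <;> linarith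
    have hbound : ∀ t : logSpace K, (if en K (sg K t * x) ≤ r then
        ENNReal.ofReal ((en K (sg K t * x))⁻¹ ^ (2 * m - 2)) else 0) ≤
        ENNReal.ofReal ((mixedEmbedding.norm x) ^ (-(2 - 2 / (m : ℝ)))) *
          ENNReal.ofReal (∏ w : {w : InfinitePlace K // w ≠ w₀},
            Real.exp (-c * |t w + logMap x w|)) := by
      intro t
      split_ifs
      · rw [← ENNReal.ofReal_mul (by positivity)]
        apply ENNReal.ofReal_le_ofReal
        rw [← Real.exp_sum, ← Finset.mul_sum, Real.rpow_def_of_pos hNpos, ← Real.exp_add,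
          ← Real.exp_log (inv_pos.2 (henpos t)), ← Real.exp_nat_mul, Real.exp_le_exp,
          Real.log_inv]
        have h1 := hstar t
        have h2 : ((2 * m - 2 : ℕ) : ℝ) = 2 * m - 2 := by
          have : 2 ≤ 2 * m := by omega
          push_cast [Nat.cast_sub this]
          ring
        rw [h2]
        have h3 : (2 * (m : ℝ) - 2) * (L / m + (1 / (2 * m)) *
            ∑ w : {w : InfinitePlace K // w ≠ w₀}, |t w + logMap x w|) ≤
            (2 * (m : ℝ) - 2) * Real.log (en K (sg K t * x)) :=
          mul_le_mul_of_nonneg_left h1 (by linarith)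
        have h4 : (2 * (m : ℝ) - 2) * (L / m + (1 / (2 * m)) *
            ∑ w : {w : InfinitePlace K // w ≠ w₀}, |t w + logMap x w|) =
            L * (2 - 2 / m) + c *
            ∑ w : {w : InfinitePlace K // w ≠ w₀}, |t w + logMap x w| := by
          rw [hc]
          field_simp
        rw [h4] at h3
        nlinarith [h3]
      · exact bot_le
    calc _ ≤ ∫⁻ t : logSpace K, ENNReal.ofReal ((mixedEmbedding.norm x) ^ (-(2 - 2 / (m : ℝ)))) *
          ENNReal.ofReal (∏ w : {w : InfinitePlace K // w ≠ w₀},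
            Real.exp (-c * |t w + logMap x w|)) := lintegral_mono hbound
      _ = ENNReal.ofReal ((mixedEmbedding.norm x) ^ (-(2 - 2 / (m : ℝ)))) *
          ENNReal.ofReal ((2 / c) ^ Fintype.card {w : InfinitePlace K // w ≠ w₀}) := by
        rw [lintegral_const_mul' _ _ ENNReal.ofReal_ne_top, ExpInt.prod_int c hcpos]
      _ ≤ _ := by
        rw [← ENNReal.ofReal_mul (by positivity)]
        apply ENNReal.ofReal_le_ofReal
        rw [mul_comm]
        apply mul_le_mul_of_nonneg_right _ (by positivity)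
        have h5 : 2 / c ≤ 4 := by
          rw [div_le_iff₀ hcpos, hc]
          rw [mul_div_assoc', le_div_iff₀ hmpos]
          linarith
        have h6 : Fintype.card {w : InfinitePlace K // w ≠ w₀} ≤ m := hK ▸ ExpInt.card_le K
        calc (2 / c) ^ Fintype.card {w : InfinitePlace K // w ≠ w₀}
            ≤ 4 ^ Fintype.card {w : InfinitePlace K // w ≠ w₀} :=
              pow_le_pow_left₀ (by positivity) h5 _
          _ ≤ 4 ^ m := pow_le_pow_right₀ (by norm_num) h6
  · rw [if_neg hN]
    have hzero : ∀ t : logSpace K, ¬ (en K (sg K t * x) ≤ r) := by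
      intro t hle
      apply hN
      have h1 := hstar t
      have h2 : L / m ≤ Real.log (en K (sg K t * x)) := by
        have : 0 ≤ (1 / (2 * (m : ℝ))) *
            ∑ w : {w : InfinitePlace K // w ≠ w₀}, |t w + logMap x w| :=
          mul_nonneg (by positivity) (hsumnn t)
        linarith
      have h3 : Real.log (en K (sg K t * x)) ≤ Real.log r := Real.log_le_log (henpos t) hle
      have h4 : L ≤ m * Real.log r := by
        have : L / m ≤ Real.log r := h2.trans h3
        rw [div_le_iff₀ hmpos] at this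
        linarith
      rw [← Real.log_pow] at h4
      exact (Real.log_le_log_iff hNpos (by positivity)).1 h4
    simp only [hzero, if_false]
    simp

end Pool.ZD
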