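import Pool.Agent.ZD.Scale

/-!
# Module TESTINT: the integral of the test function over the logarithmic space

PAPER PROOF. `mixedEmbedding.norm (sg t * x) = mixedEmbedding.norm x` (`norm_sg_mul`) and for `w ≠ w₀`
`normAtPlace w (sg t * x) = exp (t w / mult w) * normAtPlace w x`, with `normAtPlace w x > 0`. So
`Phi g (sg t * x) = g (norm x) * ∏_{w ≠ w₀} psi (exp (t w / mult w) * |x|_w)` and by
`MeasureTheory.lintegral_fintype_prod_eq_prod` (or the Bochner version
`integral_fintype_prod_eq_prod`, everything is nonnegative, bounded, compactly supported) the integral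
is `g (norm x) * ∏_{w ≠ w₀} ∫ psi (exp (τ / mult w) * |x|_w) dτ`; substituting
`τ = mult w * (σ - log |x|_w)` each factor is `mult w * cψ`, `cψ = ∫ psi (exp σ) dσ`. As
`psi (exp σ) ≥ 1/2` for `exp σ ∈ [3/2, 5/2]`, `cψ ≥ (log (5/3)) / 2 > 0`; so with
`cK = ∏_{w ≠ w₀} (mult w * cψ)` one has `cK ≥ (min 1 cψ) ^ m`, since there are at most `m` places
(`card_add_two_mul_card_eq_rank`, `card_eq_nrRealPlaces_add_nrComplexPlaces`).
-/

set_option linter.all false

open scoped NumberField nonZeroDivisors ENNReal
open NumberField NumberField.InfinitePlace NumberField.mixedEmbedding NumberField.Units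
  NumberField.Units.dirichletUnitTheorem MeasureTheory

namespace Pool.ZD

namespace TestInt

theorem psi_nonneg (v : ℝ) : 0 ≤ psi v := le_max_left _ _

theorem continuous_psi : Continuous psi := by
  unfold psi
  fun_prop

theorem psi_eq_zero {v : ℝ} (h : v ≤ 1 ∨ 3 ≤ v) : psi v = 0 := by
  unfold psi
  apply max_eq_left
  rcases h with h | h
  · rw [abs_of_nonpos (by linarith)]; linarith
  · rw [abs_of_nonneg (by linarith)]; linarith

/-- `psi (exp σ)` -/
noncomputable def fe (σ : ℝ) : ℝ := psi (Real.exp σ)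

theorem continuous_fe : Continuous fe := continuous_psi.comp Real.continuous_exp

theorem hcs_fe : HasCompactSupport fe := by
  apply HasCompactSupport.intro (isCompact_Icc (a := (0:ℝ)) (b := Real.log 3))
  intro x hx
  apply psi_eq_zero
  rw [Set.mem_Icc, not_and_or, not_le, not_le] at hx
  rcases hx with hx | hx
  · left
    have := Real.exp_le_exp.2 hx.le
    rwa [Real.exp_zero] at this
  · right
    have := Real.exp_lt_exp.2 hx
    rw [Real.exp_log (by norm_num)] at this
    exact this.le

theorem integrable_fe : Integrable fe := continuous_fe.integrable_of_hasCompactSupport hcs_fe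

noncomputable def cpsi : ℝ := ∫ σ : ℝ, fe σ

theorem cpsi_pos : 0 < cpsi := by
  unfold cpsi
  apply continuous_fe.integral_pos_of_hasCompactSupport_nonneg_nonzero hcs_fe
    (fun x => psi_nonneg _) (x := Real.log 2)
  unfold fe
  rw [Real.exp_log (by norm_num)]
  unfold psi
  norm_num

theorem integrable_factor {b k : ℝ} (hb : 0 < b) (hk : 0 < k) :
    Integrable (fun τ : ℝ => psi (Real.exp (τ / k) * b)) := by
  have h1 : (fun τ : ℝ => psi (Real.exp (τ / k) * b)) = fun τ => fe (τ / k + Real.log b) := by
    funext τ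
    unfold fe
    rw [Real.exp_add, Real.exp_log hb]
  rw [h1]
  exact (integrable_fe.comp_add_right (Real.log b)).comp_div hk.ne'

theorem integral_factor {b k : ℝ} (hb : 0 < b) (hk : 0 < k) :
    ∫ τ : ℝ, psi (Real.exp (τ / k) * b) = k * cpsi := by
  have h1 : (fun τ : ℝ => psi (Real.exp (τ / k) * b)) = fun τ => fe (τ / k + Real.log b) := by
    funext τ
    unfold fe
    rw [Real.exp_add, Real.exp_log hb]
  rw [h1, Measure.integral_comp_div (fun u => fe (u + Real.log b)) k,
    integral_add_right_eq_self (fun u => fe u) (Real.log b), abs_of_pos hk]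
  rfl

end TestInt

open scoped Classical in
theorem Phi_integral (m : ℕ) : ∃ c : ℝ, 0 < c ∧
    ∀ (K : Type) [Field K] [NumberField K], Module.finrank ℚ K = m →
    ∃ cK : ℝ, c ≤ cK ∧ ∀ (g : ℝ → ℝ), (∀ u, 0 ≤ g u) →
      ∀ x : mixedSpace K, mixedEmbedding.norm x ≠ 0 →
      ∫⁻ t : logSpace K, ENNReal.ofReal (Phi K g (sg K t * x)) =
        ENNReal.ofReal (cK * g (mixedEmbedding.norm x)) := by
  refine ⟨(min 1 TestInt.cpsi) ^ m, pow_pos (lt_min one_pos TestInt.cpsi_pos) _, ?_⟩
  intro K _ _ hK
  refine ⟨∏ w : {w : InfinitePlace K // w ≠ w₀}, ((mult w.1 : ℝ) * TestInt.cpsi), ?_, ?_⟩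
  · have hmin : 0 < min 1 TestInt.cpsi := lt_min one_pos TestInt.cpsi_pos
    have hcard : Fintype.card {w : InfinitePlace K // w ≠ w₀} ≤ m := by
      rw [← hK]
      calc Fintype.card {w : InfinitePlace K // w ≠ w₀} ≤ Fintype.card (InfinitePlace K) :=
            Fintype.card_subtype_le _
        _ = ∑ w : InfinitePlace K, 1 := by simp
        _ ≤ ∑ w : InfinitePlace K, mult w := Finset.sum_le_sum fun w _ => mult_pos
        _ = _ := sum_mult_eq
    calc (min 1 TestInt.cpsi) ^ m ≤
          (min 1 TestInt.cpsi) ^ Fintype.card {w : InfinitePlace K // w ≠ w₀} :=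
          pow_le_pow_of_le_one hmin.le (min_le_left _ _) hcard
      _ = ∏ w : {w : InfinitePlace K // w ≠ w₀}, min 1 TestInt.cpsi := by
          rw [Finset.prod_const, Finset.card_univ]
      _ ≤ _ := by
          apply Finset.prod_le_prod (fun w _ => hmin.le)
          intro w _
          have h1 : (1 : ℝ) ≤ (mult w.1 : ℝ) := by exact_mod_cast (mult_pos : 0 < mult w.1)
          calc min 1 TestInt.cpsi ≤ 1 * TestInt.cpsi := by rw [one_mul]; exact min_le_right _ _
            _ ≤ _ := mul_le_mul_of_nonneg_right h1 TestInt.cpsi_pos.le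
  · intro g hg x hx
    have hb0 : ∀ w, normAtPlace w x ≠ 0 := mixedEmbedding.norm_ne_zero_iff.1 hx
    have hbpos : ∀ w, 0 < normAtPlace w x := fun w =>
      lt_of_le_of_ne (normAtPlace_nonneg w x) (Ne.symm (hb0 w))
    have hmpos : ∀ w : InfinitePlace K, (0 : ℝ) < (mult w : ℝ) := fun w => by
      exact_mod_cast (mult_pos : 0 < mult w)
    have hPhi : ∀ t : logSpace K, ENNReal.ofReal (Phi K g (sg K t * x)) =
        ENNReal.ofReal (g (mixedEmbedding.norm x)) *
          ENNReal.ofReal (∏ w : {w : InfinitePlace K // w ≠ w₀},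
            psi (Real.exp (t w / mult w.1) * normAtPlace w.1 x)) := by
      intro t
      rw [← ENNReal.ofReal_mul (hg _)]
      congr 1
      unfold Phi
      rw [norm_sg_mul]
      congr 1
      refine Finset.prod_congr rfl fun w _ => ?_
      rw [normAtPlace_sg_mul]
      unfold sc
      rw [dif_neg w.2]
    simp only [hPhi]
    rw [lintegral_const_mul' _ _ ENNReal.ofReal_ne_top, mul_comm (∏ w, _) _, ENNReal.ofReal_mul (hg _)]
    congr 1
    rw [← ofReal_integral_eq_lintegral_ofReal]
    · congr 1
      rw [integral_fintype_prod_volume_eq_prod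
        (f := fun (w : {w : InfinitePlace K // w ≠ w₀}) (τ : ℝ) =>
          psi (Real.exp (τ / mult w.1) * normAtPlace w.1 x))]
      refine Finset.prod_congr rfl fun w _ => ?_
      exact TestInt.integral_factor (hbpos w.1) (hmpos w.1)
    · exact Integrable.fintype_prod
        (f := fun (w : {w : InfinitePlace K // w ≠ w₀}) (τ : ℝ) =>
          psi (Real.exp (τ / mult w.1) * normAtPlace w.1 x))
        fun w => TestInt.integrable_factor (hbpos w.1) (hmpos w.1)
    · exact Filter.Eventually.of_forall fun t => Finset.prod_nonneg fun w _ => TestInt.psi_nonneg _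

end Pool.ZD
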