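import Pool.Agent.ZD.Defs

/-!
# Module ABELLIM: smooth averages from the counting function

PAPER PROOF. `A s = Nat.card {i // N i ≤ s}`, `A s / s → ρ`. Given `n ≥ 1` put `u_k = 1 + 3k/n`,
`k = 0, …, n`. As `g` is supported in `[1,4]` and `G`-Lipschitz,
`|∑' i, g (N i/Z) - ∑_{k<n} g (u_k) (A (u_{k+1} Z) - A (u_k Z))| ≤ G (3/n) (A (4Z) - A (Z))`
(each `i` with `Z < N i ≤ 4Z` lies in exactly one of the intervals `(u_k Z, u_{k+1} Z]`; the others do not
contribute). Divide by `Z`, `Z → ∞`: `limsup |Z⁻¹ ∑' i, g (N i/Z) - ρ ∑_k g (u_k) (3/n)| ≤ 9 G ρ/n`,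
and `|∑_k g (u_k) (3/n) - ∫ g| ≤ 9 G/n`. Let `n → ∞`. (`A` takes finite values by `hfin`; the tsum is a
finite sum, `N i > 0`.)
-/

open Filter Topology

namespace Pool.ZD

namespace AbelLim

/-- The indicator of `x ≤ s`. -/
noncomputable def ind (x s : ℝ) : ℝ := by
  classical exact if x ≤ s then 1 else 0

/-- The subdivision points. -/
noncomputable def pt (n k : ℕ) : ℝ := 1 + 3 * k / n

lemma pt_zero (n : ℕ) : pt n 0 = 1 := by simp [pt]

lemma pt_last {n : ℕ} (hn : 0 < n) : pt n n = 4 := by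
  have : (n : ℝ) ≠ 0 := by positivity
  unfold pt
  field_simp
  norm_num

lemma pt_pos (n k : ℕ) : 0 < pt n k := by unfold pt; positivity

lemma pt_succ {n : ℕ} (hn : 0 < n) (k : ℕ) : pt n (k + 1) = pt n k + 3 / n := by
  have : (n : ℝ) ≠ 0 := by positivity
  unfold pt
  push_cast
  field_simp
  ring

lemma pt_le {n : ℕ} (hn : 0 < n) {k : ℕ} (hk : k ≤ n) : pt n k ≤ 4 := by
  rw [← pt_last hn]
  unfold pt
  have : (k : ℝ) ≤ n := by exact_mod_cast hk
  gcongr

lemma ind_mono {x s t : ℝ} (h : s ≤ t) : ind x s ≤ ind x t := by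
  unfold ind
  split_ifs with h1 h2 h2
  · exact le_rfl
  · exact absurd (h1.trans h) h2
  · exact zero_le_one
  · exact le_rfl

lemma point_bound {G : ℝ} {g : ℝ → ℝ} (hg : Nice G g) {n : ℕ} (hn : 0 < n) (x : ℝ) :
    |g x - ∑ k ∈ Finset.range n, g (pt n k) * (ind x (pt n (k + 1)) - ind x (pt n k))| ≤
      G * (3 / n) * (ind x 4 - ind x 1) := by
  obtain ⟨hG, hlip, hsupp⟩ := hg
  have htel : ∑ k ∈ Finset.range n, (ind x (pt n (k + 1)) - ind x (pt n k)) =
      ind x 4 - ind x 1 := by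
    rw [Finset.sum_range_sub (fun k => ind x (pt n k)), pt_last hn, pt_zero]
  have hgx : g x = g x * (ind x 4 - ind x 1) := by
    by_cases h1 : x ≤ 1
    · rw [hsupp x (Or.inl h1)]; ring
    · by_cases h4 : x ≤ 4
      · unfold ind; rw [if_pos h4, if_neg h1]; ring
      · rw [hsupp x (Or.inr (le_of_not_ge h4))]; ring
  have heq : g x - ∑ k ∈ Finset.range n, g (pt n k) * (ind x (pt n (k + 1)) - ind x (pt n k)) =
      ∑ k ∈ Finset.range n, (g x - g (pt n k)) * (ind x (pt n (k + 1)) - ind x (pt n k)) := by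
    conv_lhs => rw [hgx]
    rw [← htel, Finset.mul_sum, ← Finset.sum_sub_distrib]
    refine Finset.sum_congr rfl fun k _ => by ring
  rw [heq, ← htel, Finset.mul_sum]
  refine (Finset.abs_sum_le_sum_abs _ _).trans (Finset.sum_le_sum fun k _ => ?_)
  have hn' : (0 : ℝ) < n := by exact_mod_cast hn
  have hst : pt n k ≤ pt n (k + 1) := by
    rw [pt_succ hn]; have : (0 : ℝ) ≤ 3 / n := by positivity
    linarith
  have hnn : 0 ≤ ind x (pt n (k + 1)) - ind x (pt n k) := sub_nonneg.2 (ind_mono hst)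
  rw [abs_mul, abs_of_nonneg hnn]
  by_cases h1 : x ≤ pt n k
  · have : ind x (pt n (k + 1)) - ind x (pt n k) = 0 := by
      unfold ind; rw [if_pos h1, if_pos (h1.trans hst)]; ring
    rw [this]; simp
  · by_cases h2 : x ≤ pt n (k + 1)
    · refine mul_le_mul_of_nonneg_right ?_ hnn
      have h3 := hlip x (pt n k)
      rw [Real.norm_eq_abs] at h3
      refine h3.trans (mul_le_mul_of_nonneg_left ?_ hG)
      rw [abs_le]
      rw [pt_succ hn] at h2
      have : (0 : ℝ) ≤ 3 / n := by positivity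
      constructor <;> linarith
    · have : ind x (pt n (k + 1)) - ind x (pt n k) = 0 := by
        unfold ind; rw [if_neg h1, if_neg h2]; ring
      rw [this]; simp

lemma card_eq {ι : Type} {N : ι → ℝ} (hfin : ∀ s : ℝ, {i | N i ≤ s}.Finite) {Z : ℝ} (hZ : 0 < Z)
    {s : ℝ} (hs : s ≤ 4) :
    (Nat.card {i // N i ≤ s * Z} : ℝ) = ∑ i ∈ (hfin (4 * Z)).toFinset, ind (N i / Z) s := by
  classical
  have h1 : Nat.card {i // N i ≤ s * Z} = (hfin (s * Z)).toFinset.card :=
    Nat.card_eq_card_finite_toFinset (hfin (s * Z))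
  rw [h1]
  unfold ind
  rw [← Finset.sum_filter, Finset.sum_const, nsmul_eq_mul, mul_one]
  congr 2
  ext i
  simp only [Set.Finite.mem_toFinset, Set.mem_ofPred_eq, Finset.mem_filter, div_le_iff₀ hZ]
  constructor
  · intro h
    exact ⟨h.trans (mul_le_mul_of_nonneg_right hs hZ.le), h⟩
  · exact fun h => h.2

lemma riemann {G : ℝ} {g : ℝ → ℝ} (hg : Nice G g) {n : ℕ} (hn : 0 < n) :
    |(∑ k ∈ Finset.range n, g (pt n k) * (pt n (k + 1) - pt n k)) - ∫ u, g u| ≤ 9 * G / n := by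
  obtain ⟨hG, hlip, hsupp⟩ := hg
  have hn' : (0 : ℝ) < n := by exact_mod_cast hn
  have hcont : Continuous g := by
    refine (LipschitzWith.of_dist_le_mul (K := ⟨G, hG⟩) fun u v => ?_).continuous
    rw [Real.dist_eq, Real.dist_eq, ← Real.norm_eq_abs]
    exact hlip u v
  have h1 : ∫ u, g u = ∫ u in (1 : ℝ)..4, g u := by
    symm
    refine intervalIntegral.integral_eq_integral_of_support_subset ?_
    intro u hu
    rw [Function.mem_support] at hu
    constructor
    · by_contra h; exact hu (hsupp u (Or.inl (not_lt.1 h)))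
    · by_contra h; exact hu (hsupp u (Or.inr (not_le.1 h).le))
  have h2 : ∫ u in (1 : ℝ)..4, g u =
      ∑ k ∈ Finset.range n, ∫ u in (pt n k)..(pt n (k + 1)), g u := by
    rw [intervalIntegral.sum_integral_adjacent_intervals
      (fun k _ => hcont.intervalIntegrable _ _), pt_zero, pt_last hn]
  rw [h1, h2, ← Finset.sum_sub_distrib]
  refine (Finset.abs_sum_le_sum_abs _ _).trans ?_
  have h3 : ∀ k ∈ Finset.range n, |g (pt n k) * (pt n (k + 1) - pt n k) -
      ∫ u in (pt n k)..(pt n (k + 1)), g u| ≤ G * (3 / n) * (3 / n) := by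
    intro k _
    have h4 : g (pt n k) * (pt n (k + 1) - pt n k) - ∫ u in (pt n k)..(pt n (k + 1)), g u =
        ∫ u in (pt n k)..(pt n (k + 1)), (g (pt n k) - g u) := by
      rw [intervalIntegral.integral_sub (by simp) (hcont.intervalIntegrable _ _)]
      simp [mul_comm]
    rw [h4, ← Real.norm_eq_abs]
    have h5 : pt n (k + 1) - pt n k = 3 / n := by rw [pt_succ hn]; ring
    have h6 := intervalIntegral.norm_integral_le_of_norm_le_const (a := pt n k)
      (b := pt n (k + 1)) (C := G * (3 / n)) (f := fun u => g (pt n k) - g u) ?_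
    · rwa [h5, abs_of_nonneg (by positivity : (0 : ℝ) ≤ 3 / n)] at h6
    · intro u hu
      refine (hlip (pt n k) u).trans (mul_le_mul_of_nonneg_left ?_ hG)
      rw [Set.uIoc_of_le (by have : (0 : ℝ) ≤ 3 / n := by positivity
                             linarith)] at hu
      rw [abs_le]
      constructor <;> linarith [hu.1, hu.2, h5]
  refine (Finset.sum_le_sum h3).trans ?_
  rw [Finset.sum_const, Finset.card_range, nsmul_eq_mul]
  apply le_of_eq
  field_simp
  ring

end AbelLim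

open AbelLim

theorem abel_limit {ι : Type} (N : ι → ℝ) (hN : ∀ i, 0 < N i)
    (hfin : ∀ s : ℝ, {i | N i ≤ s}.Finite) (ρ : ℝ)
    (h : Tendsto (fun s : ℝ => (Nat.card {i // N i ≤ s} : ℝ) / s) atTop (𝓝 ρ))
    (G : ℝ) (g : ℝ → ℝ) (hg : Nice G g) :
    Tendsto (fun Z : ℝ => (∑' i, g (N i / Z)) / Z) atTop (𝓝 (ρ * ∫ u, g u)) := by
  have _ := hN
  have hG : 0 ≤ G := hg.1
  set A : ℝ → ℝ := fun s => (Nat.card {i // N i ≤ s} : ℝ) with hA
  -- scaled counting function
  have hscale : ∀ s : ℝ, 0 < s → Tendsto (fun Z : ℝ => A (s * Z) / Z) atTop (𝓝 (s * ρ)) := by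
    intro s hs
    have h1 : Tendsto (fun Z : ℝ => s * (A (s * Z) / (s * Z))) atTop (𝓝 (s * ρ)) :=
      (h.comp (tendsto_id.const_mul_atTop hs)).const_mul s
    refine h1.congr' ?_
    filter_upwards [eventually_gt_atTop 0] with Z hZ
    field_simp
  -- the finite sum
  have hsum : ∀ Z : ℝ, 0 < Z → ∑' i, g (N i / Z) =
      ∑ i ∈ (hfin (4 * Z)).toFinset, g (N i / Z) := by
    intro Z hZ
    refine tsum_eq_sum fun i hi => hg.2.2 _ (Or.inr ?_)
    simp only [Set.Finite.mem_toFinset, Set.mem_ofPred_eq, not_le] at hi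
    rw [le_div_iff₀ hZ]
    exact hi.le
  -- main bound
  have hmain : ∀ n : ℕ, 0 < n → ∀ Z : ℝ, 0 < Z →
      |∑' i, g (N i / Z) - ∑ k ∈ Finset.range n, g (pt n k) * (A (pt n (k + 1) * Z) -
        A (pt n k * Z))| ≤ G * (3 / n) * (A (4 * Z) - A (1 * Z)) := by
    intro n hn Z hZ
    have e1 : ∑ k ∈ Finset.range n, g (pt n k) * (A (pt n (k + 1) * Z) - A (pt n k * Z)) =
        ∑ i ∈ (hfin (4 * Z)).toFinset, ∑ k ∈ Finset.range n,
          g (pt n k) * (ind (N i / Z) (pt n (k + 1)) - ind (N i / Z) (pt n k)) := by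
      rw [Finset.sum_comm]
      refine Finset.sum_congr rfl fun k hk => ?_
      rw [← Finset.mul_sum, Finset.sum_sub_distrib]
      have hk' := Finset.mem_range.1 hk
      simp only [hA]
      rw [card_eq hfin hZ (pt_le hn hk'), card_eq hfin hZ (pt_le hn hk'.le)]
    have e2 : A (4 * Z) - A (1 * Z) = ∑ i ∈ (hfin (4 * Z)).toFinset,
        (ind (N i / Z) 4 - ind (N i / Z) 1) := by
      simp only [hA]
      rw [Finset.sum_sub_distrib, card_eq hfin hZ le_rfl,
        card_eq hfin hZ (by norm_num : (1 : ℝ) ≤ 4)]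
    rw [hsum Z hZ, e1, e2, ← Finset.sum_sub_distrib, Finset.mul_sum]
    refine (Finset.abs_sum_le_sum_abs _ _).trans (Finset.sum_le_sum fun i _ => ?_)
    exact point_bound hg hn _
  rw [Metric.tendsto_nhds]
  intro ε hε
  obtain ⟨n, hn⟩ := exists_nat_gt (18 * G * |ρ| / ε)
  have hn0 : (0 : ℝ) < n := lt_of_le_of_lt (by positivity) hn
  have hnpos : 0 < n := by exact_mod_cast hn0
  set R : ℝ := ∑ k ∈ Finset.range n, g (pt n k) * (pt n (k + 1) - pt n k) with hR
  have hT : Tendsto (fun Z : ℝ => ∑ k ∈ Finset.range n, g (pt n k) *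
      (A (pt n (k + 1) * Z) / Z - A (pt n k * Z) / Z)) atTop (𝓝 (ρ * R)) := by
    have : ρ * R = ∑ k ∈ Finset.range n, g (pt n k) * (pt n (k + 1) * ρ - pt n k * ρ) := by
      rw [hR, Finset.mul_sum]
      refine Finset.sum_congr rfl fun k _ => by ring
    rw [this]
    refine tendsto_finsetSum _ fun k _ => ?_
    exact ((hscale _ (pt_pos n (k + 1))).sub (hscale _ (pt_pos n k))).const_mul _
  have hH : Tendsto (fun Z : ℝ => G * (3 / n) * (A (4 * Z) / Z - A (1 * Z) / Z) +
      |(∑ k ∈ Finset.range n, g (pt n k) *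
      (A (pt n (k + 1) * Z) / Z - A (pt n k * Z) / Z)) - ρ * R| + |ρ| * (9 * G / n)) atTop
      (𝓝 (G * (3 / n) * (4 * ρ - 1 * ρ) + |ρ * R - ρ * R| + |ρ| * (9 * G / n))) := by
    refine Tendsto.add_const _ (Tendsto.add ?_ ?_)
    · exact ((hscale 4 (by norm_num)).sub (hscale 1 (by norm_num))).const_mul _
    · exact (hT.sub_const _).abs
  have hlt : G * (3 / n) * (4 * ρ - 1 * ρ) + |ρ * R - ρ * R| + |ρ| * (9 * G / n) < ε := by
    have h1 : G * (3 / n) * (4 * ρ - 1 * ρ) ≤ |ρ| * (9 * G / n) := by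
      have : ρ ≤ |ρ| := le_abs_self ρ
      calc G * (3 / n) * (4 * ρ - 1 * ρ) = ρ * (9 * G / n) := by ring
        _ ≤ |ρ| * (9 * G / n) := by gcongr
    have h2 : |ρ * R - ρ * R| = 0 := by simp
    have h3 : |ρ| * (9 * G / n) + |ρ| * (9 * G / n) < ε := by
      rw [div_lt_iff₀ hε] at hn
      have : |ρ| * (9 * G / n) + |ρ| * (9 * G / n) = (18 * G * |ρ|) / n := by ring
      rw [this, div_lt_iff₀ hn0]
      linarith
    linarith
  filter_upwards [hH.eventually_lt_const hlt, eventually_gt_atTop (0 : ℝ)] with Z hZ hZ0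
  refine lt_of_le_of_lt ?_ hZ
  rw [Real.dist_eq]
  have hb := hmain n hnpos Z hZ0
  have hr := riemann hg hnpos
  have e3 : (∑' i, g (N i / Z)) / Z - ρ * ∫ u, g u =
      ((∑' i, g (N i / Z)) - ∑ k ∈ Finset.range n, g (pt n k) * (A (pt n (k + 1) * Z) -
        A (pt n k * Z))) / Z +
      ((∑ k ∈ Finset.range n, g (pt n k) *
      (A (pt n (k + 1) * Z) / Z - A (pt n k * Z) / Z)) - ρ * R) + ρ * (R - ∫ u, g u) := by
    have : ∑ k ∈ Finset.range n, g (pt n k) *
        (A (pt n (k + 1) * Z) / Z - A (pt n k * Z) / Z) =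
        (∑ k ∈ Finset.range n, g (pt n k) * (A (pt n (k + 1) * Z) - A (pt n k * Z))) / Z := by
      rw [Finset.sum_div]
      refine Finset.sum_congr rfl fun k _ => by ring
    rw [this]
    ring
  rw [e3]
  refine (abs_add_three _ _ _).trans ?_
  gcongr
  · rw [abs_div, abs_of_pos hZ0, div_le_iff₀ hZ0]
    refine hb.trans (le_of_eq ?_)
    field_simp
  · rw [abs_mul]
    exact mul_le_mul_of_nonneg_left hr (abs_nonneg _)

end Pool.ZD
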