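import Pool.Agent.ZD.Scale

/-!
# Module MINK: Minkowski's theorem for the scaled ideal lattices

PAPER PROOF. Let `q = 2 * N J * √|D| > 0`, `ρ = q^(1/m)`, `f w = ρ / sc t w` (as `ℝ≥0`). Then
`volume (convexBodyLT K f) = convexBodyLTFactor K * ∏ f w ^ mult w`
(`mixedEmbedding.convexBodyLT_volume`) and `∏ f w ^ mult w = ρ^m / norm (sg t) = q`, while
`minkowskiBound K J = volume (fundamentalDomain) * 2 ^ m` with volume of the fundamental domain
`2^(-r₂) * √|D| * N J` (`minkowskiBound`, `volume_fundamentalDomain_fractionalIdealLatticeBasis`), and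
`convexBodyLTFactor K = 2^r₁ * π^r₂`. As `2^m = 2^(r₁+2r₂)`:
`minkowskiBound = 2^(r₁+r₂) √|D| N J < 2^r₁ π^r₂ q`. By `exists_ne_zero_mem_ideal_lt` there is `a ∈ J`,
`a ≠ 0` with `w a < f w` for all `w`, so `normAtPlace w (sg t * a) = sc t w * w a < ρ` and
`en ≤ m ρ` (`en_le`), `en ^ m ≤ m^m q`. `C = 2 m^m`.
-/

open scoped NumberField nonZeroDivisors ENNReal
open NumberField NumberField.InfinitePlace NumberField.mixedEmbedding NumberField.Units
  NumberField.Units.dirichletUnitTheorem MeasureTheory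

namespace Pool.ZD

theorem prod_sc (K : Type) [Field K] [NumberField K] (t : logSpace K) :
    ∏ w, sc K t w ^ mult w = 1 := by
  have h := norm_sg K t
  rw [mixedEmbedding.norm_apply] at h
  simpa only [normAtPlace_sg] using h

theorem short_vector (m : ℕ) (hm : 1 ≤ m) : ∃ C : ℝ, 0 < C ∧
    ∀ (K : Type) [Field K] [NumberField K], Module.finrank ℚ K = m →
    ∀ (J : (Ideal (𝓞 K))⁰) (t : logSpace K), ∃ x : NZ K J,
      en K (sg K t * mixedEmbedding K ((x : 𝓞 K) : K)) ^ m ≤
        C * nm K J * Real.sqrt |(discr K : ℝ)| := by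
  classical
  have hm0 : (0 : ℝ) < m := by exact_mod_cast hm
  refine ⟨2 * (m : ℝ) ^ m, by positivity, ?_⟩
  intro K _ _ hK J t
  have hN : 0 < nm K J := by
    unfold nm
    exact_mod_cast Ideal.absNorm_pos_of_nonZeroDivisors J
  have hD : 0 < Real.sqrt |(discr K : ℝ)| := by
    refine Real.sqrt_pos.2 (abs_pos.2 ?_)
    exact_mod_cast discr_ne_zero K
  set q : ℝ := 2 * nm K J * Real.sqrt |(discr K : ℝ)| with hq
  have hqpos : 0 < q := by positivity
  set ρ : ℝ := q ^ ((1 : ℝ) / m) with hρ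
  have hρpos : 0 < ρ := Real.rpow_pos_of_pos hqpos _
  have hρm : ρ ^ m = q := by
    rw [hρ, ← Real.rpow_natCast, ← Real.rpow_mul hqpos.le, one_div_mul_cancel hm0.ne',
      Real.rpow_one]
  let f : InfinitePlace K → NNReal := fun w => ⟨ρ / sc K t w, (div_pos hρpos (sc_pos K t w)).le⟩
  have hfprod : ∏ w, ((f w : NNReal) : ℝ) ^ mult w = q := by
    have h1 : ∀ w, ((f w : NNReal) : ℝ) ^ mult w = ρ ^ mult w / sc K t w ^ mult w := by
      intro w
      exact div_pow _ _ _
    simp only [h1]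
    rw [Finset.prod_div_distrib, prod_sc, div_one, Finset.prod_pow_eq_pow_sum, sum_mult_eq, hK,
      hρm]
  let I : (FractionalIdeal (𝓞 K)⁰ K)ˣ := FractionalIdeal.mk0 K J
  have hIN : ((FractionalIdeal.absNorm (I : FractionalIdeal (𝓞 K)⁰ K) : ℚ) : ℝ) = nm K J := by
    rw [FractionalIdeal.coe_mk0, FractionalIdeal.coeIdeal_absNorm]
    rfl
  have hr : nrRealPlaces K + 2 * nrComplexPlaces K = m := by
    rw [card_add_two_mul_card_eq_rank, hK]
  have hlt : minkowskiBound K I < volume (convexBodyLT K f) := by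
    rw [← ENNReal.toReal_lt_toReal (minkowskiBound_lt_top K I).ne]
    · have hL : (minkowskiBound K I).toReal =
          nm K J * ((2⁻¹ : ℝ) ^ nrComplexPlaces K * Real.sqrt |(discr K : ℝ)|) * 2 ^ m := by
        rw [minkowskiBound, volume_fundamentalDomain_fractionalIdealLatticeBasis,
          volume_fundamentalDomain_latticeBasis, ENNReal.toReal_mul, ENNReal.toReal_mul,
          ENNReal.toReal_mul, ENNReal.toReal_pow,
          ENNReal.toReal_pow, ENNReal.toReal_inv, ENNReal.toReal_ofNat,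
          ENNReal.coe_toReal, Real.coe_sqrt, coe_nnnorm, Int.norm_eq_abs,
          ENNReal.toReal_ofReal (Rat.cast_nonneg.mpr (FractionalIdeal.absNorm_nonneg I.val)),
          hIN, mixedEmbedding.finrank, hK]
      have hR : (volume (convexBodyLT K f)).toReal =
          (2 ^ nrRealPlaces K * Real.pi ^ nrComplexPlaces K) * q := by
        rw [convexBodyLT_volume, ENNReal.toReal_mul, ENNReal.coe_toReal, ENNReal.coe_toReal]
        rw [← hfprod]
        push_cast
        rfl
      rw [hL, hR, hq]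
      have h2 : (2 : ℝ) ^ nrComplexPlaces K ≤ Real.pi ^ nrComplexPlaces K :=
        pow_le_pow_left₀ (by norm_num) Real.two_le_pi _
      have h3 : (2⁻¹ : ℝ) ^ nrComplexPlaces K * 2 ^ m =
          2 ^ nrRealPlaces K * 2 ^ nrComplexPlaces K := by
        rw [← hr, pow_add, two_mul, pow_add, inv_pow]
        have : (2 : ℝ) ^ nrComplexPlaces K ≠ 0 := by positivity
        field_simp
      have h4 : (0 : ℝ) < 2 ^ nrRealPlaces K := by positivity
      have h5 : (0 : ℝ) < 2 ^ nrComplexPlaces K := by positivity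
      calc nm K J * ((2⁻¹ : ℝ) ^ nrComplexPlaces K * Real.sqrt |(discr K : ℝ)|) * 2 ^ m
          = (nm K J * Real.sqrt |(discr K : ℝ)|) * ((2⁻¹ : ℝ) ^ nrComplexPlaces K * 2 ^ m) := by
            ring
        _ = (nm K J * Real.sqrt |(discr K : ℝ)|) *
            (2 ^ nrRealPlaces K * 2 ^ nrComplexPlaces K) := by rw [h3]
        _ < (nm K J * Real.sqrt |(discr K : ℝ)|) *
            (2 * (2 ^ nrRealPlaces K * Real.pi ^ nrComplexPlaces K)) := by
            refine mul_lt_mul_of_pos_left ?_ (by positivity)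
            nlinarith [mul_le_mul_of_nonneg_left h2 h4.le, mul_pos h4 h5]
        _ = _ := by ring
    · rw [convexBodyLT_volume]
      exact ENNReal.mul_ne_top ENNReal.coe_ne_top ENNReal.coe_ne_top
  obtain ⟨a, haI, ha0, ha⟩ := exists_ne_zero_mem_ideal_lt K I hlt
  rw [FractionalIdeal.coe_mk0, FractionalIdeal.mem_coeIdeal] at haI
  obtain ⟨x, hxJ, hxa⟩ := haI
  have hx0 : x ≠ 0 := by
    rintro rfl
    rw [map_zero] at hxa
    exact ha0 hxa.symm
  refine ⟨⟨x, hxJ, hx0⟩, ?_⟩
  have hle : ∀ w, normAtPlace w (sg K t * mixedEmbedding K ((x : 𝓞 K) : K)) ≤ ρ := by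
    intro w
    rw [normAtPlace_sg_mul, normAtPlace_apply]
    have h1 : w ((x : 𝓞 K) : K) < ρ / sc K t w := by
      have := ha w
      rw [← hxa] at this
      exact this
    rw [lt_div_iff₀ (sc_pos K t w)] at h1
    rw [mul_comm]
    exact h1.le
  have h1 := en_le K _ ρ hρpos.le hle
  have h0 : 0 ≤ en K (sg K t * mixedEmbedding K ((x : 𝓞 K) : K)) := Real.sqrt_nonneg _
  calc en K (sg K t * mixedEmbedding K ((x : 𝓞 K) : K)) ^ m
      ≤ ((Module.finrank ℚ K : ℝ) * ρ) ^ m := pow_le_pow_left₀ h0 h1 m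
    _ = 2 * (m : ℝ) ^ m * nm K J * Real.sqrt |(discr K : ℝ)| := by
        rw [mul_pow, hρm, hK, hq]
        ring

end Pool.ZD
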