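import Pool.Agent.ZD.KeyB
import Pool.Agent.ZD.Mink
import Pool.Agent.ZD.AbelLim

/-!
# Module KEY: the class-wise bound
-/

open scoped NumberField nonZeroDivisors ENNReal
open NumberField NumberField.InfinitePlace NumberField.mixedEmbedding NumberField.Units
  NumberField.Units.dirichletUnitTheorem MeasureTheory Filter Topology

namespace Pool.ZD

theorem nm_pos' (K : Type) [Field K] [NumberField K] (I : (Ideal (𝓞 K))⁰) : 0 < nm K I :=
  lt_of_lt_of_le one_pos (one_le_nm K I)

theorem finite_Cls (K : Type) [Field K] [NumberField K] (A : ClassGroup (𝓞 K)) (X : ℝ) :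
    {I : Cls K A | nm K I ≤ X}.Finite := by
  have h := (finite_le K X).preimage (f := fun I : Cls K A => (I : (Ideal (𝓞 K))⁰))
    (Subtype.coe_injective.injOn)
  exact h

theorem summable_g (K : Type) [Field K] [NumberField K] (A : ClassGroup (𝓞 K)) {V : Type}
    [NormedAddCommGroup V] (G : ℝ) (g : ℝ → V) (hg : Nice G g) (Z : ℝ) (hZ : 0 < Z) :
    Summable (fun I : Cls K A => g (nm K I / Z)) := by
  refine summable_of_hasFiniteSupport ((finite_Cls K A (4 * Z)).subset ?_)
  intro I hI
  rw [Function.mem_support] at hI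
  by_contra h
  apply hI
  refine hg.2.2 _ (Or.inr ?_)
  rw [le_div_iff₀ hZ]
  exact (not_le.mp h).le

open scoped Classical in
theorem FD_measure (K : Type) [Field K] [NumberField K] :
    volume (FD K) < ⊤ ∧ (volume (FD K)).toReal = regulator K := by
  constructor
  · exact (ZSpan.fundamentalDomain_isBounded _).measure_lt_top
  · have h := ZLattice.covolume_eq_measure_fundamentalDomain (unitLattice K) volume
      (F := FD K) (by
        have := ZLattice.isAddFundamentalDomain (basisUnitLattice K) volume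
        exact this)
    unfold regulator
    rw [h]
    rfl

/-- Cauchy-Schwarz against a constant. -/
theorem sq_integral_sqrt_le {α : Type} [MeasurableSpace α] (μ : Measure α) [IsFiniteMeasure μ]
    (f : α → ℝ) (hf0 : ∀ x, 0 ≤ f x) (hf : Integrable f μ) :
    Integrable (fun x => Real.sqrt (f x)) μ ∧
    (∫ x, Real.sqrt (f x) ∂μ) ^ 2 ≤ μ.real Set.univ * ∫ x, f x ∂μ := by
  have hint : Integrable (fun x => Real.sqrt (f x)) μ := by
    refine Integrable.mono' (g := fun x => 1 + f x) ((integrable_const 1).add hf)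
      (Real.continuous_sqrt.comp_aestronglyMeasurable hf.aestronglyMeasurable) ?_
    refine Eventually.of_forall fun x => ?_
    rw [Real.norm_eq_abs, abs_of_nonneg (Real.sqrt_nonneg _)]
    have h1 := Real.sq_sqrt (hf0 x)
    nlinarith [sq_nonneg (Real.sqrt (f x) - 1), Real.sqrt_nonneg (f x)]
  refine ⟨hint, ?_⟩
  set V := μ.real Set.univ with hV
  set X := ∫ x, Real.sqrt (f x) ∂μ with hX
  set I := ∫ x, f x ∂μ with hI
  have hkey : ∀ l : ℝ, 2 * l * X ≤ l ^ 2 * V + I := by
    intro l
    have h1 : 2 * l * X = ∫ x, 2 * l * Real.sqrt (f x) ∂μ := by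
      rw [integral_const_mul]
    have h2 : l ^ 2 * V + I = ∫ x, (l ^ 2 + f x) ∂μ := by
      rw [integral_add (integrable_const _) hf, integral_const, smul_eq_mul, mul_comm]
    rw [h1, h2]
    refine integral_mono (hint.const_mul _) ((integrable_const _).add hf) fun x => ?_
    have h3 := Real.sq_sqrt (hf0 x)
    simp only
    nlinarith [sq_nonneg (l - Real.sqrt (f x))]
  have hV0 : 0 ≤ V := measureReal_nonneg
  rcases hV0.eq_or_lt with h | h
  · have hX0 : X = 0 := by
      have hμ : μ = 0 := by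
        rw [← Measure.measure_univ_eq_zero]
        exact (measureReal_eq_zero_iff (measure_ne_top μ _)).mp (hV ▸ h.symm)
      rw [hX, hμ, integral_zero_measure]
    rw [hX0, ← h]
    simp
  · have h1 := hkey (X / V)
    have h2 : 2 * (X / V) * X = 2 * (X ^ 2 / V) := by ring
    have h3 : (X / V) ^ 2 * V = X ^ 2 / V := by
      field_simp
    rw [h2, h3] at h1
    have h4 : X ^ 2 / V ≤ I := by linarith
    rw [div_le_iff₀ h] at h4
    linarith

open scoped Classical in
/-- Class-wise bound for smooth averages over the ideals of a class. -/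
theorem key (m : ℕ) (hm : 2 ≤ m) : ∃ C : ℝ, 0 < C ∧
    ∀ (K : Type) [Field K] [NumberField K], Module.finrank ℚ K = m →
    ∀ (G : ℝ) (g : ℝ → ℝ), Nice G g → (∀ u, 0 ≤ g u) →
    ∀ (A : ClassGroup (𝓞 K)) (Z : ℝ), 0 < Z →
      |∑' I : Cls K A, g (nm K I / Z) - rho K * (∫ u, g u) * Z| ^ 2 ≤
        C * G ^ 2 * (regulator K / torsionOrder K) * Z ^ (2 - 2 / (m : ℝ)) *
          ∑' I : {I : Cls K A // nm K I ≤ C * Real.sqrt |(discr K : ℝ)|},
            nm K I.1 ^ (-(2 - 2 / (m : ℝ))) := by
  obtain ⟨cT, hcT, hT⟩ := Phi_integral m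
  obtain ⟨CE, hCE, hE⟩ := exp_integral m hm
  obtain ⟨CM, hCM, hM⟩ := short_vector m (by omega)
  obtain ⟨CD, hCD, hD⟩ := diff_TT m hm
  refine ⟨max CM (CD ^ 2 * CE / cT ^ 2), lt_max_of_lt_left hCM, ?_⟩
  intro K _ _ hK G g hg hg0 A Z hZ
  obtain ⟨J, hJ⟩ := ClassGroup.mk0_surjective A⁻¹
  obtain ⟨cK, hcK, hI⟩ := hT K hK
  have hcKpos : 0 < cK := lt_of_lt_of_le hcT hcK
  have hG : 0 ≤ G := hg.1
  have hw : (0 : ℝ) < torsionOrder K := by
    exact_mod_cast Nat.pos_of_ne_zero (NeZero.ne _)
  set w : ℝ := (torsionOrder K : ℝ) with hwdef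
  have hN : 0 < nm K J := nm_pos' K J
  set N := nm K J with hNdef
  have hDpos : 0 < Real.sqrt |(discr K : ℝ)| := by
    apply Real.sqrt_pos.mpr
    exact abs_pos.mpr (by exact_mod_cast discr_ne_zero K)
  set D := Real.sqrt |(discr K : ℝ)| with hDdef
  have hm0 : (0 : ℝ) < m := by positivity
  set r := (CM * N * D) ^ (1 / (m : ℝ)) with hr
  have hrpos : 0 < r := by positivity
  have hrm : r ^ m = CM * N * D := by
    rw [hr, ← Real.rpow_natCast, ← Real.rpow_mul (by positivity), one_div_mul_cancel hm0.ne',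
      Real.rpow_one]
  set a : ℝ := 2 - 2 / (m : ℝ) with ha
  set S : ℝ → ℝ := fun Z => ∑' I : Cls K A, g (nm K I / Z) with hS
  have hS0 : ∀ Z, 0 ≤ S Z := fun Z => tsum_nonneg fun I => hg0 _
  -- the integral of the lattice sums
  have h1 : ∀ y : ℝ, 0 < y → ∫⁻ t in FD K, TT K J g y t = ENNReal.ofReal (w * cK * S (y ^ m / N)) := by
    intro y hy
    rw [lint_TT K J G g hg A hJ cK (fun x hx => hI g hg0 x hx) y hy, hK]
    have h2 : ∀ I : Cls K A, cK * g (nm K I * nm K J / y ^ m) = cK * g (nm K I / (y ^ m / N)) := by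
      intro I
      congr 2
      rw [hNdef]
      field_simp
    simp only [h2]
    rw [← ENNReal.ofReal_tsum_of_nonneg (fun I => mul_nonneg hcKpos.le (hg0 _))
      ((summable_g K A G g hg _ (by positivity)).mul_left cK), tsum_mul_left]
    rw [← ENNReal.ofReal_natCast, ← ENNReal.ofReal_mul (by positivity), mul_assoc]
  obtain ⟨hFD, hreg⟩ := FD_measure K
  have : IsFiniteMeasure (volume.restrict (FD K)) := ⟨by simpa using hFD⟩
  -- the integral of `Lam`
  set Q : ℝ := ∑' I : {I : Cls K A // nm K I ≤ CM * D}, nm K I.1 ^ (-a) with hQ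
  have hQfin : Finite {I : Cls K A // nm K I ≤ CM * D} := (finite_Cls K A (CM * D)).to_subtype
  have hLam : ∫⁻ t in FD K, Lam m K J r t ≤ ENNReal.ofReal (w * (CE * N ^ (-a) * Q)) := by
    refine (lint_Lam K J m A hJ CE r (fun x hx => hE K hK r hrpos x hx)).trans ?_
    rw [ENNReal.ofReal_mul hw.le, hwdef, ENNReal.ofReal_natCast]
    refine mul_le_mul_right ?_ _
    have h2 : (∑' I : Cls K A, if nm K I * nm K J ≤ r ^ m then
        ENNReal.ofReal (CE * (nm K I * nm K J) ^ (-(2 - 2 / (m : ℝ)))) else 0) =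
        ∑' I : Cls K A, Set.indicator {I : Cls K A | nm K I ≤ CM * D}
          (fun I => ENNReal.ofReal (CE * N ^ (-a) * nm K I ^ (-a))) I := by
      refine tsum_congr fun I => ?_
      rw [Set.indicator_apply]
      have h3 : (nm K I * nm K J ≤ r ^ m) ↔ I ∈ {I : Cls K A | nm K I ≤ CM * D} := by
        rw [hrm]
        change nm K I * N ≤ CM * N * D ↔ nm K I ≤ CM * D
        rw [show CM * N * D = (CM * D) * N by ring]
        exact mul_le_mul_iff_left₀ hN
      simp only [h3]
      congr 2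
      rw [Real.mul_rpow (nm_pos' K I).le hN.le]
      ring
    rw [h2, ← tsum_subtype]
    rw [← ENNReal.ofReal_tsum_of_nonneg, tsum_mul_left]
    · exact le_of_eq rfl
    · intro I
      have := nm_pos' K I.1
      positivity
    · have : Finite ({I : Cls K A | nm K I ≤ CM * D} : Set (Cls K A)) :=
        (finite_Cls K A (CM * D)).to_subtype
      exact Summable.of_finite
  have hLamfin : ∀ᵐ t ∂(volume.restrict (FD K)), Lam m K J r t < ⊤ :=
    ae_lt_top (measurable_Lam K J m r) (ne_of_lt (hLam.trans_lt ENNReal.ofReal_lt_top))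
  have hQ0 : 0 ≤ Q := tsum_nonneg fun I => by
    have := nm_pos' K I.1
    positivity
  have hLint : Integrable (fun t => (Lam m K J r t).toReal) (volume.restrict (FD K)) :=
    integrable_toReal_of_lintegral_ne_top (measurable_Lam K J m r).aemeasurable
      (ne_of_lt (hLam.trans_lt ENNReal.ofReal_lt_top))
  have hLval : ∫ t in FD K, (Lam m K J r t).toReal ≤ w * (CE * N ^ (-a) * Q) := by
    rw [integral_toReal (measurable_Lam K J m r).aemeasurable hLamfin]
    refine ENNReal.toReal_le_of_le_ofReal (by positivity) hLam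
  obtain ⟨hsint, hsq⟩ := sq_integral_sqrt_le (volume.restrict (FD K))
    (fun t => (Lam m K J r t).toReal) (fun t => ENNReal.toReal_nonneg) hLint
  have hvol : (volume.restrict (FD K)).real Set.univ = regulator K := by
    rw [measureReal_restrict_apply_univ]
    exact hreg
  rw [hvol] at hsq
  set X := ∫ t in FD K, Real.sqrt (Lam m K J r t).toReal with hX
  have hX0 : 0 ≤ X := integral_nonneg fun t => Real.sqrt_nonneg _
  -- comparison of two scales
  have h2 : ∀ y y' : ℝ, 0 < y → 0 < y' →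
      |(y ^ m)⁻¹ * (w * cK * S (y ^ m / N)) - (y' ^ m)⁻¹ * (w * cK * S (y' ^ m / N))| ≤
        CD * G * (y⁻¹ + y'⁻¹) * X := by
    intro y y' hy hy'
    have h3 : ∀ y : ℝ, 0 < y → Integrable (fun t => (TT K J g y t).toReal)
        (volume.restrict (FD K)) ∧ ∫ t in FD K, (TT K J g y t).toReal =
          w * cK * S (y ^ m / N) := by
      intro y hy
      have hne : ∫⁻ t in FD K, TT K J g y t ≠ ⊤ := by
        rw [h1 y hy]
        exact ENNReal.ofReal_ne_top
      refine ⟨integrable_toReal_of_lintegral_ne_top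
        (measurable_TT K J G g hg y).aemeasurable hne, ?_⟩
      rw [integral_toReal (measurable_TT K J G g hg y).aemeasurable
        (ae_lt_top (measurable_TT K J G g hg y) hne), h1 y hy, ENNReal.toReal_ofReal]
      exact mul_nonneg (by positivity) (hS0 _)
    obtain ⟨hi, he⟩ := h3 y hy
    obtain ⟨hi', he'⟩ := h3 y' hy'
    rw [← he, ← he', ← integral_const_mul, ← integral_const_mul,
      ← integral_sub (hi.const_mul _) (hi'.const_mul _)]
    refine (abs_integral_le_integral_abs).trans ?_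
    rw [hX, ← integral_const_mul]
    refine integral_mono_ae ((hi.const_mul _).sub (hi'.const_mul _)).abs (hsint.const_mul _) ?_
    filter_upwards [hLamfin] with t ht
    refine hD K hK J r t ?_ ht G g hg hg0 y y' hy hy'
    obtain ⟨x, hx⟩ := hM K hK J t
    refine ⟨x, ?_⟩
    have h4 : en K (sg K t * mixedEmbedding K ((x : 𝓞 K) : K)) ^ m ≤ r ^ m := by
      rw [hrm]
      exact hx
    exact (pow_le_pow_iff_left₀ (Real.sqrt_nonneg _) hrpos.le (by omega)).mp h4
  -- the limit
  have hlim : Tendsto (fun Z : ℝ => S Z / Z) atTop (𝓝 (rho K * ∫ u, g u)) := by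
    refine abel_limit (fun I : Cls K A => nm K I) (fun I => nm_pos' K I)
      (fun s => finite_Cls K A s) (rho K) ?_ G g hg
    have h3 := NumberField.Ideal.tendsto_norm_le_and_mk_eq_div_atTop K A
    unfold rho
    refine h3.congr fun s => ?_
    congr 2
    refine Nat.card_congr ?_
    refine (Equiv.subtypeEquivRight (fun I => and_comm)).trans ?_
    exact (Equiv.subtypeSubtypeEquivSubtypeInter (fun I : (Ideal (𝓞 K))⁰ =>
      ClassGroup.mk0 I = A) (fun I => nm K I ≤ s)).symm
  have hlim2 : ∀ y : ℝ, 0 < y → |(y ^ m)⁻¹ * (w * cK * S (y ^ m / N)) -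
      w * cK * (rho K * ∫ u, g u) / N| ≤ CD * G * y⁻¹ * X := by
    intro y hy
    have h3 : Tendsto (fun y' : ℝ => y' ^ m / N) atTop atTop :=
      (tendsto_pow_atTop (by omega)).atTop_div_const hN
    have h4 : Tendsto (fun y' : ℝ => (y' ^ m)⁻¹ * (w * cK * S (y' ^ m / N))) atTop
        (𝓝 (w * cK * (rho K * ∫ u, g u) / N)) := by
      have h5 := ((hlim.comp h3).const_mul (w * cK)).div_const N
      refine h5.congr' ?_
      filter_upwards [eventually_gt_atTop 0] with y' hy'
      simp only [Function.comp_apply]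
      field_simp
    have h5 : Tendsto (fun y' : ℝ => CD * G * (y⁻¹ + y'⁻¹) * X) atTop
        (𝓝 (CD * G * (y⁻¹ + 0) * X)) :=
      (((tendsto_inv_atTop_zero.const_add y⁻¹).const_mul (CD * G)).mul_const X)
    rw [add_zero] at h5
    refine le_of_tendsto_of_tendsto ((tendsto_const_nhds.sub h4).abs) h5 ?_
    filter_upwards [eventually_gt_atTop 0] with y' hy'
    exact h2 y y' hy hy'
  -- conclusion
  set y := (Z * N) ^ (1 / (m : ℝ)) with hy
  have hypos : 0 < y := by positivity
  have hym : y ^ m = Z * N := by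
    rw [hy, ← Real.rpow_natCast, ← Real.rpow_mul (by positivity), one_div_mul_cancel hm0.ne',
      Real.rpow_one]
  have hyZ : y ^ m / N = Z := by
    rw [hym]
    field_simp
  have h3 := hlim2 y hypos
  rw [hyZ] at h3
  have h4 : w * cK * |S Z - rho K * (∫ u, g u) * Z| ≤ CD * G * y ^ (m - 1) * X := by
    have h5 : w * cK * |S Z - rho K * (∫ u, g u) * Z| =
        y ^ m * |(y ^ m)⁻¹ * (w * cK * S Z) - w * cK * (rho K * ∫ u, g u) / N| := by
      rw [← abs_of_pos (show 0 < w * cK by positivity), ← abs_mul,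
        ← abs_of_pos (show 0 < y ^ m by positivity), ← abs_mul,
        abs_of_pos (show 0 < w * cK by positivity), abs_of_pos (show 0 < y ^ m by positivity), hym]
      congr 1
      field_simp
    rw [h5]
    calc _ ≤ y ^ m * (CD * G * y⁻¹ * X) := mul_le_mul_of_nonneg_left h3 (by positivity)
      _ = _ := by
        obtain ⟨k, rfl⟩ : ∃ k, m = k + 1 := ⟨m - 1, by omega⟩
        rw [Nat.add_sub_cancel, pow_succ]
        field_simp
  have h5 : (w * cK) ^ 2 * |S Z - rho K * (∫ u, g u) * Z| ^ 2 ≤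
      CD ^ 2 * G ^ 2 * (y ^ (m - 1)) ^ 2 * X ^ 2 := by
    have := pow_le_pow_left₀ (by positivity) h4 2
    calc _ = (w * cK * |S Z - rho K * (∫ u, g u) * Z|) ^ 2 := by ring
      _ ≤ _ := this
      _ = _ := by ring
  have h6 : (y ^ (m - 1)) ^ 2 = Z ^ a * N ^ a := by
    rw [← pow_mul, ← Real.rpow_natCast, hy, ← Real.rpow_mul (by positivity),
      ← Real.mul_rpow hZ.le hN.le]
    congr 1
    rw [Nat.cast_mul, Nat.cast_sub (by omega), ha]
    push_cast
    field_simp
  have h7 : X ^ 2 ≤ regulator K * (w * (CE * N ^ (-a) * Q)) :=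
    hsq.trans (mul_le_mul_of_nonneg_left hLval (regulator_pos K).le)
  have h8 : N ^ a * N ^ (-a) = 1 := by
    rw [← Real.rpow_add hN]
    simp
  have hRpos := regulator_pos K
  have h9 : (w * cK) ^ 2 * |S Z - rho K * (∫ u, g u) * Z| ^ 2 ≤
      CD ^ 2 * G ^ 2 * Z ^ a * (regulator K * w * CE * Q) := by
    refine h5.trans ?_
    rw [h6]
    calc CD ^ 2 * G ^ 2 * (Z ^ a * N ^ a) * X ^ 2 ≤
        CD ^ 2 * G ^ 2 * (Z ^ a * N ^ a) * (regulator K * (w * (CE * N ^ (-a) * Q))) :=
          mul_le_mul_of_nonneg_left h7 (by positivity)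
      _ = CD ^ 2 * G ^ 2 * Z ^ a * (regulator K * w * CE * Q) * (N ^ a * N ^ (-a)) := by ring
      _ = _ := by rw [h8, mul_one]
  have h10 : |S Z - rho K * (∫ u, g u) * Z| ^ 2 ≤
      (CD ^ 2 * CE / cT ^ 2) * G ^ 2 * (regulator K / w) * Z ^ a * Q := by
    have h11 : |S Z - rho K * (∫ u, g u) * Z| ^ 2 ≤
        CD ^ 2 * G ^ 2 * Z ^ a * (regulator K * w * CE * Q) / (w * cK) ^ 2 := by
      rw [le_div_iff₀ (by positivity)]
      linarith
    refine h11.trans ?_
    have h12 : CD ^ 2 * G ^ 2 * Z ^ a * (regulator K * w * CE * Q) / (w * cK) ^ 2 =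
        (CD ^ 2 * CE * G ^ 2 * (regulator K / w) * Z ^ a * Q) / cK ^ 2 := by
      field_simp
    have h13 : (CD ^ 2 * CE / cT ^ 2) * G ^ 2 * (regulator K / w) * Z ^ a * Q =
        (CD ^ 2 * CE * G ^ 2 * (regulator K / w) * Z ^ a * Q) / cT ^ 2 := by
      ring
    rw [h12, h13]
    refine div_le_div_of_nonneg_left (by positivity) (by positivity) ?_
    exact pow_le_pow_left₀ hcT.le hcK 2
  have hQle : Q ≤ ∑' I : {I : Cls K A // nm K I ≤ max CM (CD ^ 2 * CE / cT ^ 2) * D},
      nm K I.1 ^ (-a) := by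
    have hfin2 : Finite {I : Cls K A // nm K I ≤ max CM (CD ^ 2 * CE / cT ^ 2) * D} :=
      (finite_Cls K A _).to_subtype
    let f : {I : Cls K A // nm K I ≤ CM * D} →
        {I : Cls K A // nm K I ≤ max CM (CD ^ 2 * CE / cT ^ 2) * D} :=
      fun I => ⟨I.1, I.2.trans (mul_le_mul_of_nonneg_right (le_max_left _ _) hDpos.le)⟩
    have hf : Function.Injective f := by
      intro u v huv
      exact Subtype.ext (congrArg (fun z => z.1) huv)
    refine Summable.tsum_le_tsum_of_inj f hf (fun c _ => ?_) (fun i => le_rfl)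
      Summable.of_finite Summable.of_finite
    have := nm_pos' K c.1
    positivity
  refine h10.trans ?_
  refine mul_le_mul ?_ hQle hQ0 (by positivity)
  refine mul_le_mul_of_nonneg_right ?_ (by positivity)
  refine mul_le_mul_of_nonneg_right ?_ (by positivity)
  exact mul_le_mul_of_nonneg_right (le_max_right _ _) (by positivity)

end Pool.ZD
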