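import Mathlib

/-!
# Zero density for class group L-functions of number fields: common definitions
-/

open scoped NumberField nonZeroDivisors
open NumberField NumberField.InfinitePlace NumberField.mixedEmbedding NumberField.Units
  NumberField.Units.dirichletUnitTheorem

namespace Pool.ZD

noncomputable section

variable (K : Type) [Field K] [NumberField K]

/-- The scaling factor at the place `w` attached to `t` in the logarithmic space: `exp (t w / mult w)`
for `w ≠ w₀`, and the factor at `w₀` that makes the norm equal to `1`. -/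
def sc (t : logSpace K) (w : InfinitePlace K) : ℝ :=
  open Classical in
  if h : w = w₀ then Real.exp (-(∑ v, t v) / mult (w₀ : InfinitePlace K))
  else Real.exp (t ⟨w, h⟩ / mult w)

/-- The element of the mixed space with (positive real) components `sc t`. -/
def sg (t : logSpace K) : mixedSpace K := mixedSpaceOfRealSpace (sc K t)

/-- The Euclidean norm on the mixed space. -/
def en (x : mixedSpace K) : ℝ := Real.sqrt (∑ w, normAtPlace w x ^ 2)

open Classical in
/-- The fundamental domain of the unit lattice. -/
def FD : Set (logSpace K) :=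
  ZSpan.fundamentalDomain ((basisUnitLattice K).ofZLatticeBasis ℝ _)

/-- The nonzero elements of an ideal. -/
abbrev NZ (J : (Ideal (𝓞 K))⁰) : Type := {x : 𝓞 K // x ∈ (J : Ideal (𝓞 K)) ∧ x ≠ 0}

/-- The integral ideals of a class. -/
abbrev Cls (A : ClassGroup (𝓞 K)) : Type := {I : (Ideal (𝓞 K))⁰ // ClassGroup.mk0 I = A}

/-- The real norm of an ideal. -/
def nm (I : (Ideal (𝓞 K))⁰) : ℝ := (Ideal.absNorm (I : Ideal (𝓞 K)) : ℝ)

/-- The tent function supported on `[1,3]` with peak at `2`. -/
def psi (v : ℝ) : ℝ := max 0 (1 - |v - 2|)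

open Classical in
/-- The test function on the mixed space attached to `g`. -/
def Phi (g : ℝ → ℝ) (x : mixedSpace K) : ℝ :=
  g (mixedEmbedding.norm x) * ∏ w : {w : InfinitePlace K // w ≠ w₀}, psi (normAtPlace w.1 x)

/-- The density of the ideals of a class. -/
def rho : ℝ :=
  2 ^ nrRealPlaces K * (2 * Real.pi) ^ nrComplexPlaces K * regulator K /
    (torsionOrder K * Real.sqrt |(discr K : ℝ)|)

/-- `g` is a nice test function: Lipschitz with constant `G`, supported in `[1,4]`. -/
def Nice {V : Type} [NormedAddCommGroup V] (G : ℝ) (g : ℝ → V) : Prop :=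
  0 ≤ G ∧ (∀ u v, ‖g u - g v‖ ≤ G * |u - v|) ∧ ∀ u, (u ≤ 1 ∨ 4 ≤ u) → g u = 0

end

end Pool.ZD
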