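import Pool.Agent.ZD.Scale

/-!
# Module TESTLIP: the test function is Lipschitz with compact support

PAPER PROOF. Write `|x|_w = normAtPlace w x`, `N x = mixedEmbedding.norm x = ∏ |x|_w ^ mult w`,
`N₄ x = ∏ (min |x|_w 4) ^ mult w`. CLAIM: `Phi g x = g (N₄ x) * ∏_{w ≠ w₀} psi |x|_w`. Indeed, if some
`w ≠ w₀` has `|x|_w ≤ 1` or `|x|_w ≥ 3` both sides are `0`. Otherwise `1 < |x|_w < 3` for all `w ≠ w₀`; if
`|x|_{w₀} ≤ 4` then `N₄ x = N x`; if `|x|_{w₀} > 4` then `N x ≥ 4` and `N₄ x ≥ 4`, so both sides are `0`.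
Lipschitz: `| |x|_w - |y|_w | ≤ |x - y|_w ≤ en (x - y)` (`normAtPlace_add_le`). `N₄` is a product of
factors bounded by `16` and `8`-Lipschitz in `|x|_w`; the product of the `psi |x|_w` has at most `m` factors
bounded by `1`, `1`-Lipschitz. `|g| ≤ 3 G` (as `g 1 = 0`, `g` vanishes outside `[1,4]`).
-/

open scoped NumberField nonZeroDivisors ENNReal
open NumberField NumberField.InfinitePlace NumberField.mixedEmbedding NumberField.Units
  NumberField.Units.dirichletUnitTheorem MeasureTheory

namespace Pool.ZD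

/-- Difference of two products of bounded factors. -/
theorem prod_sub_prod_le {ι : Type*} (s : Finset ι) (a b : ι → ℝ) (M : ℝ) (hM : 1 ≤ M)
    (ha : ∀ i ∈ s, |a i| ≤ M) (hb : ∀ i ∈ s, |b i| ≤ M) :
    |∏ i ∈ s, a i - ∏ i ∈ s, b i| ≤ (∑ i ∈ s, |a i - b i|) * M ^ s.card := by
  classical
  induction s using Finset.induction_on with
  | empty => simp
  | insert j s hj ih =>
    have ha' : ∀ i ∈ s, |a i| ≤ M := fun i hi => ha i (Finset.mem_insert_of_mem hi)
    have hb' : ∀ i ∈ s, |b i| ≤ M := fun i hi => hb i (Finset.mem_insert_of_mem hi)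
    have hih := ih ha' hb'
    rw [Finset.prod_insert hj, Finset.prod_insert hj, Finset.sum_insert hj,
      Finset.card_insert_of_notMem hj]
    have hM0 : 0 ≤ M := by linarith
    have hP : |∏ i ∈ s, a i| ≤ M ^ s.card := by
      rw [Finset.abs_prod]
      calc ∏ i ∈ s, |a i| ≤ ∏ _i ∈ s, M := Finset.prod_le_prod (fun _ _ => abs_nonneg _) ha'
        _ = M ^ s.card := by rw [Finset.prod_const]
    have hbj : |b j| ≤ M := hb j (Finset.mem_insert_self _ _)
    have hS : 0 ≤ ∑ i ∈ s, |a i - b i| := Finset.sum_nonneg fun _ _ => abs_nonneg _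
    have hMc : (0 : ℝ) ≤ M ^ s.card := by positivity
    calc |a j * ∏ i ∈ s, a i - b j * ∏ i ∈ s, b i|
        = |(a j - b j) * ∏ i ∈ s, a i + b j * (∏ i ∈ s, a i - ∏ i ∈ s, b i)| := by
          congr 1; ring
      _ ≤ |(a j - b j) * ∏ i ∈ s, a i| + |b j * (∏ i ∈ s, a i - ∏ i ∈ s, b i)| := abs_add_le _ _
      _ = |a j - b j| * |∏ i ∈ s, a i| + |b j| * |∏ i ∈ s, a i - ∏ i ∈ s, b i| := by
          rw [abs_mul, abs_mul]
      _ ≤ |a j - b j| * M ^ s.card + M * ((∑ i ∈ s, |a i - b i|) * M ^ s.card) := by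
          apply add_le_add
          · exact mul_le_mul_of_nonneg_left hP (abs_nonneg _)
          · exact mul_le_mul hbj hih (abs_nonneg _) hM0
      _ ≤ |a j - b j| * M ^ (s.card + 1) + (∑ i ∈ s, |a i - b i|) * M ^ (s.card + 1) := by
          apply add_le_add
          · apply mul_le_mul_of_nonneg_left _ (abs_nonneg _)
            exact pow_le_pow_right₀ hM (Nat.le_succ _)
          · rw [pow_succ]
            apply le_of_eq; ring
      _ = (|a j - b j| + ∑ i ∈ s, |a i - b i|) * M ^ (s.card + 1) := by ring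

theorem psi_nonneg (v : ℝ) : 0 ≤ psi v := le_max_left _ _

theorem psi_le_one (v : ℝ) : psi v ≤ 1 := by
  unfold psi
  apply max_le (by norm_num)
  have := abs_nonneg (v - 2)
  linarith

theorem psi_lip (u v : ℝ) : |psi u - psi v| ≤ |u - v| := by
  unfold psi
  have h1 : |max 0 (1 - |u - 2|) - max 0 (1 - |v - 2|)| ≤ |(1 - |u - 2|) - (1 - |v - 2|)| := by
    have := abs_max_sub_max_le_max 0 (1 - |u - 2|) 0 (1 - |v - 2|)
    rw [sub_self, abs_zero] at this
    exact this.trans (max_le (abs_nonneg _) le_rfl)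
  have h2 : |(1 - |u - 2|) - (1 - |v - 2|)| ≤ |u - v| := by
    have h3 : (1 - |u - 2|) - (1 - |v - 2|) = |v - 2| - |u - 2| := by ring
    rw [h3]
    have h4 := abs_abs_sub_abs_le_abs_sub (v - 2) (u - 2)
    have h5 : (v - 2) - (u - 2) = -(u - v) := by ring
    rw [h5, abs_neg] at h4
    exact h4
  exact h1.trans h2

theorem psi_ne_zero {v : ℝ} (h : psi v ≠ 0) : 1 < v ∧ v < 3 := by
  by_contra hcon
  apply h
  unfold psi
  apply max_eq_left
  rw [not_and_or, not_lt, not_lt] at hcon
  rcases hcon with h1 | h1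
  · have := neg_abs_le (v - 2)
    linarith
  · have := le_abs_self (v - 2)
    linarith

section K

variable (K : Type) [Field K] [NumberField K]

/-- The norm with all the local factors truncated at `4`. -/
noncomputable def N4 (x : mixedSpace K) : ℝ := ∏ w, (min (normAtPlace w x) 4) ^ mult w

theorem abs_normAtPlace_sub_le (x y : mixedSpace K) (w : InfinitePlace K) :
    |normAtPlace w x - normAtPlace w y| ≤ en K (x - y) := by
  refine le_trans ?_ (normAtPlace_le_en K (x - y) w)
  rw [abs_sub_le_iff]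
  constructor
  · have := normAtPlace_add_le w (x - y) y
    rw [sub_add_cancel] at this
    linarith
  · have := normAtPlace_add_le w (y - x) x
    rw [sub_add_cancel] at this
    have h2 : normAtPlace w (y - x) = normAtPlace w (x - y) := by
      rw [← normAtPlace_neg, neg_sub]
    linarith

omit [NumberField K] in
theorem mult_le_two (w : InfinitePlace K) : mult w ≤ 2 := by
  unfold mult
  split_ifs <;> omega

omit [NumberField K] in
theorem one_le_mult' (w : InfinitePlace K) : 1 ≤ mult w := by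
  unfold mult
  split_ifs <;> omega

theorem four_le_norm_of (a : InfinitePlace K → ℝ) (h : ∀ w, w ≠ w₀ → 1 ≤ a w)
    (h0 : 4 ≤ a w₀) : 4 ≤ ∏ w, a w ^ mult w := by
  classical
  rw [← Finset.mul_prod_erase Finset.univ _ (Finset.mem_univ (w₀ : InfinitePlace K))]
  have h1 : 1 ≤ ∏ w ∈ Finset.univ.erase (w₀ : InfinitePlace K), a w ^ mult w := by
    calc (1 : ℝ) = ∏ _w ∈ Finset.univ.erase (w₀ : InfinitePlace K), (1 : ℝ) := by
          rw [Finset.prod_const_one]
      _ ≤ ∏ w ∈ Finset.univ.erase (w₀ : InfinitePlace K), a w ^ mult w := by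
          apply Finset.prod_le_prod (fun _ _ => by norm_num)
          intro w hw
          exact one_le_pow₀ (h w (Finset.ne_of_mem_erase hw))
  have h2 : 4 ≤ a w₀ ^ mult (w₀ : InfinitePlace K) := by
    calc (4 : ℝ) ≤ a w₀ := h0
      _ = a w₀ ^ 1 := by rw [pow_one]
      _ ≤ a w₀ ^ mult (w₀ : InfinitePlace K) :=
        pow_le_pow_right₀ (by linarith) (one_le_mult' K _)
  nlinarith

theorem Phi_eq (G : ℝ) (g : ℝ → ℝ) (hg : Nice G g) (x : mixedSpace K) :
    Phi K g x = g (N4 K x) * (open Classical in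
      ∏ w : {w : InfinitePlace K // w ≠ w₀}, psi (normAtPlace w.1 x)) := by
  classical
  unfold Phi
  by_cases hp : (∏ w : {w : InfinitePlace K // w ≠ w₀}, psi (normAtPlace w.1 x)) = 0
  · rw [hp, mul_zero, mul_zero]
  · have hw : ∀ w : InfinitePlace K, w ≠ w₀ → 1 < normAtPlace w x ∧ normAtPlace w x < 3 := by
      intro w hw
      exact psi_ne_zero (Finset.prod_ne_zero_iff.mp hp ⟨w, hw⟩ (Finset.mem_univ _))
    congr 1
    rw [mixedEmbedding.norm_apply]
    by_cases h4 : normAtPlace (w₀ : InfinitePlace K) x ≤ 4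
    · unfold N4
      congr 1
      apply Finset.prod_congr rfl
      intro w _
      by_cases hw0 : w = w₀
      · subst hw0
        rw [min_eq_left h4]
      · rw [min_eq_left (by linarith [(hw w hw0).2])]
    · rw [not_le] at h4
      have e1 : 4 ≤ ∏ w, normAtPlace w x ^ mult w :=
        four_le_norm_of K (fun w => normAtPlace w x) (fun w hw0 => (hw w hw0).1.le) h4.le
      have e2 : 4 ≤ N4 K x :=
        four_le_norm_of K (fun w => min (normAtPlace w x) 4)
          (fun w hw0 => le_min (hw w hw0).1.le (by norm_num)) (le_min h4.le le_rfl)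
      rw [hg.2.2 _ (Or.inr e1), hg.2.2 _ (Or.inr e2)]

theorem card_place_le : Fintype.card (InfinitePlace K) ≤ Module.finrank ℚ K := by
  classical
  have h1 := InfinitePlace.card_add_two_mul_card_eq_rank K
  have h2 := InfinitePlace.card_eq_nrRealPlaces_add_nrComplexPlaces K
  omega

theorem sq_pow_sub_le (a b : ℝ) (k : ℕ) (hk : k ≤ 2) (ha0 : 0 ≤ a) (ha : a ≤ 4) (hb0 : 0 ≤ b)
    (hb : b ≤ 4) : |a ^ k - b ^ k| ≤ 8 * |a - b| := by
  have hn := abs_nonneg (a - b)
  interval_cases k
  · simp
  · simp only [pow_one]; linarith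
  · have h1 : a ^ 2 - b ^ 2 = (a + b) * (a - b) := by ring
    rw [h1, abs_mul]
    have h2 : |a + b| ≤ 8 := by rw [abs_of_nonneg (by linarith)]; linarith
    exact mul_le_mul_of_nonneg_right h2 hn

theorem N4_lip (x y : mixedSpace K) :
    |N4 K x - N4 K y| ≤ 8 * Module.finrank ℚ K * 16 ^ Module.finrank ℚ K * en K (x - y) := by
  classical
  have hen : 0 ≤ en K (x - y) := Real.sqrt_nonneg _
  have hbd : ∀ (z : mixedSpace K) (w : InfinitePlace K),
      |(min (normAtPlace w z) 4) ^ mult w| ≤ 16 := by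
    intro z w
    have h0 : 0 ≤ min (normAtPlace w z) 4 := le_min (normAtPlace_nonneg w z) (by norm_num)
    have h4 : min (normAtPlace w z) 4 ≤ 4 := min_le_right _ _
    rw [abs_of_nonneg (by positivity)]
    have h2 := mult_le_two K w
    have h1 := one_le_mult' K w
    interval_cases (mult w)
    · simp only [pow_one]; linarith
    · nlinarith
  have h := prod_sub_prod_le Finset.univ (fun w => (min (normAtPlace w x) 4) ^ mult w)
    (fun w => (min (normAtPlace w y) 4) ^ mult w) 16 (by norm_num)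
    (fun w _ => hbd x w) (fun w _ => hbd y w)
  have hsum : ∑ w : InfinitePlace K,
      |(min (normAtPlace w x) 4) ^ mult w - (min (normAtPlace w y) 4) ^ mult w|
      ≤ Module.finrank ℚ K * (8 * en K (x - y)) := by
    calc ∑ w : InfinitePlace K,
        |(min (normAtPlace w x) 4) ^ mult w - (min (normAtPlace w y) 4) ^ mult w|
        ≤ ∑ _w : InfinitePlace K, 8 * en K (x - y) := by
          apply Finset.sum_le_sum
          intro w _
          have h1 := sq_pow_sub_le (min (normAtPlace w x) 4) (min (normAtPlace w y) 4) (mult w)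
            (mult_le_two K w) (le_min (normAtPlace_nonneg w x) (by norm_num)) (min_le_right _ _)
            (le_min (normAtPlace_nonneg w y) (by norm_num)) (min_le_right _ _)
          have h2 : |min (normAtPlace w x) 4 - min (normAtPlace w y) 4|
              ≤ |normAtPlace w x - normAtPlace w y| := by
            have := abs_min_sub_min_le_max (normAtPlace w x) 4 (normAtPlace w y) 4
            rwa [sub_self, abs_zero, max_eq_left (abs_nonneg _)] at this
          have h3 := abs_normAtPlace_sub_le K x y w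
          linarith
      _ = (Fintype.card (InfinitePlace K) : ℝ) * (8 * en K (x - y)) := by
          rw [Finset.sum_const, nsmul_eq_mul, Finset.card_univ]
      _ ≤ _ := by
          apply mul_le_mul_of_nonneg_right _ (by positivity)
          exact_mod_cast card_place_le K
  calc |N4 K x - N4 K y| ≤ _ := h
    _ ≤ (Module.finrank ℚ K * (8 * en K (x - y))) * 16 ^ Module.finrank ℚ K := by
        apply mul_le_mul hsum _ (by positivity) (by positivity)
        rw [Finset.card_univ]
        exact pow_le_pow_right₀ (by norm_num) (card_place_le K)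
    _ = _ := by ring

end K

theorem Nice.bound {G : ℝ} {g : ℝ → ℝ} (hg : Nice G g) (u : ℝ) : |g u| ≤ 3 * G := by
  obtain ⟨hG, hl, hz⟩ := hg
  by_cases h : u ≤ 1 ∨ 4 ≤ u
  · rw [hz u h, abs_zero]; positivity
  · rw [not_or, not_le, not_le] at h
    have h1 : g 1 = 0 := hz 1 (Or.inl le_rfl)
    have h2 := hl u 1
    rw [h1, sub_zero, Real.norm_eq_abs] at h2
    have h3 : |u - 1| ≤ 3 := by rw [abs_of_nonneg (by linarith)]; linarith [h.2]
    nlinarith

theorem Phi_lip (m : ℕ) : ∃ C : ℝ, 0 < C ∧
    ∀ (K : Type) [Field K] [NumberField K], Module.finrank ℚ K = m →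
    ∀ (G : ℝ) (g : ℝ → ℝ), Nice G g → ∀ x y : mixedSpace K,
      |Phi K g x - Phi K g y| ≤ C * G * en K (x - y) := by
  refine ⟨8 * m * 16 ^ m + 3 * m + 1, by positivity, ?_⟩
  intro K _ _ hK G g hg x y
  classical
  have hG : 0 ≤ G := hg.1
  have hen : 0 ≤ en K (x - y) := Real.sqrt_nonneg _
  rw [Phi_eq K G g hg x, Phi_eq K G g hg y]
  set P := ∏ w : {w : InfinitePlace K // w ≠ w₀}, psi (normAtPlace w.1 x) with hP
  set Q := ∏ w : {w : InfinitePlace K // w ≠ w₀}, psi (normAtPlace w.1 y) with hQ
  have habs1 : ∀ v, |psi v| ≤ 1 := fun v => by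
    rw [abs_of_nonneg (psi_nonneg v)]; exact psi_le_one v
  have hP1 : |P| ≤ 1 := by
    rw [hP, Finset.abs_prod]
    exact Finset.prod_le_one (fun _ _ => abs_nonneg _) (fun _ _ => habs1 _)
  have hPQ : |P - Q| ≤ m * en K (x - y) := by
    have h := prod_sub_prod_le (Finset.univ : Finset {w : InfinitePlace K // w ≠ w₀})
      (fun w => psi (normAtPlace w.1 x)) (fun w => psi (normAtPlace w.1 y)) 1 le_rfl
      (fun _ _ => habs1 _) (fun _ _ => habs1 _)
    rw [one_pow, mul_one] at h
    refine h.trans ?_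
    calc ∑ w : {w : InfinitePlace K // w ≠ w₀}, |psi (normAtPlace w.1 x) - psi (normAtPlace w.1 y)|
        ≤ ∑ _w : {w : InfinitePlace K // w ≠ w₀}, en K (x - y) := by
          apply Finset.sum_le_sum
          intro w _
          exact (psi_lip _ _).trans (abs_normAtPlace_sub_le K x y w.1)
      _ = (Fintype.card {w : InfinitePlace K // w ≠ w₀} : ℝ) * en K (x - y) := by
          rw [Finset.sum_const, nsmul_eq_mul, Finset.card_univ]
      _ ≤ _ := by
          apply mul_le_mul_of_nonneg_right _ hen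
          have h1 : Fintype.card {w : InfinitePlace K // w ≠ w₀} ≤ Fintype.card (InfinitePlace K) :=
            Fintype.card_subtype_le _
          have h2 := card_place_le K
          rw [hK] at h2
          exact_mod_cast h1.trans h2
  have hN : |g (N4 K x) - g (N4 K y)| ≤ G * (8 * m * 16 ^ m * en K (x - y)) := by
    have h1 := hg.2.1 (N4 K x) (N4 K y)
    rw [Real.norm_eq_abs] at h1
    have h2 := N4_lip K x y
    rw [hK] at h2
    exact h1.trans (mul_le_mul_of_nonneg_left h2 hG)
  have hgb := hg.bound (N4 K y)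
  calc |g (N4 K x) * P - g (N4 K y) * Q|
      = |(g (N4 K x) - g (N4 K y)) * P + g (N4 K y) * (P - Q)| := by congr 1; ring
    _ ≤ |(g (N4 K x) - g (N4 K y)) * P| + |g (N4 K y) * (P - Q)| := abs_add_le _ _
    _ = |g (N4 K x) - g (N4 K y)| * |P| + |g (N4 K y)| * |P - Q| := by rw [abs_mul, abs_mul]
    _ ≤ (G * (8 * m * 16 ^ m * en K (x - y))) * 1 + (3 * G) * (m * en K (x - y)) := by
        apply add_le_add
        · exact mul_le_mul hN hP1 (abs_nonneg _) (by positivity)
        · exact mul_le_mul hgb hPQ (abs_nonneg _) (by positivity)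
    _ ≤ (8 * m * 16 ^ m + 3 * m + 1) * G * en K (x - y) := by
        have : 0 ≤ G * en K (x - y) := mul_nonneg hG hen
        nlinarith

variable (K : Type) [Field K] [NumberField K]

theorem Phi_zero (G : ℝ) (g : ℝ → ℝ) (hg : Nice G g) : Phi K g 0 = 0 := by
  unfold Phi
  rw [map_zero, hg.2.2 0 (Or.inl (by norm_num)), zero_mul]

theorem Phi_support (G : ℝ) (g : ℝ → ℝ) (hg : Nice G g) (x : mixedSpace K)
    (h : 4 * Module.finrank ℚ K + 1 ≤ en K x) : Phi K g x = 0 := by
  classical
  by_contra hne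
  have hne' := hne
  unfold Phi at hne
  have hg0 : g (mixedEmbedding.norm x) ≠ 0 := left_ne_zero_of_mul hne
  have hp : (∏ w : {w : InfinitePlace K // w ≠ w₀}, psi (normAtPlace w.1 x)) ≠ 0 :=
    right_ne_zero_of_mul hne
  have hw : ∀ w : InfinitePlace K, w ≠ w₀ → 1 < normAtPlace w x ∧ normAtPlace w x < 3 := by
    intro w hw
    exact psi_ne_zero (Finset.prod_ne_zero_iff.mp hp ⟨w, hw⟩ (Finset.mem_univ _))
  have h0 : normAtPlace (w₀ : InfinitePlace K) x ≤ 4 := by
    by_contra h4
    rw [not_le] at h4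
    apply hg0
    apply hg.2.2
    right
    rw [mixedEmbedding.norm_apply]
    exact four_le_norm_of K (fun w => normAtPlace w x) (fun w hw0 => (hw w hw0).1.le) h4.le
  have hall : ∀ w, normAtPlace w x ≤ 4 := by
    intro w
    by_cases hw0 : w = w₀
    · subst hw0; exact h0
    · linarith [(hw w hw0).2]
  have := en_le K x 4 (by norm_num) hall
  linarith

theorem Phi_nonneg (g : ℝ → ℝ) (hg : ∀ u, 0 ≤ g u) (x : mixedSpace K) : 0 ≤ Phi K g x := by
  unfold Phi
  exact mul_nonneg (hg _) (Finset.prod_nonneg fun w _ => psi_nonneg _)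

theorem continuous_psi : Continuous psi := by
  unfold psi
  fun_prop

theorem Nice.continuous {G : ℝ} {g : ℝ → ℝ} (hg : Nice G g) : Continuous g := by
  have : LipschitzWith ⟨G, hg.1⟩ g := by
    apply LipschitzWith.of_dist_le_mul
    intro u v
    rw [dist_eq_norm, Real.dist_eq]
    exact hg.2.1 u v
  exact this.continuous

theorem continuous_Phi (G : ℝ) (g : ℝ → ℝ) (hg : Nice G g) : Continuous (Phi K g) := by
  classical
  unfold Phi
  apply Continuous.mul
  · exact hg.continuous.comp (mixedEmbedding.continuous_norm K)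
  · apply continuous_finsetProd
    intro w _
    exact continuous_psi.comp (continuous_normAtPlace w.1)

theorem Phi_congr (g : ℝ → ℝ) (x y : mixedSpace K)
    (h : ∀ w, normAtPlace w x = normAtPlace w y) : Phi K g x = Phi K g y := by
  unfold Phi
  rw [mixedEmbedding.norm_apply, mixedEmbedding.norm_apply]
  simp only [h]

end Pool.ZD
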