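import Pool.Agent.ZD.Unfold
import Pool.Agent.ZD.ClassSum
import Pool.Agent.ZD.TestLip
import Pool.Agent.ZD.TestInt
import Pool.Agent.ZD.ExpInt
import Pool.Agent.ZD.Counts

/-!
# The two integrals over the fundamental domain
-/

open scoped NumberField nonZeroDivisors ENNReal
open NumberField NumberField.InfinitePlace NumberField.mixedEmbedding NumberField.Units
  NumberField.Units.dirichletUnitTheorem MeasureTheory

namespace Pool.ZD

noncomputable section

instance countable_RI (K : Type) [Field K] [NumberField K] : Countable (𝓞 K) :=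
  (RingOfIntegers.basis K).equivFun.injective.countable

instance countable_NZ (K : Type) [Field K] [NumberField K] (J : (Ideal (𝓞 K))⁰) :
    Countable (NZ K J) := Subtype.coe_injective.countable

open scoped Classical in
/-- Truncated sum of inverse powers of the norms of the points of the scaled lattice. -/
def Lam (m : ℕ) (K : Type) [Field K] [NumberField K] (J : (Ideal (𝓞 K))⁰) (r : ℝ)
    (t : logSpace K) : ℝ≥0∞ :=
  ∑' x : NZ K J, if en K (sg K t * mixedEmbedding K ((x : 𝓞 K) : K)) ≤ r then
    ENNReal.ofReal ((en K (sg K t * mixedEmbedding K ((x : 𝓞 K) : K)))⁻¹ ^ (2 * m - 2)) else 0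

/-- The sum of the test function over the scaled lattice. -/
def TT (K : Type) [Field K] [NumberField K] (J : (Ideal (𝓞 K))⁰) (g : ℝ → ℝ) (y : ℝ)
    (t : logSpace K) : ℝ≥0∞ :=
  ∑' x : NZ K J, ENNReal.ofReal
    (Phi K g (y⁻¹ • (sg K t * mixedEmbedding K ((x : 𝓞 K) : K))))

variable (K : Type) [Field K] [NumberField K] (J : (Ideal (𝓞 K))⁰)

theorem measurable_Gf (m : ℕ) (r : ℝ) : Measurable (fun x : mixedSpace K =>
    open scoped Classical in
    if en K x ≤ r then ENNReal.ofReal ((en K x)⁻¹ ^ (2 * m - 2)) else 0) := by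
  classical
  refine Measurable.ite ?_ ?_ measurable_const
  · exact measurableSet_le (continuous_en K).measurable measurable_const
  · exact ENNReal.measurable_ofReal.comp (((continuous_en K).measurable.inv).pow_const _)

theorem measurable_Lam (m : ℕ) (r : ℝ) : Measurable (Lam m K J r) := by
  classical
  unfold Lam
  refine Measurable.tsum fun x => ?_
  have h := (measurable_Gf K m r).comp
    ((continuous_sg K).mul (continuous_const (y := mixedEmbedding K ((x : 𝓞 K) : K)))).measurable
  exact h

theorem measurable_TT (G : ℝ) (g : ℝ → ℝ) (hg : Nice G g) (y : ℝ) :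
    Measurable (TT K J g y) := by
  unfold TT
  refine Measurable.tsum fun x => ?_
  refine ENNReal.measurable_ofReal.comp ?_
  refine Continuous.measurable ?_
  refine (continuous_Phi K G g hg).comp ?_
  have h1 : Continuous fun t : logSpace K =>
      sg K t * mixedEmbedding K ((x : 𝓞 K) : K) := (continuous_sg K).mul continuous_const
  exact h1.const_smul (y⁻¹)

open scoped Classical in
theorem lint_TT (G : ℝ) (g : ℝ → ℝ) (hg : Nice G g)
    (A : ClassGroup (𝓞 K)) (hJ : ClassGroup.mk0 J = A⁻¹) (cK : ℝ)
    (hint : ∀ x : mixedSpace K, mixedEmbedding.norm x ≠ 0 →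
      ∫⁻ t : logSpace K, ENNReal.ofReal (Phi K g (sg K t * x)) =
        ENNReal.ofReal (cK * g (mixedEmbedding.norm x))) (y : ℝ) (hy : 0 < y) :
    ∫⁻ t in FD K, TT K J g y t =
      torsionOrder K * ∑' I : Cls K A, ENNReal.ofReal (cK * g (nm K I * nm K J / y ^
        Module.finrank ℚ K)) := by
  unfold TT
  rw [lintegral_tsum]
  · have hc : Continuous (fun x : mixedSpace K => Phi K g (y⁻¹ • x)) :=
      (continuous_Phi K G g hg).comp (continuous_const_smul _)
    have h1 := unfold K J (fun x => ENNReal.ofReal (Phi K g (y⁻¹ • x)))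
      (ENNReal.measurable_ofReal.comp hc.measurable) (fun x z hxz => by
        have : Phi K g (y⁻¹ • x) = Phi K g (y⁻¹ • z) := by
          refine Phi_congr K g _ _ fun w => ?_
          rw [normAtPlace_smul, normAtPlace_smul, hxz w]
        simp only [this])
    rw [h1, ← class_sum K J A hJ (fun u => ENNReal.ofReal (cK * g (u / y ^ Module.finrank ℚ K)))]
    refine tsum_congr fun x => ?_
    have hx : mixedEmbedding.norm (x : mixedSpace K) ≠ 0 := x.2.1.2
    have hx' : mixedEmbedding.norm (y⁻¹ • (x : mixedSpace K)) =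
        mixedEmbedding.norm (x : mixedSpace K) / y ^ Module.finrank ℚ K := by
      rw [mixedEmbedding.norm_smul, abs_of_pos (inv_pos.mpr hy), inv_pow, div_eq_inv_mul]
    have h2 := hint (y⁻¹ • (x : mixedSpace K)) (by
      rw [hx']
      positivity)
    rw [hx'] at h2
    rw [← h2]
    refine lintegral_congr fun t => ?_
    rw [mul_smul_comm]
  · intro x
    have h1 : Continuous fun t : logSpace K =>
      sg K t * mixedEmbedding K ((x : 𝓞 K) : K) := (continuous_sg K).mul continuous_const
    exact (ENNReal.measurable_ofReal.comp ((continuous_Phi K G g hg).comp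
      (h1.const_smul (y⁻¹))).measurable).aemeasurable

open scoped Classical in
theorem lint_Lam (m : ℕ) (A : ClassGroup (𝓞 K)) (hJ : ClassGroup.mk0 J = A⁻¹)
    (C r : ℝ) (h : ∀ x : mixedSpace K, mixedEmbedding.norm x ≠ 0 →
      ∫⁻ t : logSpace K, (if en K (sg K t * x) ≤ r then
        ENNReal.ofReal ((en K (sg K t * x))⁻¹ ^ (2 * m - 2)) else 0) ≤
      if mixedEmbedding.norm x ≤ r ^ m then
        ENNReal.ofReal (C * (mixedEmbedding.norm x) ^ (-(2 - 2 / (m : ℝ)))) else 0) :
    ∫⁻ t in FD K, Lam m K J r t ≤
      torsionOrder K * ∑' I : Cls K A, if nm K I * nm K J ≤ r ^ m then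
        ENNReal.ofReal (C * (nm K I * nm K J) ^ (-(2 - 2 / (m : ℝ)))) else 0 := by
  unfold Lam
  rw [lintegral_tsum]
  · have h1 := unfold K J (fun x => if en K x ≤ r then
      ENNReal.ofReal ((en K x)⁻¹ ^ (2 * m - 2)) else 0) (measurable_Gf K m r) (fun x z hxz => by
        have : en K x = en K z := by
          unfold en
          simp only [hxz]
        simp only [this])
    rw [h1, ← class_sum K J A hJ (fun u => if u ≤ r ^ m then
        ENNReal.ofReal (C * u ^ (-(2 - 2 / (m : ℝ)))) else 0)]
    refine ENNReal.tsum_le_tsum fun x => ?_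
    exact h _ x.2.1.2
  · intro x
    have h1 := (measurable_Gf K m r).comp
      ((continuous_sg K).mul (continuous_const (y := mixedEmbedding K ((x : 𝓞 K) : K)))).measurable
    exact h1.aemeasurable

end

end Pool.ZD
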