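import Pool.Agent.ZD.KeyA
import Pool.Agent.ZD.LC

/-!
# Pointwise comparison of the lattice sums at two scales
-/

open scoped NumberField nonZeroDivisors ENNReal
open NumberField NumberField.InfinitePlace NumberField.mixedEmbedding NumberField.Units
  NumberField.Units.dirichletUnitTheorem MeasureTheory

namespace Pool.ZD

open scoped Classical in
theorem toReal_TT (K : Type) [Field K] [NumberField K] (J : (Ideal (𝓞 K))⁰) (G : ℝ) (g : ℝ → ℝ)
    (hg : Nice G g) (hg0 : ∀ u, 0 ≤ g u) (y : ℝ) (t : logSpace K) :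
    (TT K J g y t).toReal =
      ∑' x : (J : Ideal (𝓞 K)), Phi K g (y⁻¹ • (sg K t * mixedEmbedding K ((x : 𝓞 K) : K))) := by
  unfold TT
  rw [ENNReal.tsum_toReal_eq (fun x => ENNReal.ofReal_ne_top)]
  have h0 : ∀ x : NZ K J, (ENNReal.ofReal
      (Phi K g (y⁻¹ • (sg K t * mixedEmbedding K ((x : 𝓞 K) : K))))).toReal =
      Phi K g (y⁻¹ • (sg K t * mixedEmbedding K ((x : 𝓞 K) : K))) := fun x =>
    ENNReal.toReal_ofReal (Phi_nonneg K g hg0 _)
  simp only [h0]
  have hinj : Function.Injective (fun x : NZ K J => (⟨x.1, x.2.1⟩ : (J : Ideal (𝓞 K)))) := by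
    intro a b hab
    simpa [Subtype.ext_iff] using hab
  rw [← hinj.tsum_eq (f := fun x : (J : Ideal (𝓞 K)) =>
    Phi K g (y⁻¹ • (sg K t * mixedEmbedding K ((x : 𝓞 K) : K))))]
  intro x hx
  rw [Function.mem_support] at hx
  by_cases h : x = 0
  · exfalso
    apply hx
    rw [h]
    simp only [ZeroMemClass.coe_zero, map_zero, mul_zero, smul_zero]
    exact Phi_zero K G g hg
  · exact ⟨⟨x.1, x.2, fun h' => h (Subtype.ext h')⟩, rfl⟩

open scoped Classical in
theorem diff_TT (m : ℕ) (hm : 2 ≤ m) : ∃ C : ℝ, 0 < C ∧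
    ∀ (K : Type) [Field K] [NumberField K], Module.finrank ℚ K = m →
    ∀ (J : (Ideal (𝓞 K))⁰) (r : ℝ) (t : logSpace K),
      (∃ x : NZ K J, en K (sg K t * mixedEmbedding K ((x : 𝓞 K) : K)) ≤ r) →
      Lam m K J r t < ⊤ →
    ∀ (G : ℝ) (g : ℝ → ℝ), Nice G g → (∀ u, 0 ≤ g u) → ∀ y y' : ℝ, 0 < y → 0 < y' →
      |(y ^ m)⁻¹ * (TT K J g y t).toReal - (y' ^ m)⁻¹ * (TT K J g y' t).toReal| ≤
        C * G * (y⁻¹ + y'⁻¹) * Real.sqrt (Lam m K J r t).toReal := by
  obtain ⟨CL, hCL, hL⟩ := Phi_lip m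
  obtain ⟨CC, hCC, hC⟩ := lattice_count m (by omega) (4 * m + 1) (by positivity)
  refine ⟨CC * CL, by positivity, ?_⟩
  intro K _ _ hK J r t ⟨x0, hx0⟩ hLam G g hg hg0 y y' hy hy'
  set L0 : ℝ := (Lam m K J r t).toReal with hL0
  -- every short vector contributes to `Lam`
  have hterm : ∀ x : NZ K J, en K (sg K t * mixedEmbedding K ((x : 𝓞 K) : K)) ≤ r →
      (en K (sg K t * mixedEmbedding K ((x : 𝓞 K) : K)))⁻¹ ^ (2 * m - 2) ≤ L0 := by
    intro x hx
    have h1 : ENNReal.ofReal ((en K (sg K t * mixedEmbedding K ((x : 𝓞 K) : K)))⁻¹ ^ (2 * m - 2)) ≤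
        Lam m K J r t := by
      unfold Lam
      refine le_trans (le_of_eq ?_) (ENNReal.le_tsum x)
      rw [if_pos hx]
    exact (ENNReal.ofReal_le_iff_le_toReal hLam.ne).mp h1
  have hne : ∀ x : 𝓞 K, x ≠ 0 → sg K t * mixedEmbedding K (x : K) ≠ 0 := by
    intro x hx h
    have h1 := norm_sg_mul K t (mixedEmbedding K (x : K))
    rw [h, map_zero] at h1
    have h2 := (norm_eq_zero_iff' (x := mixedEmbedding K (x : K)) ⟨_, rfl⟩).mp h1.symm
    apply hx
    have h3 := (mixedEmbedding_injective K) (h2.trans (map_zero _).symm)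
    exact_mod_cast h3
  have hpos : ∀ x : 𝓞 K, x ≠ 0 → 0 < en K (sg K t * mixedEmbedding K (x : K)) := fun x hx =>
    en_pos K _ (hne x hx)
  have hL0pos : 0 < L0 := lt_of_lt_of_le (by have := hpos x0.1 x0.2.2; positivity) (hterm x0 hx0)
  have hm1 : (0 : ℝ) < 2 * (m : ℝ) - 2 := by
    have : (2 : ℝ) ≤ m := by exact_mod_cast hm
    linarith
  set lam : ℝ := L0 ^ (-(1 / (2 * (m : ℝ) - 2))) with hlam
  have hlampos : 0 < lam := Real.rpow_pos_of_pos hL0pos _
  have hinv : lam⁻¹ = L0 ^ (1 / (2 * (m : ℝ) - 2)) := by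
    rw [hlam, Real.rpow_neg hL0pos.le, inv_inv]
  have hpow1 : lam⁻¹ ^ (2 * m - 2) = L0 := by
    rw [hinv, ← Real.rpow_natCast, ← Real.rpow_mul hL0pos.le]
    have : (1 / (2 * (m : ℝ) - 2)) * ((2 * m - 2 : ℕ) : ℝ) = 1 := by
      rw [Nat.cast_sub (by omega)]
      push_cast
      exact one_div_mul_cancel hm1.ne'
    rw [this, Real.rpow_one]
  have hpow2 : lam⁻¹ ^ (m - 1) = Real.sqrt L0 := by
    have h1 : (lam⁻¹ ^ (m - 1)) ^ 2 = L0 := by
      rw [← pow_mul, ← hpow1]
      congr 1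
      omega
    rw [← h1, Real.sqrt_sq (by positivity)]
  have hmin : ∀ x : NZ K J, lam ≤ en K (sg K t * mixedEmbedding K ((x : 𝓞 K) : K)) := by
    have hs : ∀ x : NZ K J, en K (sg K t * mixedEmbedding K ((x : 𝓞 K) : K)) ≤ r →
        lam ≤ en K (sg K t * mixedEmbedding K ((x : 𝓞 K) : K)) := by
      intro x hx
      have h1 := hterm x hx
      rw [← hpow1] at h1
      have hx1 := hpos x.1 x.2.2
      have h2 := (pow_le_pow_iff_left₀ (by positivity) (by positivity) (by omega)).mp h1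
      exact (inv_le_inv₀ hx1 hlampos).mp h2
    intro x
    by_cases hx : en K (sg K t * mixedEmbedding K ((x : 𝓞 K) : K)) ≤ r
    · exact hs x hx
    · exact ((hs x0 hx0).trans hx0).trans (not_le.mp hx).le
  -- the additive map
  let e := (euclidean.toMixed K)
  let φ : (J : Ideal (𝓞 K)) →+ euclidean.mixedSpace K :=
    { toFun := fun x => e.symm (sg K t * mixedEmbedding K ((x : 𝓞 K) : K))
      map_zero' := by simp
      map_add' := by
        intro a b
        simp [mul_add] }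
  have hφ : ∀ x, φ x = e.symm (sg K t * mixedEmbedding K ((x : 𝓞 K) : K)) := fun x => rfl
  have hen : ∀ x, ‖φ x‖ = en K (sg K t * mixedEmbedding K ((x : 𝓞 K) : K)) := by
    intro x
    rw [hφ, en_eq]
  have key := hC (euclidean.mixedSpace K) (by rw [euclidean.finrank, hK]) _ φ lam hlampos
    (fun x hx => by
      rw [hen]
      exact hmin ⟨x.1, x.2, fun h => hx (Subtype.ext h)⟩)
    (fun u => Phi K g (e u)) (CL * G) (mul_nonneg hCL.le hg.1)
    (fun u v => by
      have h1 := hL K hK G g hg (e u) (e v)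
      rwa [← map_sub, en_eq, ContinuousLinearEquiv.symm_apply_apply] at h1)
    (fun u hu => by
      refine Phi_support K G g hg _ ?_
      rw [en_eq, ContinuousLinearEquiv.symm_apply_apply, hK]
      exact hu)
    (by simp only [map_zero]; exact Phi_zero K G g hg)
  obtain ⟨c, hc⟩ := key
  have hsum : ∀ y : ℝ, ∑' x : (J : Ideal (𝓞 K)), Phi K g (e (y⁻¹ • φ x)) =
      (TT K J g y t).toReal := by
    intro y
    rw [toReal_TT K J G g hg hg0]
    refine tsum_congr fun x => ?_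
    rw [hφ, map_smul, ContinuousLinearEquiv.apply_symm_apply]
  have hone : ∀ y : ℝ, 0 < y → |(y ^ m)⁻¹ * (TT K J g y t).toReal - c| ≤
      CC * CL * G * y⁻¹ * Real.sqrt L0 := by
    intro y hy
    have h1 := hc y hy
    rw [hsum] at h1
    have h2 : (y ^ m)⁻¹ * (TT K J g y t).toReal - c =
        (y ^ m)⁻¹ * ((TT K J g y t).toReal - c * y ^ m) := by
      field_simp
    rw [h2, abs_mul, abs_of_pos (by positivity)]
    calc (y ^ m)⁻¹ * |(TT K J g y t).toReal - c * y ^ m| ≤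
        (y ^ m)⁻¹ * (CC * (CL * G) * (y / lam) ^ (m - 1)) :=
          mul_le_mul_of_nonneg_left h1 (by positivity)
      _ = CC * CL * G * ((y ^ m)⁻¹ * y ^ (m - 1)) * (lam⁻¹ ^ (m - 1)) := by
          rw [div_eq_mul_inv, mul_pow]
          ring
      _ = CC * CL * G * y⁻¹ * Real.sqrt L0 := by
          rw [hpow2]
          congr 2
          obtain ⟨k, rfl⟩ : ∃ k, m = k + 1 := ⟨m - 1, by omega⟩
          rw [Nat.add_sub_cancel, pow_succ]
          field_simp
  have h1 := hone y hy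
  have h2 := hone y' hy'
  have h3 : (y ^ m)⁻¹ * (TT K J g y t).toReal - (y' ^ m)⁻¹ * (TT K J g y' t).toReal =
      ((y ^ m)⁻¹ * (TT K J g y t).toReal - c) - ((y' ^ m)⁻¹ * (TT K J g y' t).toReal - c) := by
    ring
  rw [h3]
  refine (abs_sub _ _).trans ?_
  calc _ ≤ CC * CL * G * y⁻¹ * Real.sqrt L0 + CC * CL * G * y'⁻¹ * Real.sqrt L0 :=
        add_le_add h1 h2
    _ = _ := by ring

end Pool.ZD
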