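import Pool.Agent.ZD.Key

/-!
# Module MEAN: mean square over the classes, complex test functions

PAPER PROOF. Write `g = g₁ - g₂ + i (g₃ - g₄)`, `g₁ = max 0 (re g)`, …; each `g_j` is nonnegative and
`Nice G`. By `key` (the error of `g` is the combination of the errors of the `g_j`; the tsums over
`Cls K A` have finite support by `finite_le`), `‖error_A(g)‖^2 ≤ 4 ∑_j |error_A(g_j)|^2`. Sum over the
classes `A` (finite): `∑_A ∑' I : {I : Cls K A // nm ≤ X}` is the sum over all `I` with `nm ≤ X`, bounded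
by `sum_inv_le` with `X = max 1 (C √|D|)`, `≤ C' |D|^ε` (`|D| ≥ 1`).
-/

open scoped NumberField nonZeroDivisors ENNReal
open NumberField NumberField.InfinitePlace NumberField.mixedEmbedding NumberField.Units

namespace Pool.ZD

namespace Mean

section Classes

variable (K : Type) [Field K] [NumberField K]

open Classical in
/-- The truncated weight. -/
noncomputable def hh (X a : ℝ) (I : (Ideal (𝓞 K))⁰) : ℝ :=
  if nm K I ≤ X then nm K I ^ (-a) else 0

theorem hh_nonneg (X a : ℝ) (I : (Ideal (𝓞 K))⁰) : 0 ≤ hh K X a I := by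
  unfold hh
  have := nm_pos' K I
  split_ifs <;> positivity

theorem hh_mono {X Y : ℝ} (h : X ≤ Y) (a : ℝ) (I : (Ideal (𝓞 K))⁰) : hh K X a I ≤ hh K Y a I := by
  by_cases h1 : nm K I ≤ X
  · unfold hh
    rw [if_pos h1, if_pos (h1.trans h)]
  · have h2 := hh_nonneg K Y a I
    unfold hh at h2 ⊢
    rwa [if_neg h1]

theorem hh_summable (X a : ℝ) : Summable (hh K X a) := by
  refine summable_of_hasFiniteSupport ((finite_le K X).subset ?_)
  intro I hI
  rw [Function.mem_support] at hI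
  by_contra h
  apply hI
  have h' : ¬ nm K I ≤ X := h
  unfold hh
  rw [if_neg h']

theorem tsum_all (X a : ℝ) :
    ∑' I : {I : (Ideal (𝓞 K))⁰ // nm K I ≤ X}, nm K I.1 ^ (-a) = ∑' I, hh K X a I := by
  refine (tsum_subtype {I : (Ideal (𝓞 K))⁰ | nm K I ≤ X} (fun I => nm K I ^ (-a))).trans ?_
  refine tsum_congr fun I => ?_
  rw [Set.indicator_apply]
  rfl

open Classical in
theorem tsum_class (A : ClassGroup (𝓞 K)) (X a : ℝ) :
    ∑' I : {I : Cls K A // nm K I ≤ X}, nm K I.1 ^ (-a) =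
      ∑' I : (Ideal (𝓞 K))⁰, if ClassGroup.mk0 I = A then hh K X a I else 0 := by
  have h1 : ∑' I : {I : Cls K A // nm K I ≤ X}, nm K I.1 ^ (-a) =
      ∑' I : Cls K A, hh K X a I.1 := by
    refine (tsum_subtype {I : Cls K A | nm K I ≤ X} (fun I => nm K I ^ (-a))).trans ?_
    refine tsum_congr fun I => ?_
    rw [Set.indicator_apply]
    rfl
  rw [h1]
  refine (tsum_subtype {I : (Ideal (𝓞 K))⁰ | ClassGroup.mk0 I = A} (hh K X a)).trans ?_
  refine tsum_congr fun I => ?_
  rw [Set.indicator_apply]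
  rfl

theorem sum_classes (X a : ℝ) :
    ∑ A : ClassGroup (𝓞 K), ∑' I : {I : Cls K A // nm K I ≤ X}, nm K I.1 ^ (-a) =
      ∑' I, hh K X a I := by
  classical
  simp only [tsum_class]
  rw [← Summable.tsum_finsetSum]
  · refine tsum_congr fun I => ?_
    rw [Finset.sum_ite_eq]
    simp
  · intro A _
    refine Summable.of_nonneg_of_le (fun I => ?_) (fun I => ?_) (hh_summable K X a)
    · split_ifs
      · exact hh_nonneg K X a I
      · exact le_rfl
    · split_ifs
      · exact le_rfl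
      · exact hh_nonneg K X a I

end Classes

section NiceParts

theorem nice_integrable {V : Type} [NormedAddCommGroup V] [NormedSpace ℝ V] {G : ℝ} {g : ℝ → V}
    (hg : Nice G g) : MeasureTheory.Integrable g := by
  have hc : Continuous g := by
    have : LipschitzWith (Real.toNNReal G) g := by
      refine LipschitzWith.of_dist_le_mul fun u v => ?_
      rw [dist_eq_norm, Real.dist_eq, Real.coe_toNNReal G hg.1]
      exact hg.2.1 u v
    exact this.continuous
  refine hc.integrable_of_hasCompactSupport ?_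
  refine HasCompactSupport.intro (isCompact_Icc (a := (1 : ℝ)) (b := 4)) ?_
  intro u hu
  rw [Set.mem_Icc, not_and_or, not_le, not_le] at hu
  refine hg.2.2 u ?_
  rcases hu with h | h
  · exact Or.inl h.le
  · exact Or.inr h.le

theorem nice_re {G : ℝ} {g : ℝ → ℂ} (hg : Nice G g) : Nice G (fun u => (g u).re) := by
  refine ⟨hg.1, fun u v => ?_, fun u hu => ?_⟩
  · refine le_trans ?_ (hg.2.1 u v)
    rw [Real.norm_eq_abs, ← Complex.sub_re]
    exact Complex.abs_re_le_norm _
  · simp only [hg.2.2 u hu, Complex.zero_re]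

theorem nice_im {G : ℝ} {g : ℝ → ℂ} (hg : Nice G g) : Nice G (fun u => (g u).im) := by
  refine ⟨hg.1, fun u v => ?_, fun u hu => ?_⟩
  · refine le_trans ?_ (hg.2.1 u v)
    rw [Real.norm_eq_abs, ← Complex.sub_im]
    exact Complex.abs_im_le_norm _
  · simp only [hg.2.2 u hu, Complex.zero_im]

theorem nice_neg {G : ℝ} {g : ℝ → ℝ} (hg : Nice G g) : Nice G (fun u => -g u) := by
  refine ⟨hg.1, fun u v => ?_, fun u hu => ?_⟩
  · refine le_trans (le_of_eq ?_) (hg.2.1 u v)
    rw [← norm_neg]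
    congr 1
    ring
  · simp only [hg.2.2 u hu, neg_zero]

theorem nice_max {G : ℝ} {g : ℝ → ℝ} (hg : Nice G g) : Nice G (fun u => max 0 (g u)) := by
  refine ⟨hg.1, fun u v => ?_, fun u hu => ?_⟩
  · refine le_trans ?_ (hg.2.1 u v)
    simp only [Real.norm_eq_abs]
    rw [max_comm 0 (g u), max_comm 0 (g v)]
    exact abs_max_sub_max_le_abs _ _ _
  · simp only [hg.2.2 u hu, max_self]

end NiceParts

end Mean

open Mean

theorem class_mean (m : ℕ) (hm : 2 ≤ m) (ε : ℝ) (hε : 0 < ε) : ∃ C : ℝ, 0 < C ∧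
    ∀ (K : Type) [Field K] [NumberField K], Module.finrank ℚ K = m →
    ∀ (G : ℝ) (g : ℝ → ℂ), Nice G g → ∀ Z : ℝ, 0 < Z →
      ∑ A : ClassGroup (𝓞 K),
        ‖∑' I : Cls K A, g (nm K I / Z) - (rho K : ℂ) * (∫ u, g u) * (Z : ℂ)‖ ^ 2 ≤
        C * G ^ 2 * (regulator K / torsionOrder K) * Z ^ (2 - 2 / (m : ℝ)) *
          |(discr K : ℝ)| ^ ε := by
  obtain ⟨Ck, hCk, hkey⟩ := key m hm
  obtain ⟨Cs, hCs, hsum⟩ := sum_inv_le m hm ε hε
  set C1 := max 1 Ck with hC1
  have hC1pos : 0 < C1 := lt_of_lt_of_le one_pos (le_max_left _ _)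
  refine ⟨8 * Ck * (Cs * C1 ^ ε), by positivity, ?_⟩
  intro K _ _ hK G g hg Z hZ
  set D := |(discr K : ℝ)| with hD
  have hD1 : 1 ≤ D := by
    have h1 : (1 : ℤ) ≤ |discr K| := Int.one_le_abs (discr_ne_zero K)
    rw [hD]
    exact_mod_cast h1
  have hsD1 : 1 ≤ Real.sqrt D := Real.one_le_sqrt.2 hD1
  set a : ℝ := 2 - 2 / (m : ℝ) with ha
  set w : ℝ := (torsionOrder K : ℝ) with hw
  have hwpos : 0 < w := by
    rw [hw]
    exact_mod_cast Nat.pos_of_ne_zero (NeZero.ne _)
  have hRpos := regulator_pos K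
  set S : ClassGroup (𝓞 K) → ℝ := fun A =>
    ∑' I : {I : Cls K A // nm K I ≤ Ck * Real.sqrt D}, nm K I.1 ^ (-a) with hS
  -- nonnegative real functions
  have h1 : ∀ (f : ℝ → ℝ), Nice G f → (∀ u, 0 ≤ f u) → ∀ A : ClassGroup (𝓞 K),
      |∑' I : Cls K A, f (nm K I / Z) - rho K * (∫ u, f u) * Z| ^ 2 ≤
        Ck * G ^ 2 * (regulator K / w) * Z ^ a * S A := by
    intro f hf hf0 A
    exact hkey K hK G f hf hf0 A Z hZ
  -- real functions
  have h2 : ∀ (f : ℝ → ℝ), Nice G f → ∀ A : ClassGroup (𝓞 K),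
      (∑' I : Cls K A, f (nm K I / Z) - rho K * (∫ u, f u) * Z) ^ 2 ≤
        4 * (Ck * G ^ 2 * (regulator K / w) * Z ^ a * S A) := by
    intro f hf A
    have hp := nice_max hf
    have hn := nice_max (nice_neg hf)
    have e1 := h1 _ hp (fun u => le_max_left _ _) A
    have e2 := h1 _ hn (fun u => le_max_left _ _) A
    have hfe : ∀ u, f u = max 0 (f u) - max 0 (-f u) := by
      intro u
      rcases le_total 0 (f u) with h | h
      · rw [max_eq_right h, max_eq_left (by linarith)]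
        ring
      · rw [max_eq_left h, max_eq_right (by linarith)]
        ring
    have e3 : ∑' I : Cls K A, f (nm K I / Z) =
        ∑' I : Cls K A, max 0 (f (nm K I / Z)) - ∑' I : Cls K A, max 0 (-f (nm K I / Z)) := by
      rw [← (summable_g K A G _ hp Z hZ).tsum_sub (summable_g K A G _ hn Z hZ)]
      exact tsum_congr fun I => hfe _
    have e4 : ∫ u, f u = (∫ u, max 0 (f u)) - ∫ u, max 0 (-f u) := by
      rw [← MeasureTheory.integral_sub (nice_integrable hp) (nice_integrable hn)]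
      exact MeasureTheory.integral_congr_ae (Filter.Eventually.of_forall hfe)
    rw [e3, e4]
    rw [sq_abs] at e1 e2
    nlinarith [sq_nonneg ((∑' I : Cls K A, max 0 (f (nm K I / Z)) -
      rho K * (∫ u, max 0 (f u)) * Z) + (∑' I : Cls K A, max 0 (-f (nm K I / Z)) -
      rho K * (∫ u, max 0 (-f u)) * Z))]
  -- complex functions
  have h3 : ∀ A : ClassGroup (𝓞 K),
      ‖∑' I : Cls K A, g (nm K I / Z) - (rho K : ℂ) * (∫ u, g u) * (Z : ℂ)‖ ^ 2 ≤
        8 * (Ck * G ^ 2 * (regulator K / w) * Z ^ a * S A) := by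
    intro A
    have e1 := h2 _ (nice_re hg) A
    have e2 := h2 _ (nice_im hg) A
    have hsg := summable_g K A G g hg Z hZ
    have hint := nice_integrable hg
    have e3 : (∑' I : Cls K A, g (nm K I / Z) - (rho K : ℂ) * (∫ u, g u) * (Z : ℂ)).re =
        ∑' I : Cls K A, (g (nm K I / Z)).re - rho K * (∫ u, (g u).re) * Z := by
      rw [Complex.sub_re, Complex.re_tsum hsg]
      have h5 : (∫ u, (g u).re) = (∫ u, g u).re := integral_re hint
      rw [h5]
      simp [Complex.mul_re]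
    have e4 : (∑' I : Cls K A, g (nm K I / Z) - (rho K : ℂ) * (∫ u, g u) * (Z : ℂ)).im =
        ∑' I : Cls K A, (g (nm K I / Z)).im - rho K * (∫ u, (g u).im) * Z := by
      rw [Complex.sub_im, Complex.im_tsum hsg]
      have h5 : (∫ u, (g u).im) = (∫ u, g u).im := integral_im hint
      rw [h5]
      simp [Complex.mul_im]
    rw [Complex.sq_norm, Complex.normSq_apply, e3, e4]
    nlinarith
  refine (Finset.sum_le_sum fun A _ => h3 A).trans ?_
  have h4 : ∑ A : ClassGroup (𝓞 K), 8 * (Ck * G ^ 2 * (regulator K / w) * Z ^ a * S A) =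
      8 * (Ck * G ^ 2 * (regulator K / w) * Z ^ a) * ∑ A : ClassGroup (𝓞 K), S A := by
    rw [Finset.mul_sum]
    exact Finset.sum_congr rfl fun A _ => by ring
  rw [h4]
  have h5 : ∑ A : ClassGroup (𝓞 K), S A ≤ Cs * C1 ^ ε * D ^ ε := by
    rw [hS, sum_classes K (Ck * Real.sqrt D) a]
    have h6 : Ck * Real.sqrt D ≤ C1 * Real.sqrt D :=
      mul_le_mul_of_nonneg_right (le_max_right _ _) (Real.sqrt_nonneg _)
    have h7 : ∑' I, hh K (Ck * Real.sqrt D) a I ≤ ∑' I, hh K (C1 * Real.sqrt D) a I :=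
      (hh_summable K _ a).tsum_le_tsum (fun I => hh_mono K h6 a I) (hh_summable K _ a)
    have h8 : 1 ≤ C1 * Real.sqrt D := by
      have : 1 ≤ C1 := le_max_left _ _
      nlinarith
    have h9 := hsum K hK (C1 * Real.sqrt D) h8
    rw [tsum_all] at h9
    refine (h7.trans h9).trans ?_
    rw [mul_assoc]
    refine mul_le_mul_of_nonneg_left ?_ hCs.le
    rw [← Real.mul_rpow hC1pos.le (by linarith)]
    refine Real.rpow_le_rpow (by positivity) ?_ hε.le
    refine mul_le_mul_of_nonneg_left ?_ hC1pos.le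
    rw [Real.sqrt_le_left (by linarith)]
    nlinarith
  calc 8 * (Ck * G ^ 2 * (regulator K / w) * Z ^ a) * ∑ A : ClassGroup (𝓞 K), S A ≤
      8 * (Ck * G ^ 2 * (regulator K / w) * Z ^ a) * (Cs * C1 ^ ε * D ^ ε) :=
        mul_le_mul_of_nonneg_left h5 (by positivity)
    _ = _ := by ring

end Pool.ZD
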